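import Mathlib

open scoped Topology
open Filter

namespace Pool.Agent.MP_86f3ed

universe u v

/-- A Banach bimodule structure over the C*-algebra `A` (not necessarily unital) on `X`: the
operator `L a` is `x ↦ a · x`, the operator `R a` is `x ↦ x · a`. The actions are bounded and
linear in both variables, associative, and they commute. -/
structure BanachBimodule (A : Type u) [NonUnitalCStarAlgebra A] (X : Type v)
    [NormedAddCommGroup X] [NormedSpace ℂ X] where
  L : A → X →L[ℂ] X
  R : A → X →L[ℂ] X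
  L_add : ∀ a b, L (a + b) = L a + L b
  R_add : ∀ a b, R (a + b) = R a + R b
  L_smul : ∀ (z : ℂ) a, L (z • a) = z • L a
  R_smul : ∀ (z : ℂ) a, R (z • a) = z • R a
  L_mul : ∀ a b, L (a * b) = (L a).comp (L b)
  R_mul : ∀ a b, R (a * b) = (R b).comp (R a)
  L_R : ∀ a b, (L a).comp (R b) = (R b).comp (L a)
  bounded : ∃ M : ℝ, ∀ a, ‖L a‖ ≤ M * ‖a‖ ∧ ‖R a‖ ≤ M * ‖a‖

/-- The dual bimodule has the actions `(a · f)(x) = f (x · a)` and `(f · a)(x) = f (a · x)`. A
bounded linear map `D` into it is a derivation if `D (ab) = a · D b + D a · b`. -/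
def IsDualDerivation {A : Type u} [NonUnitalCStarAlgebra A] {X : Type v}
    [NormedAddCommGroup X] [NormedSpace ℂ X] (B : BanachBimodule A X)
    (D : A →L[ℂ] StrongDual ℂ X) : Prop :=
  ∀ a b, D (a * b) = (D b).comp (B.R a) + (D a).comp (B.L b)

/-- Approximate amenability in the sense of Ghahramani and Loy: for every Banach bimodule `X`,
every bounded derivation `D` from `A` into the dual of `X` is approximately inner, that is, there
is a net `(ξ i)` in the dual with `a · ξ i - ξ i · a → D a` in norm for every `a`. -/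
def ApproximatelyAmenable (A : Type u) [NonUnitalCStarAlgebra A] : Prop :=
  ∀ (X : Type v) [NormedAddCommGroup X] [NormedSpace ℂ X] [CompleteSpace X]
    (B : BanachBimodule A X) (D : A →L[ℂ] StrongDual ℂ X), IsDualDerivation B D →
    ∃ (I : Type (max u v)) (_ : Preorder I) (_ : IsDirectedOrder I) (_ : Nonempty I)
      (ξ : I → StrongDual ℂ X),
      ∀ a, Tendsto (fun i => (ξ i).comp (B.R a) - (ξ i).comp (B.L a)) atTop (𝓝 (D a))

/-- `M` is the range of a contractive linear projection defined on all bounded operators. For a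
von Neumann algebra `M` this is injectivity. -/
def IsInjective {K : Type*} [NormedAddCommGroup K] [InnerProductSpace ℂ K]
    (M : Set (K →L[ℂ] K)) : Prop :=
  ∃ E : (K →L[ℂ] K) →ₗ[ℂ] (K →L[ℂ] K), (∀ S, ‖E S‖ ≤ ‖S‖) ∧ (∀ S, E S ∈ M) ∧ ∀ S ∈ M, E S = S

end Pool.Agent.MP_86f3ed
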