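import Pool.Agent.H.MP_86f3ed_an.Trc.Trace

open scoped InnerProductSpace Topology
open Filter ContinuousLinearMap

namespace Pool.Agent.MP_86f3ed

set_option linter.unusedSectionVars false

theorem exists_sqrt {X : Type*} [NormedAddCommGroup X] [InnerProductSpace ℂ X] [CompleteSpace X]
    (G : X →L[ℂ] X) (hG : 0 ≤ G) : ∃ r : X →L[ℂ] X, IsSelfAdjoint r ∧ r * r = G ∧
      ∀ b, Commute G b → Commute r b := by
  refine ⟨CFC.sqrt G, (CFC.sqrt_nonneg G).isSelfAdjoint, CFC.sqrt_mul_sqrt_self G hG, ?_⟩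
  intro b hb
  rw [CFC.sqrt]
  exact hb.cfcₙ_nnreal _

theorem isPositive_gram {X H : Type*} [NormedAddCommGroup X] [InnerProductSpace ℂ X]
    [CompleteSpace X] [NormedAddCommGroup H] [InnerProductSpace ℂ H] [CompleteSpace H]
    (Θ : X →L[ℂ] H) : 0 ≤ (adjoint Θ).comp Θ := by
  rw [ContinuousLinearMap.nonneg_iff_isPositive]
  exact isPositive_adjoint_comp_self Θ

section

variable {K : Type*} [NormedAddCommGroup K] [InnerProductSpace ℂ K] [CompleteSpace K]
  {H : Type*} [NormedAddCommGroup H] [InnerProductSpace ℂ H] [CompleteSpace H] {n : ℕ}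

/-- Coordinates. -/
noncomputable def pr (K : Type*) [NormedAddCommGroup K] [InnerProductSpace ℂ K] {n : ℕ}
    (i : Fin n) : PiLp 2 (fun _ : Fin n => K) →L[ℂ] K := PiLp.proj 2 (fun _ : Fin n => K) i

theorem pr_apply (i : Fin n) (v : PiLp 2 (fun _ : Fin n => K)) : pr K i v = v i := rfl

/-- Inclusions. -/
noncomputable def inc (K : Type*) [NormedAddCommGroup K] [InnerProductSpace ℂ K]
    [CompleteSpace K] {n : ℕ} (i : Fin n) : K →L[ℂ] PiLp 2 (fun _ : Fin n => K) :=
  adjoint (pr K i)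

theorem inc_eq (i : Fin n) (x : K) : inc K i x = PiLp.single 2 i x := by
  classical
  refine ext_inner_right ℂ fun v => ?_
  rw [inc, adjoint_inner_left, pr_apply, PiLp.inner_apply, Finset.sum_eq_single i]
  · rw [PiLp.single_eq_same]
  · intro j _ hj
    rw [PiLp.single_eq_of_ne 2 hj, inner_zero_left]
  · simp

theorem pr_inc_same (i : Fin n) (x : K) : pr K i (inc K i x) = x := by
  rw [inc_eq, pr_apply, PiLp.single_eq_same]

theorem pr_inc_ne {i j : Fin n} (h : i ≠ j) (x : K) : pr K i (inc K j x) = 0 := by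
  rw [inc_eq, pr_apply, PiLp.single_eq_of_ne 2 h]

theorem inner_inc (i : Fin n) (x : K) (v : PiLp 2 (fun _ : Fin n => K)) :
    ⟪inc K i x, v⟫_ℂ = ⟪x, pr K i v⟫_ℂ := by
  rw [inc, adjoint_inner_left]

/-- The row operator. -/
noncomputable def row (θ : Fin n → K →L[ℂ] H) : PiLp 2 (fun _ : Fin n => K) →L[ℂ] H :=
  ∑ j, (θ j).comp (pr K j)

theorem row_apply (θ : Fin n → K →L[ℂ] H) (v : PiLp 2 (fun _ : Fin n => K)) :
    row θ v = ∑ j, θ j (pr K j v) := by
  rw [row, sum_apply]; rfl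

theorem row_inc (θ : Fin n → K →L[ℂ] H) (i : Fin n) (x : K) : row θ (inc K i x) = θ i x := by
  classical
  rw [row_apply, Finset.sum_eq_single i]
  · rw [pr_inc_same]
  · intro j _ hj
    rw [pr_inc_ne hj, map_zero]
  · simp

theorem pr_adjoint_row (θ : Fin n → K →L[ℂ] H) (i : Fin n) (w : H) :
    pr K i (adjoint (row θ) w) = adjoint (θ i) w := by
  refine ext_inner_left ℂ fun x => ?_
  rw [← inner_inc, adjoint_inner_right, adjoint_inner_right, row_inc]

theorem pr_gram (θ : Fin n → K →L[ℂ] H) (i : Fin n) (v : PiLp 2 (fun _ : Fin n => K)) :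
    pr K i (((adjoint (row θ)).comp (row θ)) v) = ∑ j, (adjoint (θ i)) (θ j (pr K j v)) := by
  rw [comp_apply, pr_adjoint_row, row_apply, map_sum]

/-- The amplification of an operator. -/
noncomputable def amp (R : K →L[ℂ] K) :
    PiLp 2 (fun _ : Fin n => K) →L[ℂ] PiLp 2 (fun _ : Fin n => K) :=
  ∑ i, (inc K i).comp (R.comp (pr K i))

theorem ext_pr {v w : PiLp 2 (fun _ : Fin n => K)} (h : ∀ i, pr K i v = pr K i w) : v = w := by
  refine PiLp.ext fun i => ?_
  exact h i

theorem pr_amp (R : K →L[ℂ] K) (i : Fin n) (v : PiLp 2 (fun _ : Fin n => K)) :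
    pr K i (amp R v) = R (pr K i v) := by
  classical
  rw [amp, sum_apply, map_sum, Finset.sum_eq_single i]
  · rw [comp_apply, pr_inc_same, comp_apply]
  · intro j _ hj
    rw [comp_apply, pr_inc_ne hj.symm]
  · simp

theorem amp_inc (R : K →L[ℂ] K) (i : Fin n) (x : K) : amp R (inc K i x) = inc K i (R x) := by
  refine ext_pr fun j => ?_
  rw [pr_amp]
  by_cases h : j = i
  · subst h; rw [pr_inc_same, pr_inc_same]
  · rw [pr_inc_ne h, pr_inc_ne h, map_zero]

theorem sum_inner_pr (v w : PiLp 2 (fun _ : Fin n => K)) :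
    ∑ i, ⟪pr K i v, pr K i w⟫_ℂ = ⟪v, w⟫_ℂ := by
  rw [PiLp.inner_apply]; rfl

end

namespace Tr

variable {C : Type*} [CStarAlgebra C] {K : Type*} [NormedAddCommGroup K]
    [InnerProductSpace ℂ K] [CompleteSpace K] (T : Tr C K) {H : Type*} [NormedAddCommGroup H]
    [InnerProductSpace ℂ H] [CompleteSpace H]

theorem exists_root {n : ℕ} (θ : Fin n → K →L[ℂ] H)
    (hB : ∀ i j, T.InB ((adjoint (θ i)).comp (θ j))) :
    ∃ r : Fin n → Fin n → K →L[ℂ] K, (∀ i j, T.InB (r i j)) ∧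
      ∀ j l x y, ∑ i, ⟪r i j x, r i l y⟫_ℂ = ⟪θ j x, θ l y⟫_ℂ := by
  obtain ⟨r, hrsa, hrr, hrc⟩ := exists_sqrt ((adjoint (row θ)).comp (row θ))
    (isPositive_gram (row θ))
  refine ⟨fun i j => (pr K i).comp (r.comp (inc K j)), ?_, ?_⟩
  · intro i j d
    have hc : Commute ((adjoint (row θ)).comp (row θ)) (amp (T.R d)) := by
      refine ContinuousLinearMap.ext fun v => ?_
      refine ext_pr fun i => ?_
      show pr K i (((adjoint (row θ)).comp (row θ)) (amp (T.R d) v)) =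
        pr K i (amp (T.R d) (((adjoint (row θ)).comp (row θ)) v))
      rw [pr_gram, pr_amp, pr_gram, map_sum]
      refine Finset.sum_congr rfl fun j _ => ?_
      rw [pr_amp]
      exact congrArg (fun z : K →L[ℂ] K => z (pr K j v)) (hB i j d)
    have hr : ∀ v, r (amp (T.R d) v) = amp (T.R d) (r v) := fun v =>
      congrArg (fun z : PiLp 2 (fun _ : Fin n => K) →L[ℂ] PiLp 2 (fun _ : Fin n => K) => z v)
        (hrc _ hc).eq
    refine ContinuousLinearMap.ext fun x => ?_
    show pr K i (r (inc K j (T.R d x))) = T.R d (pr K i (r (inc K j x)))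
    rw [← amp_inc, hr, pr_amp]
  · intro j l x y
    show ∑ i, ⟪pr K i (r (inc K j x)), pr K i (r (inc K l y))⟫_ℂ = _
    rw [sum_inner_pr]
    have h1 : ⟪r (inc K j x), r (inc K l y)⟫_ℂ = ⟪inc K j x, r (r (inc K l y))⟫_ℂ :=
      (isSelfAdjoint_iff_isSymmetric.mp hrsa) _ _
    rw [h1, ← mulA, hrr, comp_apply, adjoint_inner_right, row_inc, row_inc]

end Tr

end Pool.Agent.MP_86f3ed
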