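import Pool.Agent.H.MP_86f3ed_an.Trc.Defs
import Pool.Agent.H.MP_86f3ed_an.Trc.Public

open scoped Topology
open Filter

namespace Pool.Agent.MP_86f3ed

universe u v

/-- The public form of a bimodule. -/
noncomputable def Bimod.toPublic {A : Type u} [NonUnitalCStarAlgebra A] {X : Type v} [NormedAddCommGroup X]
    [NormedSpace ℂ X] (B : Bimod A X) : BanachBimodule A X where
  L a := B.l a
  R a := B.r a
  L_add a b := by rw [map_add]
  R_add a b := by rw [map_add]
  L_smul z a := by rw [map_smul]
  R_smul z a := by rw [map_smul]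
  L_mul a b := by ext x; exact B.l_mul a b x
  R_mul a b := by ext x; exact B.r_mul a b x
  L_R a b := by ext x; exact B.l_r a b x
  bounded := ⟨max ‖B.l‖ ‖B.r‖, fun a =>
    ⟨(B.l.le_opNorm a).trans (mul_le_mul_of_nonneg_right (le_max_left _ _) (norm_nonneg _)),
      (B.r.le_opNorm a).trans (mul_le_mul_of_nonneg_right (le_max_right _ _) (norm_nonneg _))⟩⟩

theorem approxAmenable_of_public {A : Type u} [NonUnitalCStarAlgebra A]
    (hA : ApproximatelyAmenable.{u, v} A) : ApproxAmenable.{u, v} A := by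
  intro X _ _ _ B D hD
  have h : IsDualDerivation B.toPublic D := by
    intro a b
    rw [hD a b]
    rfl
  obtain ⟨I, i1, i2, i3, ξ, hξ⟩ := hA X B.toPublic D h
  exact ⟨I, i1, i2, i3, ξ, fun a => hξ a⟩

end Pool.Agent.MP_86f3ed
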