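import Mathlib

open scoped InnerProductSpace
open MeasureTheory Set

namespace Pool.Agent.MP_86f3ed

variable {H : Type*} [NormedAddCommGroup H] [InnerProductSpace ℂ H]

/-- Spectral decomposition of a symmetric operator whose range lies in a finite-dimensional
subspace. -/
theorem exists_spectral (D : H →ₗ[ℂ] H) (hsym : ∀ x y, ⟪D x, y⟫_ℂ = ⟪x, D y⟫_ℂ)
    (W : Submodule ℂ H) [FiniteDimensional ℂ W] (hW : ∀ x, D x ∈ W) :
    ∃ (m : ℕ) (g : Fin m → H) (ν : Fin m → ℝ), Orthonormal ℂ g ∧ (∀ k, g k ∈ W) ∧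
      (∀ w ∈ W, w = ∑ k, ⟪g k, w⟫_ℂ • g k) ∧ (∀ k, D (g k) = (ν k : ℂ) • g k) ∧
      (∀ v, D v = ∑ k, ((ν k : ℂ) * ⟪g k, v⟫_ℂ) • g k) := by
  classical
  let T : W →ₗ[ℂ] W := (D.comp W.subtype).codRestrict W (fun x => hW _)
  have hT : T.IsSymmetric := by
    intro x y
    show ⟪D (x : H), (y : H)⟫_ℂ = ⟪(x : H), D (y : H)⟫_ℂ
    exact hsym _ _
  let b := hT.eigenvectorBasis rfl
  have hg : Orthonormal ℂ (fun k => ((b k : W) : H)) := by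
    have := b.orthonormal
    exact this.comp_linearIsometry W.subtypeₗᵢ
  have hexp : ∀ w ∈ W, w = ∑ k, ⟪((b k : W) : H), w⟫_ℂ • ((b k : W) : H) := by
    intro w hw
    have h := b.sum_repr' (⟨w, hw⟩ : W)
    have h2 := congrArg (fun z : W => (z : H)) h
    simp only [Submodule.coe_sum, Submodule.coe_smul] at h2
    exact h2.symm
  have heig : ∀ k, D ((b k : W) : H) = ((hT.eigenvalues rfl k : ℝ) : ℂ) • ((b k : W) : H) := by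
    intro k
    have h := hT.apply_eigenvectorBasis rfl k
    have h2 := congrArg (fun z : W => (z : H)) h
    exact h2
  refine ⟨_, fun k => ((b k : W) : H), fun k => hT.eigenvalues rfl k, hg,
    fun k => (b k).2, hexp, heig, ?_⟩
  intro v
  rw [hexp (D v) (hW v)]
  refine Finset.sum_congr rfl fun k _ => ?_
  congr 1
  rw [← hsym, heig, inner_smul_left]
  simp

theorem norm_sq_sum_orthonormal {ι : Type*} [Fintype ι] {e : ι → H} (he : Orthonormal ℂ e)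
    (c : ι → ℂ) : ‖∑ i, c i • e i‖ ^ 2 = ∑ i, ‖c i‖ ^ 2 := by
  have h := he.inner_sum c c Finset.univ
  have h2 : ((‖∑ i, c i • e i‖ ^ 2 : ℝ) : ℂ) = ((∑ i, ‖c i‖ ^ 2 : ℝ) : ℂ) := by
    have h3 : ⟪∑ i, c i • e i, ∑ i, c i • e i⟫_ℂ = ((‖∑ i, c i • e i‖ : ℂ)) ^ 2 :=
      inner_self_eq_norm_sq_to_K _
    push_cast
    rw [← h3, h]
    refine Finset.sum_congr rfl fun i _ => ?_
    rw [← Complex.normSq_eq_conj_mul_self, Complex.normSq_eq_norm_sq]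
    push_cast; rfl
  exact_mod_cast h2

theorem integral_cauchy {p q : ℝ} (hp : 0 ≤ p) (hq : 0 ≤ q) :
    IntegrableOn (fun r : ℝ => (p * Real.exp (-(p * r))) * (q * Real.exp (-(q * r)))) (Ioi 0) ∧
    ∫ r in Ioi (0:ℝ), (p * Real.exp (-(p * r))) * (q * Real.exp (-(q * r))) = p * q / (p + q) := by
  rcases hp.eq_or_lt with rfl | hp'
  · simp
  rcases hq.eq_or_lt with rfl | hq'
  · simp
  have hneg : -(p + q) < 0 := by linarith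
  have heq : (fun r : ℝ => (p * Real.exp (-(p * r))) * (q * Real.exp (-(q * r)))) =
      fun r => (p * q) * Real.exp (-(p+q) * r) := by
    funext r
    have : Real.exp (-(p+q) * r) = Real.exp (-(p * r)) * Real.exp (-(q * r)) := by
      rw [← Real.exp_add]; congr 1; ring
    rw [this]; ring
  rw [heq]
  constructor
  · exact (integrableOn_exp_mul_Ioi hneg 0).const_mul _
  · rw [integral_const_mul, integral_exp_mul_Ioi hneg 0]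
    have h0 : -(p + q) ≠ 0 := by linarith
    have h1 : p + q ≠ 0 := by linarith
    rw [mul_zero, Real.exp_zero]
    field_simp

/-- The pointwise bound under the integral. -/
theorem weight_bound {ι κ : Type*} [Fintype ι] [Fintype κ] {e f : ι → H} {g : κ → H}
    (he : Orthonormal ℂ e) (hf : Orthonormal ℂ f) (ν : κ → ℝ) (D : H →ₗ[ℂ] H)
    (hD : ∀ v, D v = ∑ k, ((ν k : ℂ) * ⟪g k, v⟫_ℂ) • g k)
    (s : H →L[ℂ] H) (hs : ∀ v, ‖s v‖ ≤ ‖v‖) (x y : ι → ℝ) :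
    ‖∑ i, ∑ j, ((x i * y j : ℝ) : ℂ) * (⟪e i, D (f j)⟫_ℂ * ⟪f j, s (e i)⟫_ℂ)‖ ≤
      (1/2) * ∑ k, |ν k| * (∑ i, (x i) ^ 2 * ‖⟪e i, g k⟫_ℂ‖ ^ 2
        + ∑ j, (y j) ^ 2 * ‖⟪f j, g k⟫_ℂ‖ ^ 2) := by
  classical
  set α : κ → H := fun k => ∑ i, ((x i : ℂ) * ⟪e i, g k⟫_ℂ) • e i with hα
  set β : κ → H := fun k => ∑ j, ((y j : ℂ) * ⟪f j, g k⟫_ℂ) • f j with hβ
  have hαn : ∀ k, ‖α k‖ ^ 2 = ∑ i, (x i) ^ 2 * ‖⟪e i, g k⟫_ℂ‖ ^ 2 := by
    intro k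
    rw [hα]; simp only
    rw [norm_sq_sum_orthonormal he]
    refine Finset.sum_congr rfl fun i _ => ?_
    rw [norm_mul, mul_pow]; simp
  have hβn : ∀ k, ‖β k‖ ^ 2 = ∑ i, (y i) ^ 2 * ‖⟪f i, g k⟫_ℂ‖ ^ 2 := by
    intro k
    rw [hβ]; simp only
    rw [norm_sq_sum_orthonormal hf]
    refine Finset.sum_congr rfl fun i _ => ?_
    rw [norm_mul, mul_pow]; simp
  have key : ∑ i, ∑ j, ((x i * y j : ℝ) : ℂ) * (⟪e i, D (f j)⟫_ℂ * ⟪f j, s (e i)⟫_ℂ) =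
      ∑ k, (ν k : ℂ) * ⟪β k, s (α k)⟫_ℂ := by
    have h1 : ∀ k, ⟪β k, s (α k)⟫_ℂ = ∑ i, ∑ j, ((x i * y j : ℝ) : ℂ) *
        (⟪e i, g k⟫_ℂ * ⟪g k, f j⟫_ℂ * ⟪f j, s (e i)⟫_ℂ) := by
      intro k
      rw [hα, hβ]; simp only
      rw [map_sum, sum_inner, Finset.sum_comm]
      simp_rw [inner_sum]
      refine Finset.sum_congr rfl fun i _ => Finset.sum_congr rfl fun j _ => ?_
      rw [map_smul, inner_smul_left, inner_smul_right, map_mul, inner_conj_symm]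
      push_cast
      rw [Complex.conj_ofReal]
      ring
    simp_rw [h1, Finset.mul_sum]
    rw [Finset.sum_comm]
    conv_rhs => rw [Finset.sum_comm]
    rw [Finset.sum_comm]
    refine Finset.sum_congr rfl fun i _ => ?_
    conv_rhs => rw [Finset.sum_comm]
    refine Finset.sum_congr rfl fun j _ => ?_
    rw [hD, inner_sum, Finset.sum_mul, Finset.mul_sum]
    refine Finset.sum_congr rfl fun k _ => ?_
    rw [inner_smul_right]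
    ring
  rw [key, Finset.mul_sum]
  refine (norm_sum_le _ _).trans (Finset.sum_le_sum fun k _ => ?_)
  rw [norm_mul, Complex.norm_real, Real.norm_eq_abs, ← hαn, ← hβn]
  have h1 : ‖⟪β k, s (α k)⟫_ℂ‖ ≤ ‖β k‖ * ‖α k‖ :=
    (norm_inner_le_norm _ _).trans (mul_le_mul_of_nonneg_left (hs _) (norm_nonneg _))
  have h2 : ‖β k‖ * ‖α k‖ ≤ (1/2) * (‖α k‖ ^ 2 + ‖β k‖ ^ 2) := by
    nlinarith [sq_nonneg (‖α k‖ - ‖β k‖)]
  calc |ν k| * ‖⟪β k, s (α k)⟫_ℂ‖ ≤ |ν k| * ((1/2) * (‖α k‖ ^ 2 + ‖β k‖ ^ 2)) :=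
        mul_le_mul_of_nonneg_left (h1.trans h2) (abs_nonneg _)
    _ = _ := by ring

theorem integrated_bound {ι κ : Type*} [Fintype ι] [Fintype κ] {e f : ι → H} {g : κ → H}
    (he : Orthonormal ℂ e) (hf : Orthonormal ℂ f) (ν : κ → ℝ) (D : H →ₗ[ℂ] H)
    (hD : ∀ v, D v = ∑ k, ((ν k : ℂ) * ⟪g k, v⟫_ℂ) • g k)
    (s : H →L[ℂ] H) (hs : ∀ v, ‖s v‖ ≤ ‖v‖) (p q : ι → ℝ) (hp : ∀ i, 0 ≤ p i)
    (hq : ∀ i, 0 ≤ q i) :
    ‖∑ i, ∑ j, ((p i * q j / (p i + q j) : ℝ) : ℂ) *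
        (⟪e i, D (f j)⟫_ℂ * ⟪f j, s (e i)⟫_ℂ)‖ ≤
      (1/4) * ∑ k, |ν k| * (∑ i, p i * ‖⟪e i, g k⟫_ℂ‖ ^ 2
        + ∑ j, q j * ‖⟪f j, g k⟫_ℂ‖ ^ 2) := by
  classical
  set x : ι → ℝ → ℝ := fun i r => p i * Real.exp (-(p i * r)) with hx
  set y : ι → ℝ → ℝ := fun i r => q i * Real.exp (-(q i * r)) with hy
  set c : ι → ι → ℂ := fun i j => ⟪e i, D (f j)⟫_ℂ * ⟪f j, s (e i)⟫_ℂ with hc
  have hint : ∀ i j, Integrable (fun r : ℝ => ((x i r * y j r : ℝ) : ℂ) * c i j)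
      (volume.restrict (Ioi 0)) := by
    intro i j
    exact ((integral_cauchy (hp i) (hq j)).1.ofReal).mul_const _
  have hval : ∀ i j, ∫ r in Ioi (0:ℝ), ((x i r * y j r : ℝ) : ℂ) * c i j =
      ((p i * q j / (p i + q j) : ℝ) : ℂ) * c i j := by
    intro i j
    rw [integral_mul_const, integral_complex_ofReal, (integral_cauchy (hp i) (hq j)).2]
  have hsum : ∑ i, ∑ j, ((p i * q j / (p i + q j) : ℝ) : ℂ) * c i j =
      ∫ r in Ioi (0:ℝ), ∑ i, ∑ j, ((x i r * y j r : ℝ) : ℂ) * c i j := by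
    rw [integral_finsetSum _ (fun i _ => integrable_finsetSum _ (fun j _ => hint i j))]
    refine Finset.sum_congr rfl fun i _ => ?_
    rw [integral_finsetSum _ (fun j _ => hint i j)]
    refine Finset.sum_congr rfl fun j _ => ?_
    rw [hval]
  set B : ℝ → ℝ := fun r => (1/2) * ∑ k, |ν k| * (∑ i, (x i r) ^ 2 * ‖⟪e i, g k⟫_ℂ‖ ^ 2
        + ∑ j, (y j r) ^ 2 * ‖⟪f j, g k⟫_ℂ‖ ^ 2) with hB
  have hx2 : ∀ i, Integrable (fun r => (x i r) ^ 2) (volume.restrict (Ioi 0)) := by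
    intro i
    have := (integral_cauchy (hp i) (hp i)).1
    refine this.congr (Filter.Eventually.of_forall fun r => ?_)
    simp only [hx]; ring
  have hy2 : ∀ i, Integrable (fun r => (y i r) ^ 2) (volume.restrict (Ioi 0)) := by
    intro i
    have := (integral_cauchy (hq i) (hq i)).1
    refine this.congr (Filter.Eventually.of_forall fun r => ?_)
    simp only [hy]; ring
  have half : ∀ t : ℝ, t * t / (t + t) = t / 2 := by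
    intro t
    rcases eq_or_ne t 0 with rfl | ht
    · simp
    · field_simp; ring
  have hx2v : ∀ i, ∫ r in Ioi (0:ℝ), (x i r) ^ 2 = p i / 2 := by
    intro i
    rw [← half, ← (integral_cauchy (hp i) (hp i)).2]
    refine integral_congr_ae (Filter.Eventually.of_forall fun r => ?_)
    simp only [hx]; ring
  have hy2v : ∀ i, ∫ r in Ioi (0:ℝ), (y i r) ^ 2 = q i / 2 := by
    intro i
    rw [← half, ← (integral_cauchy (hq i) (hq i)).2]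
    refine integral_congr_ae (Filter.Eventually.of_forall fun r => ?_)
    simp only [hy]; ring
  have hBk : ∀ k, Integrable (fun r => |ν k| * (∑ i, (x i r) ^ 2 * ‖⟪e i, g k⟫_ℂ‖ ^ 2
        + ∑ j, (y j r) ^ 2 * ‖⟪f j, g k⟫_ℂ‖ ^ 2)) (volume.restrict (Ioi 0)) := by
    intro k
    refine Integrable.const_mul (Integrable.add ?_ ?_) _
    · exact integrable_finsetSum _ fun i _ => (hx2 i).mul_const _
    · exact integrable_finsetSum _ fun i _ => (hy2 i).mul_const _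
  have hBi : Integrable B (volume.restrict (Ioi 0)) :=
    (integrable_finsetSum _ fun k _ => hBk k).const_mul _
  have hBv : ∫ r in Ioi (0:ℝ), B r = (1/4) * ∑ k, |ν k| * (∑ i, p i * ‖⟪e i, g k⟫_ℂ‖ ^ 2
        + ∑ j, q j * ‖⟪f j, g k⟫_ℂ‖ ^ 2) := by
    rw [hB, integral_const_mul, integral_finsetSum _ (fun k _ => hBk k)]
    have : ∀ k, ∫ r in Ioi (0:ℝ), |ν k| * (∑ i, (x i r) ^ 2 * ‖⟪e i, g k⟫_ℂ‖ ^ 2
        + ∑ j, (y j r) ^ 2 * ‖⟪f j, g k⟫_ℂ‖ ^ 2) = (1/2) * (|ν k| *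
          (∑ i, p i * ‖⟪e i, g k⟫_ℂ‖ ^ 2 + ∑ j, q j * ‖⟪f j, g k⟫_ℂ‖ ^ 2)) := by
      intro k
      rw [integral_const_mul, integral_add
        (integrable_finsetSum _ fun i _ => (hx2 i).mul_const _)
        (integrable_finsetSum _ fun i _ => (hy2 i).mul_const _),
        integral_finsetSum _ (fun i _ => (hx2 i).mul_const _),
        integral_finsetSum _ (fun i _ => (hy2 i).mul_const _)]
      simp_rw [integral_mul_const, hx2v, hy2v]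
      have h1 : ∑ i, p i / 2 * ‖⟪e i, g k⟫_ℂ‖ ^ 2 = (1/2) * ∑ i, p i * ‖⟪e i, g k⟫_ℂ‖ ^ 2 := by
        rw [Finset.mul_sum]; exact Finset.sum_congr rfl fun i _ => by ring
      have h2 : ∑ i, q i / 2 * ‖⟪f i, g k⟫_ℂ‖ ^ 2 = (1/2) * ∑ i, q i * ‖⟪f i, g k⟫_ℂ‖ ^ 2 := by
        rw [Finset.mul_sum]; exact Finset.sum_congr rfl fun i _ => by ring
      rw [h1, h2]; ring
    simp_rw [this]
    rw [← Finset.mul_sum]; ring
  rw [hsum, ← hBv]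
  refine norm_integral_le_of_norm_le hBi (Filter.Eventually.of_forall fun r => ?_)
  exact weight_bound he hf ν D hD s hs (fun i => x i r) (fun i => y i r)

theorem cauchy_split (l m : ℝ) : l * |m| - |l| * m =
    2 * ((max l 0 * max (-m) 0 / (max l 0 + max (-m) 0)) +
      (max (-l) 0 * max m 0 / (max (-l) 0 + max m 0))) * (l - m) := by
  rcases lt_trichotomy l 0 with hl | hl | hl <;> rcases lt_trichotomy m 0 with hm | hm | hm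
  · rw [abs_of_neg hl, abs_of_neg hm, max_eq_right hl.le, max_eq_right hm.le]; simp
  · subst hm; rw [abs_of_neg hl, max_eq_right hl.le]; simp
  · rw [abs_of_neg hl, abs_of_pos hm, max_eq_right hl.le, max_eq_left hm.le,
      max_eq_left (by linarith : (0:ℝ) ≤ -l), max_eq_right (by linarith : -m ≤ 0)]
    have : -l + m ≠ 0 := by linarith
    field_simp
    ring
  · subst hl; simp [abs_of_neg hm, max_eq_right hm.le]
  · subst hl; subst hm; simp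
  · subst hl; simp
  · rw [abs_of_pos hl, abs_of_neg hm, max_eq_left hl.le, max_eq_right hm.le,
      max_eq_right (by linarith : -l ≤ 0), max_eq_left (by linarith : (0:ℝ) ≤ -m)]
    have : l + -m ≠ 0 := by linarith
    field_simp
    ring
  · subst hm; simp
  · rw [abs_of_pos hl, abs_of_pos hm, max_eq_right (by linarith : -l ≤ 0),
      max_eq_right (by linarith : -m ≤ 0)]; simp

theorem max_add_max_neg (l : ℝ) : max l 0 + max (-l) 0 = |l| := by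
  rcases le_total l 0 with h | h
  · rw [abs_of_nonpos h, max_eq_right h, max_eq_left (by linarith)]; ring
  · rw [abs_of_nonneg h, max_eq_left h, max_eq_right (by linarith)]; ring

/-- Scale-free Hoelder estimate for the Mazur map `a|a| ↦ a` from trace class to
Hilbert-Schmidt operators, for two unitarily equivalent finite rank self-adjoint operators. -/
theorem mazur {ι : Type*} [Fintype ι] {e f : ι → H} (he : Orthonormal ℂ e)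
    (hf : Orthonormal ℂ f) (lam : ι → ℝ) (ε : ℝ)
    (hε : ∀ S : H →L[ℂ] H, (∀ v, ‖S v‖ ≤ ‖v‖) →
      ‖∑ j, ((lam j * |lam j| : ℝ) : ℂ) * (⟪e j, S (e j)⟫_ℂ - ⟪f j, S (f j)⟫_ℂ)‖ ≤ ε) :
    ∑ j, (lam j) ^ 2 - ∑ i, ∑ j, |lam i| * |lam j| * ‖⟪e i, f j⟫_ℂ‖ ^ 2 ≤ ε := by
  classical
  set D0 : H →L[ℂ] H := ∑ j, (lam j : ℂ) • (InnerProductSpace.rankOne ℂ (e j) (e j) -
    InnerProductSpace.rankOne ℂ (f j) (f j)) with hD0
  have hD0v : ∀ v, D0 v = ∑ j, (lam j : ℂ) • (⟪e j, v⟫_ℂ • e j - ⟪f j, v⟫_ℂ • f j) := by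
    intro v
    simp [hD0]
  set D : H →ₗ[ℂ] H := D0.toLinearMap with hD
  have hDv : ∀ v, D v = ∑ j, (lam j : ℂ) • (⟪e j, v⟫_ℂ • e j - ⟪f j, v⟫_ℂ • f j) := hD0v
  have hsym : ∀ x y, ⟪D x, y⟫_ℂ = ⟪x, D y⟫_ℂ := by
    intro x y
    rw [hDv, hDv, sum_inner, inner_sum]
    refine Finset.sum_congr rfl fun j _ => ?_
    simp only [inner_smul_left, inner_smul_right, inner_sub_left, inner_sub_right,
      Complex.conj_ofReal, inner_conj_symm]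
    ring
  set W : Submodule ℂ H := Submodule.span ℂ (Set.range e ∪ Set.range f) with hWdef
  have hfd : FiniteDimensional ℂ W :=
    FiniteDimensional.span_of_finite ℂ ((Set.finite_range e).union (Set.finite_range f))
  have heW : ∀ j, e j ∈ W := fun j => Submodule.subset_span (Or.inl ⟨j, rfl⟩)
  have hfW : ∀ j, f j ∈ W := fun j => Submodule.subset_span (Or.inr ⟨j, rfl⟩)
  have hDW : ∀ x, D x ∈ W := by
    intro x
    rw [hDv]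
    refine W.sum_mem fun j _ => W.smul_mem _ (W.sub_mem (W.smul_mem _ (heW j))
      (W.smul_mem _ (hfW j)))
  obtain ⟨m, g, ν, hg, hgW, hgexp, hgeig, hgD⟩ := exists_spectral D hsym W hDW
  -- the sign operator
  set sg : Fin m → ℝ := fun k => SignType.sign (ν k) with hsg
  have hsgν : ∀ k, sg k * ν k = |ν k| := by
    intro k
    simp only [hsg]
    rw [mul_comm]; exact self_mul_sign (ν k)
  have hsg1 : ∀ k, |sg k| ≤ 1 := by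
    intro k
    simp only [hsg]
    rcases lt_trichotomy (ν k) 0 with h | h | h
    · simp [sign_neg h]
    · simp [h]
    · simp [sign_pos h]
  set s : H →L[ℂ] H := ∑ k, (sg k : ℂ) • InnerProductSpace.rankOne ℂ (g k) (g k) with hs
  have hsv : ∀ v, s v = ∑ k, ((sg k : ℂ) * ⟪g k, v⟫_ℂ) • g k := by
    intro v
    rw [hs]
    simp
    refine Finset.sum_congr rfl fun k _ => ?_
    rw [← smul_smul]
    simp
  have hs1 : ∀ v, ‖s v‖ ≤ ‖v‖ := by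
    intro v
    rw [← sq_le_sq₀ (norm_nonneg _) (norm_nonneg _), hsv, norm_sq_sum_orthonormal hg]
    calc ∑ k, ‖(sg k : ℂ) * ⟪g k, v⟫_ℂ‖ ^ 2 ≤ ∑ k, ‖⟪g k, v⟫_ℂ‖ ^ 2 := by
          refine Finset.sum_le_sum fun k _ => ?_
          rw [norm_mul, mul_pow]
          have : ‖(sg k : ℂ)‖ ^ 2 ≤ 1 := by
            rw [Complex.norm_real, Real.norm_eq_abs]
            exact pow_le_one₀ (abs_nonneg _) (hsg1 k)
          calc _ ≤ 1 * ‖⟪g k, v⟫_ℂ‖ ^ 2 :=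
                mul_le_mul_of_nonneg_right this (by positivity)
            _ = _ := one_mul _
      _ ≤ ‖v‖ ^ 2 := hg.sum_inner_products_le v
  -- coefficient identities
  have hee : ∀ i j, ⟪e i, e j⟫_ℂ = if i = j then 1 else 0 := fun i j =>
    orthonormal_iff_ite.mp he i j
  have hff : ∀ i j, ⟪f i, f j⟫_ℂ = if i = j then 1 else 0 := fun i j =>
    orthonormal_iff_ite.mp hf i j
  have I0 : ∀ (i : ι) (v : H), ⟪e i, D v⟫_ℂ = (lam i : ℂ) * ⟪e i, v⟫_ℂ -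
      ∑ j, (lam j : ℂ) * (⟪e i, f j⟫_ℂ * ⟪f j, v⟫_ℂ) := by
    intro i v
    rw [hDv, inner_sum]
    simp only [inner_smul_right, inner_sub_right, hee]
    simp only [mul_sub, Finset.sum_sub_distrib]
    congr 1
    · simp
    · exact Finset.sum_congr rfl fun j _ => by ring
  have J0 : ∀ (i : ι) (v : H), ⟪f i, D v⟫_ℂ =
      ∑ j, (lam j : ℂ) * (⟪f i, e j⟫_ℂ * ⟪e j, v⟫_ℂ) - (lam i : ℂ) * ⟪f i, v⟫_ℂ := by
    intro i v
    rw [hDv, inner_sum]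
    simp only [inner_smul_right, inner_sub_right, hff]
    simp only [mul_sub, Finset.sum_sub_distrib]
    congr 1
    · exact Finset.sum_congr rfl fun j _ => by ring
    · simp
  have I1 : ∀ i k, (ν k : ℂ) * ⟪e i, g k⟫_ℂ = (lam i : ℂ) * ⟪e i, g k⟫_ℂ -
      ∑ j, (lam j : ℂ) * (⟪e i, f j⟫_ℂ * ⟪f j, g k⟫_ℂ) := by
    intro i k
    rw [← I0, hgeig, inner_smul_right]
  have J1 : ∀ i k, (ν k : ℂ) * ⟪f i, g k⟫_ℂ =
      ∑ j, (lam j : ℂ) * (⟪f i, e j⟫_ℂ * ⟪e j, g k⟫_ℂ) - (lam i : ℂ) * ⟪f i, g k⟫_ℂ := by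
    intro i k
    rw [← J0, hgeig, inner_smul_right]
  -- S entries
  have hS : ∀ x y : H, ⟪y, s x⟫_ℂ = ∑ k, (sg k : ℂ) * (⟪g k, x⟫_ℂ * ⟪y, g k⟫_ℂ) := by
    intro x y
    rw [hsv, inner_sum]
    refine Finset.sum_congr rfl fun k _ => ?_
    rw [inner_smul_right]; ring
  set Q : ℝ := ∑ k, |ν k| * (∑ i, |lam i| * ‖⟪e i, g k⟫_ℂ‖ ^ 2
        + ∑ i, |lam i| * ‖⟪f i, g k⟫_ℂ‖ ^ 2) with hQ
  set A : ℂ := ∑ j, ((lam j * |lam j| : ℝ) : ℂ) * (⟪e j, s (e j)⟫_ℂ - ⟪f j, s (f j)⟫_ℂ) with hA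
  have hAε : ‖A‖ ≤ ε := hε s hs1
  have nsq : ∀ z : ℂ, ((‖z‖ ^ 2 : ℝ) : ℂ) = z * (starRingEnd ℂ) z := by
    intro z
    rw [Complex.mul_conj, Complex.normSq_eq_norm_sq]
  have QE : ((∑ k, |ν k| * ∑ i, |lam i| * ‖⟪e i, g k⟫_ℂ‖ ^ 2 : ℝ) : ℂ) =
      ∑ i, ((lam i * |lam i| : ℝ) : ℂ) * ⟪e i, s (e i)⟫_ℂ -
        ∑ i, ∑ j, ((|lam i| * lam j : ℝ) : ℂ) * (⟪e i, f j⟫_ℂ * ⟪f j, s (e i)⟫_ℂ) := by
    simp_rw [hS]
    push_cast
    simp_rw [Finset.mul_sum]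
    rw [Finset.sum_comm, ← Finset.sum_sub_distrib]
    refine Finset.sum_congr rfl fun i _ => ?_
    rw [Finset.sum_comm, ← Finset.sum_sub_distrib]
    refine Finset.sum_congr rfl fun k _ => ?_
    have h1 : ((‖⟪e i, g k⟫_ℂ‖ : ℂ)) ^ 2 = ⟪e i, g k⟫_ℂ * ⟪g k, e i⟫_ℂ := by
      rw [← Complex.ofReal_pow, nsq, inner_conj_symm]
    have h2 : ((|ν k| : ℝ) : ℂ) = (sg k : ℂ) * (ν k : ℂ) := by
      rw [← hsgν]; push_cast; rfl
    rw [h1, h2]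
    have h3 := I1 i k
    have h4 : (sg k : ℂ) * (ν k : ℂ) * (((|lam i| : ℝ) : ℂ) * (⟪e i, g k⟫_ℂ * ⟪g k, e i⟫_ℂ)) =
        (sg k : ℂ) * ((|lam i| : ℝ) : ℂ) * ⟪g k, e i⟫_ℂ * ((ν k : ℂ) * ⟪e i, g k⟫_ℂ) := by ring
    rw [h4, h3, mul_sub, Finset.mul_sum]
    congr 1
    · ring
    · exact Finset.sum_congr rfl fun j _ => by ring
  have QF : ((∑ k, |ν k| * ∑ i, |lam i| * ‖⟪f i, g k⟫_ℂ‖ ^ 2 : ℝ) : ℂ) =
      ∑ i, ∑ j, ((lam i * |lam j| : ℝ) : ℂ) * (⟪e i, f j⟫_ℂ * ⟪f j, s (e i)⟫_ℂ) -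
      ∑ i, ((lam i * |lam i| : ℝ) : ℂ) * ⟪f i, s (f i)⟫_ℂ := by
    simp_rw [hS]
    push_cast
    simp_rw [Finset.mul_sum]
    rw [Finset.sum_comm]
    conv_rhs => rw [Finset.sum_comm]
    rw [← Finset.sum_sub_distrib]
    refine Finset.sum_congr rfl fun j _ => ?_
    rw [Finset.sum_comm, ← Finset.sum_sub_distrib]
    refine Finset.sum_congr rfl fun k _ => ?_
    have h1 : ((‖⟪f j, g k⟫_ℂ‖ : ℂ)) ^ 2 = ⟪f j, g k⟫_ℂ * ⟪g k, f j⟫_ℂ := by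
      rw [← Complex.ofReal_pow, nsq, inner_conj_symm]
    have h2 : ((|ν k| : ℝ) : ℂ) = (sg k : ℂ) * (ν k : ℂ) := by
      rw [← hsgν]; push_cast; rfl
    rw [h1, h2]
    have h3 := congrArg (starRingEnd ℂ) (J1 j k)
    simp only [map_mul, map_sub, map_sum, Complex.conj_ofReal, inner_conj_symm] at h3
    have h4 : (sg k : ℂ) * (ν k : ℂ) * (((|lam j| : ℝ) : ℂ) * (⟪f j, g k⟫_ℂ * ⟪g k, f j⟫_ℂ)) =
        (sg k : ℂ) * ((|lam j| : ℝ) : ℂ) * ⟪f j, g k⟫_ℂ * ((ν k : ℂ) * ⟪g k, f j⟫_ℂ) := by ring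
    rw [h4, h3, mul_sub, Finset.mul_sum]
    congr 1
    · exact Finset.sum_congr rfl fun j _ => by ring
    · ring
  have hQA : (Q : ℂ) = A + ∑ i, ∑ j, ((lam i * |lam j| - |lam i| * lam j : ℝ) : ℂ) *
      (⟪e i, f j⟫_ℂ * ⟪f j, s (e i)⟫_ℂ) := by
    have h0 : (Q : ℂ) = ((∑ k, |ν k| * ∑ i, |lam i| * ‖⟪e i, g k⟫_ℂ‖ ^ 2 : ℝ) : ℂ) +
        ((∑ k, |ν k| * ∑ i, |lam i| * ‖⟪f i, g k⟫_ℂ‖ ^ 2 : ℝ) : ℂ) := by
      rw [← Complex.ofReal_add, hQ, ← Finset.sum_add_distrib]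
      congr 1
      exact Finset.sum_congr rfl fun k _ => by ring
    rw [h0, QE, QF, hA]
    have h1 : ∀ i j, ((lam i * |lam j| - |lam i| * lam j : ℝ) : ℂ) *
        (⟪e i, f j⟫_ℂ * ⟪f j, s (e i)⟫_ℂ) =
        ((lam i * |lam j| : ℝ) : ℂ) * (⟪e i, f j⟫_ℂ * ⟪f j, s (e i)⟫_ℂ) -
        ((|lam i| * lam j : ℝ) : ℂ) * (⟪e i, f j⟫_ℂ * ⟪f j, s (e i)⟫_ℂ) := by
      intro i j; push_cast; ring
    simp_rw [h1, Finset.sum_sub_distrib, mul_sub, Finset.sum_sub_distrib]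
    ring
  have hDef : ∀ i j, ⟪e i, D (f j)⟫_ℂ = ((lam i - lam j : ℝ) : ℂ) * ⟪e i, f j⟫_ℂ := by
    intro i j
    rw [I0]
    simp only [hff]
    simp
    ring
  set p : ι → ℝ := fun i => max (lam i) 0 with hp
  set q : ι → ℝ := fun i => max (-lam i) 0 with hq
  have hp0 : ∀ i, 0 ≤ p i := fun i => le_max_right _ _
  have hq0 : ∀ i, 0 ≤ q i := fun i => le_max_right _ _
  have hpq : ∀ i, p i + q i = |lam i| := fun i => max_add_max_neg _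
  have hrem : ∑ i, ∑ j, ((lam i * |lam j| - |lam i| * lam j : ℝ) : ℂ) *
      (⟪e i, f j⟫_ℂ * ⟪f j, s (e i)⟫_ℂ) =
      2 * (∑ i, ∑ j, ((p i * q j / (p i + q j) : ℝ) : ℂ) *
        (⟪e i, D (f j)⟫_ℂ * ⟪f j, s (e i)⟫_ℂ) +
        ∑ i, ∑ j, ((q i * p j / (q i + p j) : ℝ) : ℂ) *
        (⟪e i, D (f j)⟫_ℂ * ⟪f j, s (e i)⟫_ℂ)) := by
    rw [← Finset.sum_add_distrib, Finset.mul_sum]
    refine Finset.sum_congr rfl fun i _ => ?_
    rw [← Finset.sum_add_distrib, Finset.mul_sum]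
    refine Finset.sum_congr rfl fun j _ => ?_
    rw [cauchy_split, hDef]
    simp only [hp, hq]
    push_cast
    ring
  have hb1 := integrated_bound he hf ν D hgD s hs1 p q hp0 hq0
  have hb2 := integrated_bound he hf ν D hgD s hs1 q p hq0 hp0
  have hQle : Q ≤ 2 * ε := by
    have h1 : ‖(Q : ℂ)‖ ≤ ‖A‖ + 2 * ((1/4) * ∑ k, |ν k| * (∑ i, p i * ‖⟪e i, g k⟫_ℂ‖ ^ 2
        + ∑ j, q j * ‖⟪f j, g k⟫_ℂ‖ ^ 2) + (1/4) * ∑ k, |ν k| * (∑ i, q i * ‖⟪e i, g k⟫_ℂ‖ ^ 2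
        + ∑ j, p j * ‖⟪f j, g k⟫_ℂ‖ ^ 2)) := by
      rw [hQA, hrem]
      refine (norm_add_le _ _).trans (add_le_add le_rfl ?_)
      rw [norm_mul]
      have : ‖(2:ℂ)‖ = 2 := by simp
      rw [this]
      refine mul_le_mul_of_nonneg_left ((norm_add_le _ _).trans (add_le_add hb1 hb2)) (by norm_num)
    have h2 : ∑ k, |ν k| * (∑ i, p i * ‖⟪e i, g k⟫_ℂ‖ ^ 2
        + ∑ j, q j * ‖⟪f j, g k⟫_ℂ‖ ^ 2) + ∑ k, |ν k| * (∑ i, q i * ‖⟪e i, g k⟫_ℂ‖ ^ 2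
        + ∑ j, p j * ‖⟪f j, g k⟫_ℂ‖ ^ 2) = Q := by
      rw [hQ, ← Finset.sum_add_distrib]
      refine Finset.sum_congr rfl fun k _ => ?_
      rw [← mul_add]
      congr 1
      have e1 : ∑ i, |lam i| * ‖⟪e i, g k⟫_ℂ‖ ^ 2 = ∑ i, p i * ‖⟪e i, g k⟫_ℂ‖ ^ 2 +
          ∑ i, q i * ‖⟪e i, g k⟫_ℂ‖ ^ 2 := by
        rw [← Finset.sum_add_distrib]
        exact Finset.sum_congr rfl fun i _ => by rw [← hpq]; ring
      have e2 : ∑ i, |lam i| * ‖⟪f i, g k⟫_ℂ‖ ^ 2 = ∑ i, p i * ‖⟪f i, g k⟫_ℂ‖ ^ 2 +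
          ∑ i, q i * ‖⟪f i, g k⟫_ℂ‖ ^ 2 := by
        rw [← Finset.sum_add_distrib]
        exact Finset.sum_congr rfl fun i _ => by rw [← hpq]; ring
      rw [e1, e2]; ring
    have h3 : Q ≤ ‖(Q:ℂ)‖ := by
      rw [Complex.norm_real]; exact le_abs_self _
    nlinarith [h1, h2, h3, hAε]
  -- trace of D^2
  have hνk : ∀ k, ν k = ∑ i, lam i * (‖⟪e i, g k⟫_ℂ‖ ^ 2 - ‖⟪f i, g k⟫_ℂ‖ ^ 2) := by
    intro k
    have h1 : ⟪g k, D (g k)⟫_ℂ = (ν k : ℂ) := by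
      rw [hgeig, inner_smul_right, inner_self_eq_norm_sq_to_K, hg.1 k]; simp
    have h2 : ⟪g k, D (g k)⟫_ℂ =
        ((∑ i, lam i * (‖⟪e i, g k⟫_ℂ‖ ^ 2 - ‖⟪f i, g k⟫_ℂ‖ ^ 2) : ℝ) : ℂ) := by
      rw [hDv, inner_sum]
      push_cast
      refine Finset.sum_congr rfl fun i _ => ?_
      rw [inner_smul_right, inner_sub_right, inner_smul_right, inner_smul_right]
      have a1 : ((‖⟪e i, g k⟫_ℂ‖ : ℂ)) ^ 2 = ⟪e i, g k⟫_ℂ * ⟪g k, e i⟫_ℂ := by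
        rw [← Complex.ofReal_pow, nsq, inner_conj_symm]
      have a2 : ((‖⟪f i, g k⟫_ℂ‖ : ℂ)) ^ 2 = ⟪f i, g k⟫_ℂ * ⟪g k, f i⟫_ℂ := by
        rw [← Complex.ofReal_pow, nsq, inner_conj_symm]
      rw [a1, a2]
    have h3 : (ν k : ℂ) = ((∑ i, lam i * (‖⟪e i, g k⟫_ℂ‖ ^ 2 - ‖⟪f i, g k⟫_ℂ‖ ^ 2) : ℝ) : ℂ) := by
      rw [← h1, h2]
    exact_mod_cast h3
  have hν2Q : ∑ k, ν k ^ 2 ≤ Q := by
    rw [hQ]
    refine Finset.sum_le_sum fun k _ => ?_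
    have h1 : |ν k| ≤ ∑ i, |lam i| * ‖⟪e i, g k⟫_ℂ‖ ^ 2 + ∑ i, |lam i| * ‖⟪f i, g k⟫_ℂ‖ ^ 2 := by
      conv_lhs => rw [hνk k]
      rw [← Finset.sum_add_distrib]
      refine (Finset.abs_sum_le_sum_abs _ _).trans (Finset.sum_le_sum fun i _ => ?_)
      rw [abs_mul, ← mul_add]
      refine mul_le_mul_of_nonneg_left ?_ (abs_nonneg _)
      rw [abs_le]
      constructor <;> nlinarith [sq_nonneg ‖⟪e i, g k⟫_ℂ‖, sq_nonneg ‖⟪f i, g k⟫_ℂ‖]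
    calc ν k ^ 2 = |ν k| * |ν k| := by rw [← sq, sq_abs]
      _ ≤ _ := mul_le_mul_of_nonneg_left h1 (abs_nonneg _)
  have hquad : ∀ v : H, ((∑ k, ν k * ‖⟪v, g k⟫_ℂ‖ ^ 2 : ℝ) : ℂ) = ⟪v, D v⟫_ℂ := by
    intro v
    rw [hgD, inner_sum]
    push_cast
    refine Finset.sum_congr rfl fun k _ => ?_
    rw [inner_smul_right]
    have a1 : ((‖⟪v, g k⟫_ℂ‖ : ℂ)) ^ 2 = ⟪v, g k⟫_ℂ * ⟪g k, v⟫_ℂ := by
      rw [← Complex.ofReal_pow, nsq, inner_conj_symm]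
    rw [a1]; ring
  have hE : ∀ i, ∑ k, ν k * ‖⟪e i, g k⟫_ℂ‖ ^ 2 = lam i - ∑ j, lam j * ‖⟪e i, f j⟫_ℂ‖ ^ 2 := by
    intro i
    have h1 := hquad (e i)
    rw [I0, hee] at h1
    simp only [if_true] at h1
    have h2 : ∀ j, ⟪e i, f j⟫_ℂ * ⟪f j, e i⟫_ℂ = ((‖⟪e i, f j⟫_ℂ‖ ^ 2 : ℝ) : ℂ) := by
      intro j; rw [nsq, inner_conj_symm]
    simp_rw [h2] at h1
    have h3 : ((∑ k, ν k * ‖⟪e i, g k⟫_ℂ‖ ^ 2 : ℝ) : ℂ) =
        ((lam i - ∑ j, lam j * ‖⟪e i, f j⟫_ℂ‖ ^ 2 : ℝ) : ℂ) := by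
      rw [h1]; push_cast; ring
    exact_mod_cast h3
  have hF : ∀ j, ∑ k, ν k * ‖⟪f j, g k⟫_ℂ‖ ^ 2 = ∑ i, lam i * ‖⟪e i, f j⟫_ℂ‖ ^ 2 - lam j := by
    intro j
    have h1 := hquad (f j)
    rw [J0, hff] at h1
    simp only [if_true] at h1
    have h2 : ∀ i, ⟪f j, e i⟫_ℂ * ⟪e i, f j⟫_ℂ = ((‖⟪e i, f j⟫_ℂ‖ ^ 2 : ℝ) : ℂ) := by
      intro i; rw [nsq, inner_conj_symm]; ring
    simp_rw [h2] at h1
    have h3 : ((∑ k, ν k * ‖⟪f j, g k⟫_ℂ‖ ^ 2 : ℝ) : ℂ) =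
        ((∑ i, lam i * ‖⟪e i, f j⟫_ℂ‖ ^ 2 - lam j : ℝ) : ℂ) := by
      rw [h1]; push_cast; ring
    exact_mod_cast h3
  have hν2 : ∑ k, ν k ^ 2 = 2 * ∑ i, lam i ^ 2 -
      2 * ∑ i, ∑ j, lam i * lam j * ‖⟪e i, f j⟫_ℂ‖ ^ 2 := by
    have h1 : ∑ k, ν k ^ 2 = ∑ i, lam i * (∑ k, ν k * ‖⟪e i, g k⟫_ℂ‖ ^ 2) -
        ∑ i, lam i * (∑ k, ν k * ‖⟪f i, g k⟫_ℂ‖ ^ 2) := by
      have : ∀ k, ν k ^ 2 = ∑ i, (lam i * (ν k * ‖⟪e i, g k⟫_ℂ‖ ^ 2) -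
          lam i * (ν k * ‖⟪f i, g k⟫_ℂ‖ ^ 2)) := by
        intro k
        have := hνk k
        calc ν k ^ 2 = ν k * ν k := by ring
          _ = ν k * ∑ i, lam i * (‖⟪e i, g k⟫_ℂ‖ ^ 2 - ‖⟪f i, g k⟫_ℂ‖ ^ 2) := by
                rw [← this]
          _ = _ := by rw [Finset.mul_sum]; exact Finset.sum_congr rfl fun i _ => by ring
      simp_rw [this, Finset.sum_sub_distrib, Finset.mul_sum]
      rw [Finset.sum_comm]
      congr 1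
      rw [Finset.sum_comm]
    rw [h1]
    simp_rw [hE, hF]
    have h2 : ∑ i, lam i * (lam i - ∑ j, lam j * ‖⟪e i, f j⟫_ℂ‖ ^ 2) = ∑ i, lam i ^ 2 -
        ∑ i, ∑ j, lam i * lam j * ‖⟪e i, f j⟫_ℂ‖ ^ 2 := by
      rw [← Finset.sum_sub_distrib]
      refine Finset.sum_congr rfl fun i _ => ?_
      rw [mul_sub, Finset.mul_sum, sq]
      congr 1
      exact Finset.sum_congr rfl fun j _ => by ring
    have h3 : ∑ j, lam j * (∑ i, lam i * ‖⟪e i, f j⟫_ℂ‖ ^ 2 - lam j) =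
        ∑ i, ∑ j, lam i * lam j * ‖⟪e i, f j⟫_ℂ‖ ^ 2 - ∑ i, lam i ^ 2 := by
      rw [Finset.sum_comm, ← Finset.sum_sub_distrib]
      refine Finset.sum_congr rfl fun i _ => ?_
      rw [mul_sub, Finset.mul_sum, sq]
      congr 1
      exact Finset.sum_congr rfl fun j _ => by ring
    rw [h2, h3]; ring
  have hfin : ∑ i, ∑ j, lam i * lam j * ‖⟪e i, f j⟫_ℂ‖ ^ 2 ≤
      ∑ i, ∑ j, |lam i| * |lam j| * ‖⟪e i, f j⟫_ℂ‖ ^ 2 := by
    refine Finset.sum_le_sum fun i _ => Finset.sum_le_sum fun j _ => ?_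
    refine mul_le_mul_of_nonneg_right ?_ (by positivity)
    rw [← abs_mul]; exact le_abs_self _
  linarith [hQle, hν2Q, hν2, hfin]

end Pool.Agent.MP_86f3ed
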