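import Mathlib

open scoped InnerProductSpace Topology
open Filter ContinuousLinearMap

namespace Pool.Agent.MP_86f3ed

theorem exists_ultralimit {I : Type*} (𝒰 : Ultrafilter I) (g : I → ℂ) (M : ℝ)
    (hg : ∀ i, ‖g i‖ ≤ M) : ∃ z : ℂ, ‖z‖ ≤ M ∧ Tendsto g 𝒰 (𝓝 z) := by
  have hmem : ∀ᶠ i in (𝒰 : Filter I), g i ∈ Metric.closedBall (0 : ℂ) M :=
    Filter.Eventually.of_forall fun i => by rw [mem_closedBall_zero_iff]; exact hg i
  obtain ⟨z, hz, h⟩ := (isCompact_closedBall (0 : ℂ) M).ultrafilter_le_nhds (𝒰.map g) (by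
    rw [le_principal_iff]
    exact hmem)
  exact ⟨z, by rwa [mem_closedBall_zero_iff] at hz, h⟩

theorem exists_limit {K : Type*} [NormedAddCommGroup K] [InnerProductSpace ℂ K] [CompleteSpace K]
    {I : Type*} (𝒰 : Ultrafilter I) (E : I → (K →L[ℂ] K) →ₗ[ℂ] (K →L[ℂ] K))
    (hE : ∀ i S, ‖E i S‖ ≤ ‖S‖) :
    ∃ E' : (K →L[ℂ] K) →ₗ[ℂ] (K →L[ℂ] K), (∀ S, ‖E' S‖ ≤ ‖S‖) ∧
      ∀ S x y, Tendsto (fun i => ⟪x, E i S y⟫_ℂ) 𝒰 (𝓝 ⟪x, E' S y⟫_ℂ) := by
  have hex : ∀ (S : K →L[ℂ] K) (x y : K), ∃ z : ℂ, ‖z‖ ≤ ‖S‖ * ‖x‖ * ‖y‖ ∧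
      Tendsto (fun i => ⟪E i S x, y⟫_ℂ) 𝒰 (𝓝 z) := by
    intro S x y
    refine exists_ultralimit 𝒰 _ _ fun i => ?_
    refine (norm_inner_le_norm _ _).trans ?_
    refine mul_le_mul_of_nonneg_right ?_ (norm_nonneg _)
    exact (le_opNorm _ _).trans (mul_le_mul_of_nonneg_right (hE i S) (norm_nonneg _))
  choose L hLn hL using hex
  have uq : ∀ {S x y z}, Tendsto (fun i => ⟪E i S x, y⟫_ℂ) 𝒰 (𝓝 z) → L S x y = z :=
    fun h => tendsto_nhds_unique (hL _ _ _) h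
  have hadd1 : ∀ S x x' y, L S (x + x') y = L S x y + L S x' y := by
    intro S x x' y
    refine uq ?_
    simp only [map_add, inner_add_left]
    exact (hL S x y).add (hL S x' y)
  have hsmul1 : ∀ (c : ℂ) S x y, L S (c • x) y = (starRingEnd ℂ) c * L S x y := by
    intro c S x y
    refine uq ?_
    simp only [map_smul, inner_smul_left]
    exact (hL S x y).const_mul _
  have hadd2 : ∀ S x y y', L S x (y + y') = L S x y + L S x y' := by
    intro S x y y'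
    refine uq ?_
    simp only [inner_add_right]
    exact (hL S x y).add (hL S x y')
  have hsmul2 : ∀ (c : ℂ) S x y, L S x (c • y) = c * L S x y := by
    intro c S x y
    refine uq ?_
    simp only [inner_smul_right]
    exact (hL S x y).const_mul _
  have hadd3 : ∀ S S' x y, L (S + S') x y = L S x y + L S' x y := by
    intro S S' x y
    refine uq ?_
    simp only [map_add, add_apply, inner_add_left]
    exact (hL S x y).add (hL S' x y)
  have hsmul3 : ∀ (c : ℂ) S x y, L (c • S) x y = (starRingEnd ℂ) c * L S x y := by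
    intro c S x y
    refine uq ?_
    simp only [map_smul, smul_apply, inner_smul_left]
    exact (hL S x y).const_mul _
  have hex2 : ∀ S : K →L[ℂ] K, ∃ T : K →L[ℂ] K, ∀ x y, ⟪T x, y⟫_ℂ = L S x y := by
    intro S
    let B₀ : K →ₗ⋆[ℂ] K →ₗ[ℂ] ℂ := LinearMap.mk₂'ₛₗ (starRingEnd ℂ) (RingHom.id ℂ)
      (fun x y => L S x y) (hadd1 S) (fun c x y => hsmul1 c S x y) (hadd2 S)
      (fun c x y => hsmul2 c S x y)
    let B : K →L⋆[ℂ] K →L[ℂ] ℂ := LinearMap.mkContinuous₂ B₀ ‖S‖ (fun x y => hLn S x y)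
    refine ⟨InnerProductSpace.continuousLinearMapOfBilin B, fun x y => ?_⟩
    rw [InnerProductSpace.continuousLinearMapOfBilin_apply]
    rfl
  choose E₁ hE₁ using hex2
  refine ⟨{ toFun := E₁, map_add' := ?_, map_smul' := ?_ }, ?_, ?_⟩
  · intro S S'
    refine ContinuousLinearMap.ext fun x => ?_
    refine ext_inner_right ℂ fun y => ?_
    rw [hE₁, hadd3, add_apply, inner_add_left, hE₁, hE₁]
  · intro c S
    refine ContinuousLinearMap.ext fun x => ?_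
    refine ext_inner_right ℂ fun y => ?_
    rw [hE₁, hsmul3, RingHom.id_apply, smul_apply, inner_smul_left, hE₁]
  · intro S
    show ‖E₁ S‖ ≤ ‖S‖
    refine opNorm_le_bound _ (norm_nonneg _) fun x => ?_
    have h1 : ‖E₁ S x‖ ^ 2 ≤ ‖S‖ * ‖x‖ * ‖E₁ S x‖ := by
      have h2 := hLn S x (E₁ S x)
      rw [← hE₁, inner_self_eq_norm_sq_to_K] at h2
      simpa using h2
    rcases (norm_nonneg (E₁ S x)).eq_or_lt with h0 | h0
    · rw [← h0]; positivity
    · nlinarith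
  · intro S x y
    show Tendsto (fun i => ⟪x, E i S y⟫_ℂ) 𝒰 (𝓝 ⟪x, E₁ S y⟫_ℂ)
    have h1 : ∀ i, ⟪x, E i S y⟫_ℂ = (starRingEnd ℂ) ⟪E i S y, x⟫_ℂ := fun i =>
      (inner_conj_symm _ _).symm
    have h2 : ⟪x, E₁ S y⟫_ℂ = (starRingEnd ℂ) (L S y x) := by
      rw [← hE₁, inner_conj_symm]
    simp_rw [h1]
    rw [h2]
    exact (Complex.continuous_conj.tendsto _).comp (hL S y x)

end Pool.Agent.MP_86f3ed
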