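import Pool.Agent.H.MP_86f3ed_an.Trc.Defs

open scoped Topology
open Filter

namespace Pool.Agent.MP_86f3ed

universe u v

/-- Hahn-Banach for closed subspaces. -/
theorem mem_closure_of_forall_dual {E : Type*} [NormedAddCommGroup E] [NormedSpace ℂ E]
    (p : Submodule ℂ E) (x : E)
    (h : ∀ f : StrongDual ℂ E, (∀ y ∈ p, f y = 0) → f x = 0) : x ∈ p.topologicalClosure := by
  by_contra hx
  have : IsClosed (p.topologicalClosure : Set E) := p.isClosed_topologicalClosure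
  have h1 : p.topologicalClosure.mkQ x ≠ 0 := by
    intro h0
    exact hx ((Submodule.Quotient.mk_eq_zero _).mp h0)
  have h2 : ‖p.topologicalClosure.mkQ x‖ ≠ 0 := norm_ne_zero_iff.mpr h1
  obtain ⟨g, _, hg⟩ := exists_dual_vector ℂ (p.topologicalClosure.mkQ x) h2
  have h3 := h (g.comp p.topologicalClosure.mkQL) (by
    intro y hy
    have : p.topologicalClosure.mkQ y = 0 :=
      (Submodule.Quotient.mk_eq_zero _).mpr (p.le_topologicalClosure hy)
    show g (p.topologicalClosure.mkQ y) = 0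
    rw [this, map_zero])
  have h4 : g (p.topologicalClosure.mkQ x) = 0 := h3
  rw [hg] at h4
  exact h2 (RCLike.ofReal_eq_zero.mp h4)

/-- In an approximately amenable algebra, derivations into an arbitrary normed bimodule are
approximable on finite sets by inner ones. -/
theorem approx_in_module {A : Type u} [NonUnitalCStarAlgebra A] {V : Type v}
    [NormedAddCommGroup V] [NormedSpace ℂ V] (hA : ApproxAmenable.{u, v} A) (B : Bimod A V)
    (δ : A →L[ℂ] V) (hδ : IsDeriv B δ) (F : Finset A) (ε : ℝ) (hε : 0 < ε) :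
    ∃ Φ : V, ∀ a ∈ F, ‖δ a - (B.l a Φ - B.r a Φ)‖ < ε := by
  classical
  set D : A →L[ℂ] StrongDual ℂ (StrongDual ℂ V) :=
    (NormedSpace.inclusionInDoubleDual ℂ V).comp δ with hD
  have hDer : IsDeriv B.dual.dual D := by
    intro a b
    ext f
    simp only [hD, ContinuousLinearMap.comp_apply, add_apply,
      NormedSpace.dual_def, Bimod.dual_l_apply, Bimod.dual_r_apply]
    rw [hδ a b, map_add]
  obtain ⟨I, _, _, _, ξ, hξ⟩ := hA (StrongDual ℂ V) B.dual D hDer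
  let L : V →ₗ[ℂ] (F → V) := LinearMap.pi fun a =>
    ((B.l (a : A) - B.r (a : A) : V →L[ℂ] V) : V →ₗ[ℂ] V)
  have hLv : ∀ Φ (a : F), L Φ a = B.l (a : A) Φ - B.r (a : A) Φ := fun Φ a => rfl
  let d : F → V := fun a => δ a
  have hmem : d ∈ (LinearMap.range L).topologicalClosure := by
    apply mem_closure_of_forall_dual
    intro f hf
    set fa : F → StrongDual ℂ V := fun a => f.comp (ContinuousLinearMap.single ℂ (fun _ : F => V) a)
      with hfa
    have hfsum : ∀ y : F → V, f y = ∑ a, fa a (y a) := by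
      intro y
      have h0 : f y = f (∑ a, Pi.single a (y a)) := by
        congr 1
        exact (Finset.univ_sum_single y).symm
      rw [h0, map_sum]
      rfl
    have hz : ∑ a : F, (B.dual.r (a : A) (fa a) - B.dual.l (a : A) (fa a)) = 0 := by
      ext Φ
      have h1 := hf (L Φ) ⟨Φ, rfl⟩
      rw [hfsum] at h1
      simp only [hLv, map_sub] at h1
      rw [sum_apply]
      simpa using h1
    -- G annihilates
    have hG : ∀ i, ∑ a : F, (B.dual.dual.l (a : A) (ξ i) - B.dual.dual.r (a : A) (ξ i)) (fa a) = 0 := by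
      intro i
      have h1 := congrArg (ξ i) hz
      rw [map_sum, map_zero] at h1
      simpa using h1
    have hlim : Tendsto (fun i => ∑ a : F, (B.dual.dual.l (a : A) (ξ i) -
        B.dual.dual.r (a : A) (ξ i)) (fa a)) atTop (𝓝 (∑ a : F, D (a : A) (fa a))) := by
      refine tendsto_finsetSum _ fun a _ => ?_
      exact ((ContinuousLinearMap.apply ℂ ℂ (fa a)).continuous.tendsto _).comp (hξ a)
    have h0 : ∑ a : F, D (a : A) (fa a) = 0 := by
      refine tendsto_nhds_unique hlim ?_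
      simp only [hG]
      exact tendsto_const_nhds
    rw [hfsum]
    exact h0
  have hcl : d ∈ closure (Set.range L) := by
    have : ((LinearMap.range L).topologicalClosure : Set (F → V)) = closure (Set.range L) := by
      rw [Submodule.topologicalClosure_coe]; rfl
    rw [← this]; exact hmem
  obtain ⟨y, ⟨Φ, rfl⟩, hy⟩ := Metric.mem_closure_iff.mp hcl ε hε
  refine ⟨Φ, fun a ha => ?_⟩
  have h1 := (dist_pi_lt_iff hε).mp hy ⟨a, ha⟩
  rw [dist_eq_norm] at h1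
  exact h1

section restrict

variable {A : Type u} [NonUnitalCStarAlgebra A] {V : Type v} [NormedAddCommGroup V]
  [NormedSpace ℂ V]

/-- Restriction of a bimodule to an invariant subspace. -/
noncomputable def Bimod.restrict (B : Bimod A V) (W : Submodule ℂ V)
    (hl : ∀ a, ∀ w ∈ W, B.l a w ∈ W) (hr : ∀ a, ∀ w ∈ W, B.r a w ∈ W) : Bimod A W where
  l := LinearMap.mkContinuous₂ (LinearMap.mk₂ ℂ
    (fun (a : A) (w : W) => (⟨B.l a w, hl a w w.2⟩ : W))
    (by intro a b w; ext; simp) (by intro c a w; ext; simp)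
    (by intro a w w'; ext; simp) (by intro c a w; ext; simp)) ‖B.l‖
    (by intro a w; exact B.l.le_opNorm₂ a (w : V))
  r := LinearMap.mkContinuous₂ (LinearMap.mk₂ ℂ
    (fun (a : A) (w : W) => (⟨B.r a w, hr a w w.2⟩ : W))
    (by intro a b w; ext; simp) (by intro c a w; ext; simp)
    (by intro a w w'; ext; simp) (by intro c a w; ext; simp)) ‖B.r‖
    (by intro a w; exact B.r.le_opNorm₂ a (w : V))
  l_mul a b w := by ext; exact B.l_mul a b w
  r_mul a b w := by ext; exact B.r_mul a b w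
  l_r a b w := by ext; exact B.l_r a b w

theorem Bimod.restrict_l (B : Bimod A V) (W : Submodule ℂ V)
    (hl : ∀ a, ∀ w ∈ W, B.l a w ∈ W) (hr : ∀ a, ∀ w ∈ W, B.r a w ∈ W) (a : A) (w : W) :
    (((B.restrict W hl hr).l a w : W) : V) = B.l a w := rfl

theorem Bimod.restrict_r (B : Bimod A V) (W : Submodule ℂ V)
    (hl : ∀ a, ∀ w ∈ W, B.l a w ∈ W) (hr : ∀ a, ∀ w ∈ W, B.r a w ∈ W) (a : A) (w : W) :
    (((B.restrict W hl hr).r a w : W) : V) = B.r a w := rfl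

theorem Bimod.restrict_norm (B : Bimod A V) (W : Submodule ℂ V)
    (hl : ∀ a, ∀ w ∈ W, B.l a w ∈ W) (hr : ∀ a, ∀ w ∈ W, B.r a w ∈ W) (a : A) (d w : W) :
    ‖d - ((B.restrict W hl hr).l a w - (B.restrict W hl hr).r a w)‖ =
      ‖(d : V) - (B.l a (w : V) - B.r a (w : V))‖ := rfl

end restrict

section near

variable {A : Type u} [NonUnitalCStarAlgebra A] {H : Type v} [NormedAddCommGroup H]
  [InnerProductSpace ℂ H] [CompleteSpace H]

/-- Left multiplication by `x` on `B(H)`. -/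
noncomputable abbrev Lm (x : H →L[ℂ] H) : (H →L[ℂ] H) →L[ℂ] (H →L[ℂ] H) :=
  ContinuousLinearMap.mul ℂ (H →L[ℂ] H) x

/-- Right multiplication by `x` on `B(H)`. -/
noncomputable abbrev Rm (x : H →L[ℂ] H) : (H →L[ℂ] H) →L[ℂ] (H →L[ℂ] H) :=
  (ContinuousLinearMap.mul ℂ (H →L[ℂ] H)).flip x

/-- A representation as a bounded linear map. -/
noncomputable def piL (π : A →⋆ₙₐ[ℂ] (H →L[ℂ] H)) : A →L[ℂ] (H →L[ℂ] H) :=
  LinearMap.mkContinuous (π : A →ₗ[ℂ] (H →L[ℂ] H)) 1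
    (by intro a; rw [one_mul]; exact NonUnitalStarAlgHom.norm_apply_le π a)

@[simp] theorem piL_apply (π : A →⋆ₙₐ[ℂ] (H →L[ℂ] H)) (a : A) : piL π a = π a := rfl

/-- `B(B(H))` as a bimodule by multiplication on the output. -/
noncomputable def outBimod (π : A →⋆ₙₐ[ℂ] (H →L[ℂ] H)) :
    Bimod A ((H →L[ℂ] H) →L[ℂ] (H →L[ℂ] H)) where
  l := (ContinuousLinearMap.compL ℂ (H →L[ℂ] H) (H →L[ℂ] H) (H →L[ℂ] H)).comp
    ((ContinuousLinearMap.mul ℂ (H →L[ℂ] H)).comp (piL π))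
  r := (ContinuousLinearMap.compL ℂ (H →L[ℂ] H) (H →L[ℂ] H) (H →L[ℂ] H)).comp
    ((ContinuousLinearMap.mul ℂ (H →L[ℂ] H)).flip.comp (piL π))
  l_mul a b w := by ext; simp
  r_mul a b w := by ext; simp
  l_r a b w := by ext; simp

theorem outBimod_l (π : A →⋆ₙₐ[ℂ] (H →L[ℂ] H)) (a : A) (w : (H →L[ℂ] H) →L[ℂ] (H →L[ℂ] H)) :
    (outBimod π).l a w = (Lm (π a)).comp w := rfl

theorem outBimod_r (π : A →⋆ₙₐ[ℂ] (H →L[ℂ] H)) (a : A) (w : (H →L[ℂ] H) →L[ℂ] (H →L[ℂ] H)) :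
    (outBimod π).r a w = (Rm (π a)).comp w := rfl

end near

section near2

variable {A : Type u} [NonUnitalCStarAlgebra A] {H : Type v} [NormedAddCommGroup H]
  [InnerProductSpace ℂ H] [CompleteSpace H]

/-- Elementary operators `S ↦ x S y` with `x, y` in the unitized range of `π`. -/
noncomputable def elemSpan (π : A →⋆ₙₐ[ℂ] (H →L[ℂ] H)) :
    Submodule ℂ ((H →L[ℂ] H) →L[ℂ] (H →L[ℂ] H)) :=
  Submodule.span ℂ {w | ∃ x ∈ (Unitization.starLift π).range,
    ∃ y ∈ (Unitization.starLift π).range, w = (Lm x).comp (Rm y)}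

theorem pi_mem_range (π : A →⋆ₙₐ[ℂ] (H →L[ℂ] H)) (a : A) :
    π a ∈ (Unitization.starLift π).range :=
  ⟨(a : Unitization ℂ A), by simp⟩

theorem elem_left (π : A →⋆ₙₐ[ℂ] (H →L[ℂ] H)) (a : A)
    (w : (H →L[ℂ] H) →L[ℂ] (H →L[ℂ] H)) (hw : w ∈ elemSpan π) :
    (Lm (π a)).comp w ∈ elemSpan π := by
  induction hw using Submodule.span_induction with
  | mem w h =>
    obtain ⟨x, hx, y, hy, rfl⟩ := h
    refine Submodule.subset_span ⟨π a * x, mul_mem (pi_mem_range π a) hx, y, hy, ?_⟩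
    ext S : 1
    simp [mul_assoc]
  | zero => simp
  | add w w' _ _ h h' => rw [ContinuousLinearMap.comp_add]; exact add_mem h h'
  | smul c w _ h => rw [ContinuousLinearMap.comp_smul]; exact Submodule.smul_mem _ _ h

theorem elem_right (π : A →⋆ₙₐ[ℂ] (H →L[ℂ] H)) (a : A)
    (w : (H →L[ℂ] H) →L[ℂ] (H →L[ℂ] H)) (hw : w ∈ elemSpan π) :
    (Rm (π a)).comp w ∈ elemSpan π := by
  induction hw using Submodule.span_induction with
  | mem w h =>
    obtain ⟨x, hx, y, hy, rfl⟩ := h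
    refine Submodule.subset_span ⟨x, hx, y * π a, mul_mem hy (pi_mem_range π a), ?_⟩
    ext S : 1
    simp [mul_assoc]
  | zero => simp
  | add w w' _ _ h h' => rw [ContinuousLinearMap.comp_add]; exact add_mem h h'
  | smul c w _ h => rw [ContinuousLinearMap.comp_smul]; exact Submodule.smul_mem _ _ h

/-- The submodule of operators in the closure of the elementary ones which kill `1`. -/
noncomputable def V0 (π : A →⋆ₙₐ[ℂ] (H →L[ℂ] H)) :
    Submodule ℂ ((H →L[ℂ] H) →L[ℂ] (H →L[ℂ] H)) :=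
  (elemSpan π).topologicalClosure ⊓
    LinearMap.ker (ContinuousLinearMap.apply ℂ (H →L[ℂ] H) (1 : H →L[ℂ] H)).toLinearMap

theorem mem_V0 (π : A →⋆ₙₐ[ℂ] (H →L[ℂ] H)) (w : (H →L[ℂ] H) →L[ℂ] (H →L[ℂ] H)) :
    w ∈ V0 π ↔ w ∈ (elemSpan π).topologicalClosure ∧ w 1 = 0 := Iff.rfl

theorem closure_left (π : A →⋆ₙₐ[ℂ] (H →L[ℂ] H)) (a : A)
    (w : (H →L[ℂ] H) →L[ℂ] (H →L[ℂ] H)) (hw : w ∈ (elemSpan π).topologicalClosure) :
    (Lm (π a)).comp w ∈ (elemSpan π).topologicalClosure := by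
  have hc : Continuous fun w : (H →L[ℂ] H) →L[ℂ] (H →L[ℂ] H) => (Lm (π a)).comp w :=
    ((outBimod π).l a).continuous
  exact map_mem_closure hc hw (fun w hw => elem_left π a w hw)

theorem closure_right (π : A →⋆ₙₐ[ℂ] (H →L[ℂ] H)) (a : A)
    (w : (H →L[ℂ] H) →L[ℂ] (H →L[ℂ] H)) (hw : w ∈ (elemSpan π).topologicalClosure) :
    (Rm (π a)).comp w ∈ (elemSpan π).topologicalClosure := by
  have hc : Continuous fun w : (H →L[ℂ] H) →L[ℂ] (H →L[ℂ] H) => (Rm (π a)).comp w :=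
    ((outBimod π).r a).continuous
  exact map_mem_closure hc hw (fun w hw => elem_right π a w hw)

theorem V0_l (π : A →⋆ₙₐ[ℂ] (H →L[ℂ] H)) (a : A) (w : (H →L[ℂ] H) →L[ℂ] (H →L[ℂ] H))
    (hw : w ∈ V0 π) : (outBimod π).l a w ∈ V0 π := by
  rw [mem_V0] at hw ⊢
  refine ⟨closure_left π a w hw.1, ?_⟩
  rw [outBimod_l, ContinuousLinearMap.comp_apply, hw.2, map_zero]

theorem V0_r (π : A →⋆ₙₐ[ℂ] (H →L[ℂ] H)) (a : A) (w : (H →L[ℂ] H) →L[ℂ] (H →L[ℂ] H))
    (hw : w ∈ V0 π) : (outBimod π).r a w ∈ V0 π := by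
  rw [mem_V0] at hw ⊢
  refine ⟨closure_right π a w hw.1, ?_⟩
  rw [outBimod_r, ContinuousLinearMap.comp_apply, hw.2, map_zero]

theorem id_mem (π : A →⋆ₙₐ[ℂ] (H →L[ℂ] H)) :
    ContinuousLinearMap.id ℂ (H →L[ℂ] H) ∈ elemSpan π :=
  Submodule.subset_span ⟨1, one_mem _, 1, one_mem _, by ext S : 1; simp⟩

/-- The derivation `a ↦ (S ↦ a S - S a)` into `V0`. -/
noncomputable def der (π : A →⋆ₙₐ[ℂ] (H →L[ℂ] H)) : A →L[ℂ] (V0 π) :=
  ContinuousLinearMap.codRestrict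
    (((ContinuousLinearMap.mul ℂ (H →L[ℂ] H)) - (ContinuousLinearMap.mul ℂ (H →L[ℂ] H)).flip).comp
      (piL π)) (V0 π) (by
    intro a
    rw [mem_V0]
    constructor
    · refine (elemSpan π).le_topologicalClosure ?_
      have h1 : Lm (π a) ∈ elemSpan π :=
        Submodule.subset_span ⟨π a, pi_mem_range π a, 1, one_mem _, by ext S : 1; simp⟩
      have h2 : Rm (π a) ∈ elemSpan π :=
        Submodule.subset_span ⟨1, one_mem _, π a, pi_mem_range π a, by ext S : 1; simp⟩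
      exact sub_mem h1 h2
    · simp)

theorem der_coe (π : A →⋆ₙₐ[ℂ] (H →L[ℂ] H)) (a : A) :
    ((der π a : V0 π) : (H →L[ℂ] H) →L[ℂ] (H →L[ℂ] H)) = Lm (π a) - Rm (π a) := rfl

theorem der_isDeriv (π : A →⋆ₙₐ[ℂ] (H →L[ℂ] H)) :
    IsDeriv ((outBimod π).restrict (V0 π) (V0_l π) (V0_r π)) (der π) := by
  intro a b
  apply Subtype.ext
  rw [Submodule.coe_add, Bimod.restrict_l, Bimod.restrict_r, der_coe, der_coe, der_coe,
    outBimod_l, outBimod_r]
  ext S : 1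
  simp [mul_assoc]

theorem norm_der_sub (π : A →⋆ₙₐ[ℂ] (H →L[ℂ] H)) (a : A) (Φ : V0 π) :
    ‖der π a - (((outBimod π).restrict (V0 π) (V0_l π) (V0_r π)).l a Φ -
        ((outBimod π).restrict (V0 π) (V0_l π) (V0_r π)).r a Φ)‖ =
    ‖(Lm (π a)).comp (ContinuousLinearMap.id ℂ (H →L[ℂ] H) -
        (Φ : (H →L[ℂ] H) →L[ℂ] (H →L[ℂ] H))) -
      (Rm (π a)).comp (ContinuousLinearMap.id ℂ (H →L[ℂ] H) -
        (Φ : (H →L[ℂ] H) →L[ℂ] (H →L[ℂ] H)))‖ := by
  rw [Bimod.restrict_norm, der_coe, outBimod_l, outBimod_r]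
  congr 1
  ext S : 1
  simp
  abel

/-- The nearly central elementary operators obtained from approximate amenability. -/
theorem exists_near_central (hA : ApproxAmenable.{u, v} A) (π : A →⋆ₙₐ[ℂ] (H →L[ℂ] H))
    (F : Finset A) (ε : ℝ) (hε : 0 < ε) :
    ∃ (n : ℕ) (x y : Fin n → (H →L[ℂ] H)),
      (∀ k, x k ∈ (Unitization.starLift π).range) ∧ (∀ k, y k ∈ (Unitization.starLift π).range) ∧
      ‖∑ k, x k * y k - 1‖ ≤ ε ∧
      ∀ a ∈ F, ∀ S, ‖π a * (∑ k, x k * S * y k) - (∑ k, x k * S * y k) * π a‖ ≤ ε * ‖S‖ := by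
  classical
  obtain ⟨M, hM⟩ : ∃ M : ℝ, ∀ a ∈ F, ‖π a‖ ≤ M := by
    obtain ⟨M, hM⟩ := (F.finite_toSet.image fun a => ‖π a‖).bddAbove
    exact ⟨M, fun a ha => hM ⟨a, ha, rfl⟩⟩
  set M' : ℝ := max M 0 with hM'
  have hM0 : 0 ≤ M' := le_max_right _ _
  set ε' : ℝ := ε / 2 with hε'
  have hε'0 : 0 < ε' := by positivity
  set ε₁ : ℝ := ε / (2 * (2 * M' + 1) ) with hε₁
  have hε₁0 : 0 < ε₁ := by positivity
  have hε₁ε : ε₁ ≤ ε := by
    rw [hε₁, div_le_iff₀ (by positivity)]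
    nlinarith
  have hε₁b : 2 * M' * ε₁ ≤ ε / 2 := by
    rw [hε₁, mul_div_assoc', div_le_iff₀ (by positivity)]
    nlinarith
  obtain ⟨Φ, hΦ⟩ := approx_in_module hA ((outBimod π).restrict (V0 π) (V0_l π) (V0_r π)) (der π)
    (der_isDeriv π) F ε' hε'0
  have hΦmem := (mem_V0 π _).mp Φ.2
  set Ψ : (H →L[ℂ] H) →L[ℂ] (H →L[ℂ] H) := ContinuousLinearMap.id ℂ (H →L[ℂ] H) - Φ with hΨ
  have hΨmem : Ψ ∈ (elemSpan π).topologicalClosure :=
    sub_mem ((elemSpan π).le_topologicalClosure (id_mem π)) hΦmem.1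
  have hΨ1 : Ψ 1 = 1 := by
    rw [hΨ, sub_apply, hΦmem.2]; simp
  have hΨa : ∀ a ∈ F, ‖(Lm (π a)).comp Ψ - (Rm (π a)).comp Ψ‖ ≤ ε' := by
    intro a ha
    have h1 := (hΦ a ha).le
    rw [norm_der_sub] at h1
    exact h1
  obtain ⟨w, hw, hwΨ⟩ := Metric.mem_closure_iff.mp hΨmem ε₁ hε₁0
  have hwΨ' : ‖w - Ψ‖ ≤ ε₁ := by
    rw [← norm_neg, neg_sub, ← dist_eq_norm]; exact hwΨ.le
  obtain ⟨n, c, g, hg⟩ := Submodule.mem_span_set'.mp hw
  choose x hx y hy hxy using fun k => (g k).2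
  refine ⟨n, fun k => c k • x k, y, fun k => ?_, hy, ?_, ?_⟩
  · exact ((Unitization.starLift π).range.smul_mem (hx k) (c k))
  · have h1 : ∑ k, (c k • x k) * y k = w 1 := by
      rw [← hg, sum_apply]
      refine Finset.sum_congr rfl fun k _ => ?_
      rw [hxy k]
      simp
    rw [h1]
    have h2 : w 1 - 1 = (w - Ψ) 1 := by rw [sub_apply, hΨ1]
    rw [h2]
    refine ((w - Ψ).le_opNorm 1).trans ?_
    have h3 : ‖(1 : H →L[ℂ] H)‖ ≤ 1 := by
      rw [ContinuousLinearMap.one_def]; exact ContinuousLinearMap.norm_id_le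
    calc ‖w - Ψ‖ * ‖(1 : H →L[ℂ] H)‖ ≤ ε₁ * 1 :=
          mul_le_mul hwΨ' h3 (norm_nonneg _) hε₁0.le
      _ ≤ ε := by linarith
  · intro a ha S
    have h1 : ∀ S, ∑ k, (c k • x k) * S * y k = w S := by
      intro S
      rw [← hg, sum_apply]
      refine Finset.sum_congr rfl fun k _ => ?_
      rw [hxy k]
      simp [mul_assoc]
    rw [h1]
    have h2 : π a * w S - w S * π a = ((Lm (π a)).comp Ψ - (Rm (π a)).comp Ψ) S +
        (π a * (w - Ψ) S - (w - Ψ) S * π a) := by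
      simp [mul_sub, sub_mul]
      abel
    rw [h2]
    have h3 : ‖((Lm (π a)).comp Ψ - (Rm (π a)).comp Ψ) S‖ ≤ ε' * ‖S‖ :=
      (ContinuousLinearMap.le_opNorm _ _).trans
        (mul_le_mul_of_nonneg_right (hΨa a ha) (norm_nonneg _))
    have hπ : ‖π a‖ ≤ M' := (hM a ha).trans (le_max_left _ _)
    have h4 : ‖(w - Ψ) S‖ ≤ ε₁ * ‖S‖ :=
      (ContinuousLinearMap.le_opNorm _ _).trans
        (mul_le_mul_of_nonneg_right hwΨ' (norm_nonneg _))
    have h5 : ‖π a * (w - Ψ) S - (w - Ψ) S * π a‖ ≤ 2 * M' * ε₁ * ‖S‖ := by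
      refine (norm_sub_le _ _).trans ?_
      have h6 : ‖π a * (w - Ψ) S‖ ≤ M' * (ε₁ * ‖S‖) :=
        (norm_mul_le _ _).trans (mul_le_mul hπ h4 (norm_nonneg _) hM0)
      have h7 : ‖(w - Ψ) S * π a‖ ≤ M' * (ε₁ * ‖S‖) := by
        refine (norm_mul_le _ _).trans ?_
        rw [mul_comm]
        exact mul_le_mul hπ h4 (norm_nonneg _) hM0
      linarith
    refine (norm_add_le _ _).trans ?_
    have h8 : 2 * M' * ε₁ * ‖S‖ ≤ ε / 2 * ‖S‖ :=
      mul_le_mul_of_nonneg_right hε₁b (norm_nonneg _)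
    have h9 : ε' * ‖S‖ = ε / 2 * ‖S‖ := rfl
    linarith

end near2

end Pool.Agent.MP_86f3ed
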