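import Mathlib

open scoped InnerProductSpace Topology
open Filter ContinuousLinearMap

namespace Pool.Agent.MP_86f3ed

variable {K : Type*} [NormedAddCommGroup K] [InnerProductSpace ℂ K] [CompleteSpace K]

theorem spectrum_low (g : K →L[ℂ] K) (hg : IsSelfAdjoint g)
    (hlow : ∀ y, (1/4) * ‖y‖ ^ 2 ≤ RCLike.re ⟪y, g y⟫_ℂ) :
    ∀ x ∈ spectrum ℝ g, (1/4 : ℝ) ≤ x := by
  have h : algebraMap ℝ (K →L[ℂ] K) (1/4) ≤ g := by
    rw [ContinuousLinearMap.le_def, ContinuousLinearMap.isPositive_def']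
    refine ⟨hg.sub ((IsSelfAdjoint.all _).algebraMap _), fun y => ?_⟩
    rw [reApplyInnerSelf_apply, sub_apply, inner_sub_left, map_sub]
    have h2 := hlow y
    have h3 : RCLike.re ⟪g y, y⟫_ℂ = RCLike.re ⟪y, g y⟫_ℂ := inner_re_symm _ _
    have h1 : (algebraMap ℝ (K →L[ℂ] K) (1/4)) y = ((1/4 : ℝ) : ℂ) • y := by
      rw [Algebra.algebraMap_eq_smul_one, Complex.coe_smul]; rfl
    have h4 : RCLike.re ⟪(algebraMap ℝ (K →L[ℂ] K) (1/4)) y, y⟫_ℂ = 1/4 * ‖y‖ ^ 2 := by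
      rw [h1, inner_smul_left, Complex.conj_ofReal, inner_self_eq_norm_sq_to_K]
      have : ((1/4 : ℝ) : ℂ) * ((‖y‖ : ℝ) : ℂ) ^ 2 = ((1/4 * ‖y‖ ^ 2 : ℝ) : ℂ) := by push_cast; ring
      show ((((1/4 : ℝ) : ℂ) * ((‖y‖ : ℝ) : ℂ) ^ 2)).re = _
      rw [this, Complex.ofReal_re]
    rw [h3, h4]
    linarith
  exact (algebraMap_le_iff_le_spectrum (ha := hg)).mp h

theorem exists_polar (g : K →L[ℂ] K) (hg : IsSelfAdjoint g)
    (hlow : ∀ y, (1/4) * ‖y‖ ^ 2 ≤ RCLike.re ⟪y, g y⟫_ℂ) :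
    ∃ P P₁ k : K →L[ℂ] K, IsSelfAdjoint P ∧ IsSelfAdjoint P₁ ∧ IsSelfAdjoint k ∧
      (∀ b, Commute g b → Commute P b ∧ Commute P₁ b ∧ Commute k b) ∧
      P * P = g ∧ k * P = 1 ∧ P * k = 1 ∧ P = (1/2 : ℝ) • 1 + P₁ * P₁ := by
  have hs := spectrum_low g hg hlow
  have hc1 : ContinuousOn (fun x : ℝ => √x) (spectrum ℝ g) := Real.continuous_sqrt.continuousOn
  have hc2 : ContinuousOn (fun x : ℝ => √(√x - 1/2)) (spectrum ℝ g) := by fun_prop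
  have hpos : ∀ x ∈ spectrum ℝ g, 0 < √x := fun x hx =>
    Real.sqrt_pos.mpr (by linarith [hs x hx])
  have hc3 : ContinuousOn (fun x : ℝ => (√x)⁻¹) (spectrum ℝ g) :=
    hc1.inv₀ fun x hx => (hpos x hx).ne'
  refine ⟨cfc (fun x : ℝ => √x) g, cfc (fun x : ℝ => √(√x - 1/2)) g, cfc (fun x : ℝ => (√x)⁻¹) g,
    cfc_predicate _ _, cfc_predicate _ _, cfc_predicate _ _, ?_, ?_, ?_, ?_, ?_⟩
  · intro b hb
    exact ⟨hb.cfc_real _, hb.cfc_real _, hb.cfc_real _⟩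
  · rw [← cfc_mul _ _ g hc1 hc1]
    conv_rhs => rw [← cfc_id ℝ g]
    refine cfc_congr fun x hx => ?_
    simp only [id]
    exact Real.mul_self_sqrt (by linarith [hs x hx])
  · rw [← cfc_mul _ _ g hc3 hc1, ← cfc_one ℝ g]
    refine cfc_congr fun x hx => ?_
    simp only [Pi.one_apply]
    exact inv_mul_cancel₀ (hpos x hx).ne'
  · rw [← cfc_mul _ _ g hc1 hc3, ← cfc_one ℝ g]
    refine cfc_congr fun x hx => ?_
    simp only [Pi.one_apply]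
    exact mul_inv_cancel₀ (hpos x hx).ne'
  · rw [← cfc_mul _ _ g hc2 hc2]
    have h1 : ((1/2 : ℝ) • 1 : K →L[ℂ] K) = cfc (fun _ : ℝ => (1/2 : ℝ)) g := by
      rw [cfc_const (1/2 : ℝ) g, Algebra.algebraMap_eq_smul_one]
    rw [h1, ← cfc_add (a := g) (fun _ : ℝ => (1/2 : ℝ))
      (fun x : ℝ => √(√x - 1/2) * √(√x - 1/2)) (by fun_prop) (hc2.mul hc2)]
    refine cfc_congr fun x hx => ?_
    have h2 : (1/2 : ℝ) ≤ √x := by
      rw [show (1/2 : ℝ) = √(1/4) by rw [show (1/4 : ℝ) = (1/2)^2 by norm_num, Real.sqrt_sq (by norm_num)]]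
      exact Real.sqrt_le_sqrt (hs x hx)
    show √x = 1/2 + √(√x - 1/2) * √(√x - 1/2)
    rw [Real.mul_self_sqrt (by linarith)]
    ring

end Pool.Agent.MP_86f3ed
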