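import Mathlib

open scoped InnerProductSpace Topology
open Filter ContinuousLinearMap

namespace Pool.Agent.MP_86f3ed

theorem mulA {K : Type*} [NormedAddCommGroup K] [InnerProductSpace ℂ K] (x y : K →L[ℂ] K)
    (v : K) : (x * y) v = x (y v) := rfl

/-- A cyclic representation of a unital C*-algebra with a cyclic trace vector. -/
structure Tr (C : Type*) [CStarAlgebra C] (K : Type*) [NormedAddCommGroup K]
    [InnerProductSpace ℂ K] [CompleteSpace K] where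
  σ : C →⋆ₐ[ℂ] (K →L[ℂ] K)
  η : K
  cyc : DenseRange (fun c => σ c η)
  tr : ∀ c d, ⟪η, σ (c * d) η⟫_ℂ = ⟪η, σ (d * c) η⟫_ℂ

namespace Tr

variable {C : Type*} [CStarAlgebra C] {K : Type*} [NormedAddCommGroup K]
    [InnerProductSpace ℂ K] [CompleteSpace K] (T : Tr C K)

/-- The dense map `c ↦ σ c η`. -/
noncomputable def e : C →ₗ[ℂ] K :=
  { toFun := fun c => T.σ c T.η
    map_add' := by intro c d; simp
    map_smul' := by intro c d; simp }

theorem e_apply (c : C) : T.e c = T.σ c T.η := rfl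

theorem e_dense : DenseRange T.e := T.cyc

theorem σ_star (c : C) : T.σ (star c) = adjoint (T.σ c) := by
  rw [map_star]; rfl

theorem inner_e (c d : C) : ⟪T.e c, T.e d⟫_ℂ = ⟪T.η, T.σ (star c * d) T.η⟫_ℂ := by
  rw [map_mul, σ_star, mulA, adjoint_inner_right]
  rfl

theorem inner_e' (c d : C) : ⟪T.e c, T.e d⟫_ℂ = ⟪T.e (star d), T.e (star c)⟫_ℂ := by
  rw [inner_e, inner_e, star_star, T.tr]

theorem norm_e_star (c : C) : ‖T.e (star c)‖ = ‖T.e c‖ := by
  have h := T.inner_e' c c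
  rw [inner_self_eq_norm_sq_to_K, inner_self_eq_norm_sq_to_K] at h
  have h2 : ‖T.e c‖ ^ 2 = ‖T.e (star c)‖ ^ 2 := by exact_mod_cast h
  exact (sq_eq_sq₀ (norm_nonneg _) (norm_nonneg _)).mp h2.symm

theorem norm_σ_le (c : C) : ‖T.σ c‖ ≤ ‖c‖ := NonUnitalStarAlgHom.norm_apply_le T.σ c

theorem norm_e_mul_left (c d : C) : ‖T.e (c * d)‖ ≤ ‖c‖ * ‖T.e d‖ := by
  have : T.e (c * d) = T.σ c (T.e d) := by rw [e_apply, map_mul]; rfl
  rw [this]
  exact (le_opNorm _ _).trans (mul_le_mul_of_nonneg_right (T.norm_σ_le c) (norm_nonneg _))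

theorem norm_e_mul_right (c d : C) : ‖T.e (c * d)‖ ≤ ‖d‖ * ‖T.e c‖ := by
  rw [← T.norm_e_star (c * d), star_mul]
  refine (T.norm_e_mul_left _ _).trans ?_
  rw [norm_star, T.norm_e_star]

/-- Right multiplication by `d`. -/
noncomputable def R (d : C) : K →L[ℂ] K :=
  (T.e.comp (LinearMap.mulRight ℂ d)).extendOfNorm T.e

theorem R_e (d c : C) : T.R d (T.e c) = T.e (c * d) := by
  have := LinearMap.extendOfNorm_eq (f := T.e.comp (LinearMap.mulRight ℂ d)) (e := T.e)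
    T.e_dense ⟨‖d‖, fun x => T.norm_e_mul_right x d⟩ c
  exact this

theorem ext_e {F : Type*} [NormedAddCommGroup F] [NormedSpace ℂ F] {x y : K →L[ℂ] F}
    (h : ∀ c, x (T.e c) = y (T.e c)) : x = y := by
  refine ContinuousLinearMap.coeFn_injective ?_
  exact T.e_dense.equalizer x.continuous y.continuous (funext h)

theorem e_one : T.e 1 = T.η := by rw [e_apply, map_one]; rfl

theorem R_η (d : C) : T.R d T.η = T.σ d T.η := by
  rw [← e_one, R_e, one_mul, e_one, e_apply]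

theorem σ_e (c d : C) : T.σ c (T.e d) = T.e (c * d) := by
  rw [e_apply, e_apply, map_mul]; rfl

theorem R_one : T.R 1 = 1 := T.ext_e fun c => by rw [R_e, mul_one]; rfl

theorem R_mul (d d' : C) : T.R d * T.R d' = T.R (d' * d) := T.ext_e fun c => by
  rw [mulA, R_e, R_e, R_e, mul_assoc]

theorem R_add (d d' : C) : T.R (d + d') = T.R d + T.R d' := T.ext_e fun c => by
  rw [add_apply, R_e, R_e, R_e, mul_add, map_add]

theorem R_smul (z : ℂ) (d : C) : T.R (z • d) = z • T.R d := T.ext_e fun c => by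
  rw [smul_apply, R_e, R_e, mul_smul_comm, map_smul]

theorem R_adj (d : C) : adjoint (T.R d) = T.R (star d) := by
  refine T.ext_e fun c => ?_
  refine T.e_dense.eq_of_inner_right (𝕜 := ℂ) ?_
  intro b
  rw [adjoint_inner_right, R_e, R_e, inner_e, inner_e, star_mul, mul_assoc, T.tr, mul_assoc]

theorem commute_σ_R (c d : C) : T.σ c * T.R d = T.R d * T.σ c := T.ext_e fun b => by
  rw [mulA, mulA, R_e, σ_e, σ_e, R_e, mul_assoc]

/-- The commutant of the right multiplications. -/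
def InB (x : K →L[ℂ] K) : Prop := ∀ d, x * T.R d = T.R d * x

theorem InB_σ (c : C) : T.InB (T.σ c) := fun d => T.commute_σ_R c d

theorem InB.adj {x : K →L[ℂ] K} (hx : T.InB x) : T.InB (adjoint x) := by
  intro d
  have h := congrArg adjoint (hx (star d))
  have h1 : adjoint (x * T.R (star d)) = T.R d * adjoint x := by
    show adjoint (x.comp (T.R (star d))) = _
    rw [adjoint_comp, R_adj, star_star]; rfl
  have h2 : adjoint (T.R (star d) * x) = adjoint x * T.R d := by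
    show adjoint ((T.R (star d)).comp x) = _
    rw [adjoint_comp, R_adj, star_star]; rfl
  rw [h1, h2] at h
  exact h.symm

theorem InB.mul {x y : K →L[ℂ] K} (hx : T.InB x) (hy : T.InB y) : T.InB (x * y) := by
  intro d
  rw [mul_assoc, hy d, ← mul_assoc, hx d, mul_assoc]

theorem InB.sub {x y : K →L[ℂ] K} (hx : T.InB x) (hy : T.InB y) : T.InB (x - y) := by
  intro d
  rw [sub_mul, mul_sub, hx d, hy d]

theorem InB.add {x y : K →L[ℂ] K} (hx : T.InB x) (hy : T.InB y) : T.InB (x + y) := by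
  intro d
  rw [add_mul, mul_add, hx d, hy d]

theorem InB.smul {x : K →L[ℂ] K} (z : ℂ) (hx : T.InB x) : T.InB (z • x) := by
  intro d
  rw [smul_mul_assoc, hx d, mul_smul_comm]

theorem InB.sum {ι : Type*} (s : Finset ι) {x : ι → K →L[ℂ] K} (hx : ∀ i ∈ s, T.InB (x i)) :
    T.InB (∑ i ∈ s, x i) := by
  intro d
  rw [Finset.sum_mul, Finset.mul_sum]
  exact Finset.sum_congr rfl fun i hi => hx i hi d

theorem norm_adj_le {x : K →L[ℂ] K} (hx : T.InB x) : ‖adjoint x T.η‖ ≤ ‖x T.η‖ := by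
  have key : ∀ v : K, ‖⟪adjoint x T.η, v⟫_ℂ‖ ≤ ‖x T.η‖ * ‖v‖ := by
    intro v
    refine T.e_dense.induction (P := fun v => ‖⟪adjoint x T.η, v⟫_ℂ‖ ≤ ‖x T.η‖ * ‖v‖) ?_
      (isClosed_le (by fun_prop) (by fun_prop)) v
    rintro _ ⟨d, rfl⟩
    have h1 : ⟪adjoint x T.η, T.e d⟫_ℂ = ⟪T.e (star d), x T.η⟫_ℂ := by
      rw [adjoint_inner_left, ← one_mul d, ← R_e, ← mulA, hx d,
        mulA, ← adjoint_inner_left, R_adj, e_one, R_η, one_mul]
      rfl
    rw [h1]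
    refine (norm_inner_le_norm _ _).trans ?_
    rw [norm_e_star, mul_comm]
  have h := key (adjoint x T.η)
  rw [inner_self_eq_norm_sq_to_K] at h
  have h2 : ‖adjoint x T.η‖ ^ 2 ≤ ‖x T.η‖ * ‖adjoint x T.η‖ := by
    simpa using h
  rcases (norm_nonneg (adjoint x T.η)).eq_or_lt with h0 | h0
  · rw [← h0]; exact norm_nonneg _
  · nlinarith

theorem norm_adj {x : K →L[ℂ] K} (hx : T.InB x) : ‖adjoint x T.η‖ = ‖x T.η‖ := by
  refine le_antisymm (T.norm_adj_le hx) ?_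
  have := T.norm_adj_le (InB.adj T hx)
  rwa [adjoint_adjoint] at this

theorem exists_approx (v : K) {ε : ℝ} (hε : 0 < ε) : ∃ c, ‖v - T.e c‖ < ε := by
  obtain ⟨_, ⟨c, rfl⟩, h⟩ := Metric.mem_closure_iff.mp (T.e_dense v) ε hε
  exact ⟨c, by rwa [← dist_eq_norm]⟩

/-- The cyclic vector is a trace vector for the commutant of the right multiplications. -/
theorem trB {x y : K →L[ℂ] K} (hx : T.InB x) (hy : T.InB y) :
    ⟪T.η, x (y T.η)⟫_ℂ = ⟪T.η, y (x T.η)⟫_ℂ := by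
  by_contra hne
  have hpos : 0 < ‖⟪T.η, x (y T.η)⟫_ℂ - ⟪T.η, y (x T.η)⟫_ℂ‖ :=
    norm_pos_iff.mpr (sub_ne_zero.mpr hne)
  set δ := ‖⟪T.η, x (y T.η)⟫_ℂ - ⟪T.η, y (x T.η)⟫_ℂ‖ with hδ
  set M := ‖adjoint x T.η‖ + ‖x T.η‖ + 1 with hM
  have hMpos : 0 < M := by positivity
  obtain ⟨c, hc⟩ := T.exists_approx (y T.η) (div_pos hpos hMpos)
  set z := y - T.σ c with hz
  have hzB : T.InB z := InB.sub T hy (T.InB_σ c)
  have hzη : ‖z T.η‖ < δ / M := hc
  have hσ : ⟪T.η, x (T.σ c T.η)⟫_ℂ = ⟪T.η, T.σ c (x T.η)⟫_ℂ := by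
    rw [← R_η, ← mulA, hx c, mulA,
      ← adjoint_inner_left, R_adj, R_η, σ_star, adjoint_inner_left]
  have h1 : ⟪T.η, x (y T.η)⟫_ℂ - ⟪T.η, y (x T.η)⟫_ℂ =
      ⟪adjoint x T.η, z T.η⟫_ℂ - ⟪adjoint z T.η, x T.η⟫_ℂ := by
    rw [adjoint_inner_left, adjoint_inner_left, hz]
    simp only [sub_apply, map_sub, inner_sub_right]
    rw [hσ]; ring
  have h2 : δ ≤ ‖adjoint x T.η‖ * ‖z T.η‖ + ‖z T.η‖ * ‖x T.η‖ := by
    rw [hδ, h1]
    refine (norm_sub_le _ _).trans (add_le_add (norm_inner_le_norm _ _) ?_)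
    refine (norm_inner_le_norm _ _).trans ?_
    rw [T.norm_adj hzB]
  have h3 : ‖z T.η‖ * M < δ := by rwa [lt_div_iff₀ hMpos] at hzη
  have h4 : 0 ≤ ‖z T.η‖ := norm_nonneg _
  nlinarith

/-- The commutation theorem. -/
theorem comm_of_commutant {x y : K →L[ℂ] K} (hx : T.InB x) (hy : ∀ c, y * T.σ c = T.σ c * y) :
    x * y = y * x := by
  have step : ∀ {x : K →L[ℂ] K}, T.InB x → ⟪T.η, x (y T.η)⟫_ℂ = ⟪T.η, y (x T.η)⟫_ℂ := by
    intro x hx
    by_contra hne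
    have hpos : 0 < ‖⟪T.η, x (y T.η)⟫_ℂ - ⟪T.η, y (x T.η)⟫_ℂ‖ :=
      norm_pos_iff.mpr (sub_ne_zero.mpr hne)
    set δ := ‖⟪T.η, x (y T.η)⟫_ℂ - ⟪T.η, y (x T.η)⟫_ℂ‖ with hδ
    set M := ‖adjoint y T.η‖ + ‖y T.η‖ + 1 with hM
    have hMpos : 0 < M := by positivity
    obtain ⟨c, hc⟩ := T.exists_approx (x T.η) (div_pos hpos hMpos)
    set z := x - T.σ c with hz
    have hzB : T.InB z := InB.sub T hx (T.InB_σ c)
    have hzη : ‖z T.η‖ < δ / M := hc
    have hσ : ⟪T.η, T.σ c (y T.η)⟫_ℂ = ⟪T.η, y (T.σ c T.η)⟫_ℂ := by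
      rw [← mulA, ← hy c, mulA]
    have h1 : ⟪T.η, x (y T.η)⟫_ℂ - ⟪T.η, y (x T.η)⟫_ℂ =
        ⟪adjoint z T.η, y T.η⟫_ℂ - ⟪adjoint y T.η, z T.η⟫_ℂ := by
      rw [adjoint_inner_left, adjoint_inner_left, hz]
      simp only [sub_apply, map_sub, inner_sub_right]
      rw [hσ]; ring
    have h2 : δ ≤ ‖z T.η‖ * ‖y T.η‖ + ‖adjoint y T.η‖ * ‖z T.η‖ := by
      rw [hδ, h1]
      refine (norm_sub_le _ _).trans (add_le_add ?_ (norm_inner_le_norm _ _))
      refine (norm_inner_le_norm _ _).trans ?_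
      rw [T.norm_adj hzB]
    have h3 : ‖z T.η‖ * M < δ := by rwa [lt_div_iff₀ hMpos] at hzη
    have h4 : 0 ≤ ‖z T.η‖ := norm_nonneg _
    nlinarith
  refine T.ext_e fun a => ?_
  refine T.e_dense.eq_of_inner_right (𝕜 := ℂ) ?_
  intro b
  have hx' : T.InB (T.σ (star b) * x * T.σ a) :=
    InB.mul T (InB.mul T (T.InB_σ _) hx) (T.InB_σ _)
  have h := step hx'
  simp only [mulA] at h ⊢
  have hya : T.σ a (y T.η) = y (T.e a) := by
    rw [e_apply, ← mulA, ← hy a]; rfl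
  have hyb : ∀ v, y (T.σ (star b) v) = T.σ (star b) (y v) := by
    intro v
    rw [← mulA, hy]; rfl
  rw [hya, hyb, σ_star, adjoint_inner_right, adjoint_inner_right] at h
  exact h

end Tr

end Pool.Agent.MP_86f3ed
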