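import Pool.Agent.H.MP_86f3ed_an.Trc.Mazur
import Pool.Agent.H.MP_86f3ed_an.Trc.Trace
import Pool.Agent.H.MP_86f3ed_an.Trc.Polar

open scoped InnerProductSpace Topology
open Filter ContinuousLinearMap

namespace Pool.Agent.MP_86f3ed

section coeff

variable {H : Type*} [NormedAddCommGroup H] [InnerProductSpace ℂ H]

theorem exists_coeff {ι : Type*} [Fintype ι] (e f : ι → H) : ∃ (m : ℕ) (a b : Fin m → ι → ℂ),
      (∀ i j, ∑ l, (starRingEnd ℂ) (a l i) * a l j = ⟪e j, e i⟫_ℂ) ∧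
      (∀ i j, ∑ l, (starRingEnd ℂ) (b l i) * b l j = ⟪f j, f i⟫_ℂ) ∧
      (∀ i j, ∑ l, (starRingEnd ℂ) (a l i) * b l j = ⟪f j, e i⟫_ℂ) := by
  classical
  set W : Submodule ℂ H := Submodule.span ℂ (Set.range e ∪ Set.range f) with hWdef
  have hfd : FiniteDimensional ℂ W :=
    FiniteDimensional.span_of_finite ℂ ((Set.finite_range e).union (Set.finite_range f))
  have heW : ∀ j, e j ∈ W := fun j => Submodule.subset_span (Or.inl ⟨j, rfl⟩)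
  have hfW : ∀ j, f j ∈ W := fun j => Submodule.subset_span (Or.inr ⟨j, rfl⟩)
  let κ := stdOrthonormalBasis ℂ W
  have hp : ∀ x ∈ W, ∀ y ∈ W, ∑ l, ⟪x, ((κ l : W) : H)⟫_ℂ * ⟪((κ l : W) : H), y⟫_ℂ = ⟪x, y⟫_ℂ := by
    intro x hx y hy
    exact κ.sum_inner_mul_inner (⟨x, hx⟩ : W) (⟨y, hy⟩ : W)
  refine ⟨_, fun l i => ⟪e i, ((κ l : W) : H)⟫_ℂ, fun l i => ⟪f i, ((κ l : W) : H)⟫_ℂ, ?_, ?_, ?_⟩
  · intro i j
    rw [← hp _ (heW j) _ (heW i)]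
    exact Finset.sum_congr rfl fun l _ => by rw [inner_conj_symm, mul_comm]
  · intro i j
    rw [← hp _ (hfW j) _ (hfW i)]
    exact Finset.sum_congr rfl fun l _ => by rw [inner_conj_symm, mul_comm]
  · intro i j
    rw [← hp _ (hfW j) _ (heW i)]
    exact Finset.sum_congr rfl fun l _ => by rw [inner_conj_symm, mul_comm]

theorem sum_inner_coeff {G : Type*} [NormedAddCommGroup G] [InnerProductSpace ℂ G]
    {ι L' : Type*} [Fintype ι] [Fintype L'] (a b : L' → ι → ℂ) (y z : ι → G) :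
    ∑ l, ⟪∑ i, a l i • y i, ∑ j, b l j • z j⟫_ℂ =
      ∑ i, ∑ j, (∑ l, (starRingEnd ℂ) (a l i) * b l j) * ⟪y i, z j⟫_ℂ := by
  simp_rw [Finset.sum_mul, sum_inner, inner_sum, inner_smul_left, inner_smul_right]
  rw [Finset.sum_comm]
  refine Finset.sum_congr rfl fun i _ => ?_
  rw [Finset.sum_comm]
  refine Finset.sum_congr rfl fun j _ => Finset.sum_congr rfl fun l _ => ?_
  ring

theorem sum_inner_coeff_self {G : Type*} [NormedAddCommGroup G] [InnerProductSpace ℂ G]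
    {ι : Type*} [Fintype ι] {e : ι → H} (he : Orthonormal ℂ e) {m : ℕ} (a : Fin m → ι → ℂ)
    (ha : ∀ i j, ∑ l, (starRingEnd ℂ) (a l i) * a l j = ⟪e j, e i⟫_ℂ) (y z : ι → G) :
    ∑ l, ⟪∑ i, a l i • y i, ∑ j, a l j • z j⟫_ℂ = ∑ i, ⟪y i, z i⟫_ℂ := by
  classical
  rw [sum_inner_coeff]
  refine Finset.sum_congr rfl fun i _ => ?_
  simp_rw [ha]
  rw [Finset.sum_eq_single i]
  · rw [inner_self_eq_norm_sq_to_K, he.1 i]; simp
  · intro j _ hj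
    rw [he.2 hj, zero_mul]
  · simp

theorem sum_norm_coeff_self {G : Type*} [NormedAddCommGroup G] [InnerProductSpace ℂ G]
    {ι : Type*} [Fintype ι] {e : ι → H} (he : Orthonormal ℂ e) {m : ℕ} (a : Fin m → ι → ℂ)
    (ha : ∀ i j, ∑ l, (starRingEnd ℂ) (a l i) * a l j = ⟪e j, e i⟫_ℂ) (y : ι → G) :
    ∑ l, ‖∑ i, a l i • y i‖ ^ 2 = ∑ i, ‖y i‖ ^ 2 := by
  have h := sum_inner_coeff_self he a ha y y
  simp_rw [inner_self_eq_norm_sq_to_K] at h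
  exact_mod_cast h

theorem sum_norm_inner_le {G : Type*} [NormedAddCommGroup G] [InnerProductSpace ℂ G]
    {L' : Type*} [Fintype L'] (y z : L' → G) :
    ‖∑ l, ⟪y l, z l⟫_ℂ‖ ≤ √(∑ l, ‖y l‖ ^ 2) * √(∑ l, ‖z l‖ ^ 2) := by
  refine (norm_sum_le _ _).trans ((Finset.sum_le_sum fun l _ => norm_inner_le_norm _ _).trans ?_)
  exact Real.sum_mul_le_sqrt_mul_sqrt _ _ _

/-- The contraction lemma. -/
theorem contraction_coeff {G : Type*} [NormedAddCommGroup G] [InnerProductSpace ℂ G]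
    {ι : Type*} [Fintype ι] {e f : ι → H} (he : Orthonormal ℂ e) (hf : Orthonormal ℂ f)
    (y z : ι → G) :
    ‖∑ i, ∑ j, ⟪f j, e i⟫_ℂ * ⟪y i, z j⟫_ℂ‖ ≤ √(∑ i, ‖y i‖ ^ 2) * √(∑ j, ‖z j‖ ^ 2) := by
  obtain ⟨m, a, b, ha, hb, hab⟩ := exists_coeff e f
  have h := sum_inner_coeff a b y z
  simp_rw [hab] at h
  rw [← h]
  refine (sum_norm_inner_le _ _).trans ?_
  rw [sum_norm_coeff_self he a ha, sum_norm_coeff_self hf b hb]

end coeff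

namespace Tr

variable {C : Type*} [CStarAlgebra C] {K : Type*} [NormedAddCommGroup K]
    [InnerProductSpace ℂ K] [CompleteSpace K] (T : Tr C K)

theorem norm_R_of_unitary {u : C} (hu : u ∈ unitary C) (v : K) : ‖T.R u v‖ = ‖v‖ := by
  have h : ⟪T.R u v, T.R u v⟫_ℂ = ⟪v, v⟫_ℂ := by
    rw [← adjoint_inner_right, R_adj, ← mulA, R_mul, Unitary.mul_star_self_of_mem hu, R_one]
    rfl
  rw [inner_self_eq_norm_sq_to_K, inner_self_eq_norm_sq_to_K] at h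
  have h2 : ‖T.R u v‖ ^ 2 = ‖v‖ ^ 2 := by exact_mod_cast h
  exact (sq_eq_sq₀ (norm_nonneg _) (norm_nonneg _)).mp h2

theorem norm_σ_of_unitary {u : C} (hu : u ∈ unitary C) (v : K) : ‖T.σ u v‖ = ‖v‖ := by
  have h : ⟪T.σ u v, T.σ u v⟫_ℂ = ⟪v, v⟫_ℂ := by
    rw [← adjoint_inner_right, ← σ_star, ← mulA, ← map_mul, Unitary.star_mul_self_of_mem hu,
      map_one]
    rfl
  rw [inner_self_eq_norm_sq_to_K, inner_self_eq_norm_sq_to_K] at h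
  have h2 : ‖T.σ u v‖ ^ 2 = ‖v‖ ^ 2 := by exact_mod_cast h
  exact (sq_eq_sq₀ (norm_nonneg _) (norm_nonneg _)).mp h2

theorem norm_x_σ {x : K →L[ℂ] K} (hx : T.InB x) {u : C} (hu : u ∈ unitary C) :
    ‖x (T.σ u T.η)‖ = ‖x T.η‖ := by
  rw [← R_η, ← mulA, hx u, mulA, T.norm_R_of_unitary hu]

theorem key_ineq {P P₁ Z : K →L[ℂ] K} (hη : ‖T.η‖ = 1) (hP₁ : IsSelfAdjoint P₁)
    (hP₁B : T.InB P₁) (hP : P = (1/2 : ℝ) • 1 + P₁ * P₁) (hPsa : IsSelfAdjoint P)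
    (hZB : T.InB Z) (hZ : ∀ y z, ‖⟪y, Z z⟫_ℂ‖ ≤ ‖y‖ * ‖z‖) {u : C} (hu : u ∈ unitary C) :
    (1/4) * (2 - 2 * (⟪T.η, Z T.η⟫_ℂ).re) ≤ 2 * ‖P T.η‖ ^ 2 -
      2 * (⟪T.η, P (Z (T.σ (star u) (P (T.σ u T.η))))⟫_ℂ).re := by
  set η := T.η with hηdef
  have sa : ∀ {x : K →L[ℂ] K}, IsSelfAdjoint x → ∀ v w, ⟪x v, w⟫_ℂ = ⟪v, x w⟫_ℂ := by
    intro x hx v w
    exact (isSelfAdjoint_iff_isSymmetric.mp hx) v w
  set p : K := P₁ (P₁ η) with hp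
  have hPη : P η = ((1/2 : ℝ) : ℂ) • η + p := by
    rw [hP, add_apply, smul_apply, hp, Complex.coe_smul]; rfl
  set Q₁ : K →L[ℂ] K := T.σ (star u) * P₁ * T.σ u with hQ₁
  have hQ₁B : T.InB Q₁ := InB.mul T (InB.mul T (T.InB_σ _) hP₁B) (T.InB_σ _)
  have huu : ∀ v, T.σ u (T.σ (star u) v) = v := by
    intro v
    rw [← mulA, ← map_mul, Unitary.mul_star_self_of_mem hu, map_one]; rfl
  have huu' : ∀ v, T.σ (star u) (T.σ u v) = v := by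
    intro v
    rw [← mulA, ← map_mul, Unitary.star_mul_self_of_mem hu, map_one]; rfl
  set q : K := Q₁ (Q₁ η) with hq
  have hq' : q = T.σ (star u) (P₁ (P₁ (T.σ u η))) := by
    rw [hq, hQ₁]
    simp only [mulA]
    rw [huu]
  have hQη : T.σ (star u) (P (T.σ u η)) = ((1/2 : ℝ) : ℂ) • η + q := by
    rw [hP, add_apply, smul_apply, map_add, hq', ← Complex.coe_smul, map_smul]
    congr 1
    show ((1/2 : ℝ) : ℂ) • T.σ (star u) (T.σ u η) = _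
    rw [huu']
  have hQ₁sa : IsSelfAdjoint Q₁ := by
    rw [isSelfAdjoint_iff, hQ₁, star_mul, star_mul, hP₁.star_eq, map_star, star_star, mul_assoc]
  have hu' : star u ∈ unitary C := Unitary.star_mem hu
  have hnq : ‖q‖ = ‖p‖ := by
    rw [hq', T.norm_σ_of_unitary hu', ← mulA, T.norm_x_σ (InB.mul T hP₁B hP₁B) hu]; rfl
  have hnQ₁ : ‖Q₁ η‖ = ‖P₁ η‖ := by
    rw [hQ₁]
    simp only [mulA]
    rw [T.norm_σ_of_unitary hu', T.norm_x_σ hP₁B hu]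
  have re_le : ∀ {z : ℂ} {r : ℝ}, ‖z‖ ≤ r → z.re ≤ r := fun h =>
    (Complex.re_le_norm _).trans h
  set t : ℝ := ‖P₁ η‖ ^ 2 with ht
  have hi : (⟪p, Z η⟫_ℂ).re ≤ t := by
    have h1 : ⟪p, Z η⟫_ℂ = ⟪P₁ η, Z (P₁ η)⟫_ℂ := by
      have h2 := T.trB hP₁B (InB.mul T hP₁B hZB)
      simp only [mulA] at h2
      rw [hp, sa hP₁, sa hP₁, h2, sa hP₁]
    rw [h1]
    refine re_le ((hZ _ _).trans (le_of_eq ?_))
    rw [ht]; ring
  have hii : (⟪η, Z q⟫_ℂ).re ≤ t := by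
    have h1 : ⟪η, Z q⟫_ℂ = ⟪Q₁ η, Z (Q₁ η)⟫_ℂ := by
      have h2 := T.trB (InB.mul T hZB hQ₁B) hQ₁B
      simp only [mulA] at h2
      rw [hq, h2, sa hQ₁sa]
    rw [h1]
    refine re_le ((hZ _ _).trans (le_of_eq ?_))
    rw [hnQ₁, ht]; ring
  have hiii : (⟪p, Z q⟫_ℂ).re ≤ ‖p‖ ^ 2 := by
    refine re_le ((hZ _ _).trans (le_of_eq ?_))
    rw [hnq]; ring
  have hpη : (⟪η, p⟫_ℂ).re = t := by
    rw [hp, ← sa hP₁, inner_self_eq_norm_sq_to_K, ht]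
    norm_cast
  have hη1 : ⟪η, η⟫_ℂ = 1 := by
    rw [inner_self_eq_norm_sq_to_K, hη]; simp
  have hnP : ‖P η‖ ^ 2 = 1/4 + t + ‖p‖ ^ 2 := by
    have h1 : ((‖P η‖ ^ 2 : ℝ) : ℂ) = ⟪P η, P η⟫_ℂ := by
      rw [inner_self_eq_norm_sq_to_K]; push_cast; rfl
    have h2 : (⟪P η, P η⟫_ℂ).re = 1/4 + t + ‖p‖ ^ 2 := by
      rw [hPη, inner_add_left, inner_add_right, inner_add_right, inner_smul_left,
        inner_smul_right, inner_smul_left, inner_smul_right, Complex.conj_ofReal, hη1]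
      have h3 : (⟪p, η⟫_ℂ).re = t := by
        rw [← inner_conj_symm, Complex.conj_re]; exact hpη
      have h4 : ⟪p, p⟫_ℂ = ((‖p‖ ^ 2 : ℝ) : ℂ) := by
        rw [inner_self_eq_norm_sq_to_K]; push_cast; rfl
      rw [h4]
      simp only [Complex.add_re, Complex.mul_re, Complex.ofReal_re, Complex.ofReal_im,
        Complex.one_re, Complex.one_im, h3, hpη]
      ring
    rw [← h2, ← h1, Complex.ofReal_re]
  have hexp : (⟪η, P (Z (T.σ (star u) (P (T.σ u η))))⟫_ℂ).re =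
      (1/4) * (⟪η, Z η⟫_ℂ).re + (1/2) * (⟪η, Z q⟫_ℂ).re + (1/2) * (⟪p, Z η⟫_ℂ).re +
        (⟪p, Z q⟫_ℂ).re := by
    rw [← sa hPsa, hQη, hPη, map_add, map_smul, inner_add_left, inner_add_right,
      inner_add_right, inner_smul_left, inner_smul_right, inner_smul_left, inner_smul_right,
      Complex.conj_ofReal]
    simp only [Complex.add_re, Complex.mul_re, Complex.ofReal_re, Complex.ofReal_im, Complex.mul_im]
    ring
  rw [hexp, hnP]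
  linarith

section cross

variable {H : Type*} [NormedAddCommGroup H] [InnerProductSpace ℂ H] [CompleteSpace H]
variable {ι : Type*} [Fintype ι]

theorem inner_gram (θ : ι → K →L[ℂ] H) (l : ι → ℝ) (y z : K) :
    ⟪y, (∑ i, (((l i) ^ 2 : ℝ) : ℂ) • ((adjoint (θ i)).comp (θ i))) z⟫_ℂ =
      ∑ i, (((l i) ^ 2 : ℝ) : ℂ) * ⟪θ i y, θ i z⟫_ℂ := by
  rw [sum_apply, inner_sum]
  refine Finset.sum_congr rfl fun i _ => ?_
  rw [smul_apply, inner_smul_right, comp_apply, adjoint_inner_right]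

theorem cross_ge (hη : ‖T.η‖ = 1) (θ : ι → K →L[ℂ] H) (l : ι → ℝ)
    (hB : ∀ i j, T.InB ((adjoint (θ i)).comp (θ j)))
    {P P₁ k : K →L[ℂ] K} (hPsa : IsSelfAdjoint P) (hP₁ : IsSelfAdjoint P₁)
    (hksa : IsSelfAdjoint k)
    (hcomm : ∀ b, Commute (∑ i, (((l i) ^ 2 : ℝ) : ℂ) • ((adjoint (θ i)).comp (θ i))) b →
      Commute P b ∧ Commute P₁ b ∧ Commute k b)
    (hPP : P * P = ∑ i, (((l i) ^ 2 : ℝ) : ℂ) • ((adjoint (θ i)).comp (θ i)))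
    (hkP : k * P = 1) (hPk : P * k = 1) (hP : P = (1/2 : ℝ) • 1 + P₁ * P₁)
    {u : C} (hu : u ∈ unitary C) (he : Orthonormal ℂ fun i => θ i T.η)
    (hf : Orthonormal ℂ fun i => θ i (T.σ u T.η)) {ε : ℝ}
    (hM : ∑ j, (l j) ^ 2 - ∑ i, ∑ j, l i * l j * ‖⟪θ i T.η, θ j (T.σ u T.η)⟫_ℂ‖ ^ 2 ≤ ε) :
    1 - (∑ i, ∑ j, ⟪θ j (T.σ u T.η), θ i T.η⟫_ℂ *
      ⟪(l i : ℂ) • θ i (k T.η), (l j : ℂ) • θ j (k (T.σ u T.η))⟫_ℂ).re ≤ 4 * ε := by
  classical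
  set g : K →L[ℂ] K := ∑ i, (((l i) ^ 2 : ℝ) : ℂ) • ((adjoint (θ i)).comp (θ i)) with hg
  have sa : ∀ {x : K →L[ℂ] K}, IsSelfAdjoint x → ∀ v w, ⟪x v, w⟫_ℂ = ⟪v, x w⟫_ℂ := by
    intro x hx v w
    exact (isSelfAdjoint_iff_isSymmetric.mp hx) v w
  have hgB : T.InB g := InB.sum T _ fun i _ => InB.smul T _ (hB i i)
  have hkB : T.InB k := fun d => (hcomm _ (hgB d)).2.2
  have hP₁B : T.InB P₁ := fun d => (hcomm _ (hgB d)).2.1
  have hPkv : ∀ v, P (k v) = v := fun v => by rw [← mulA, hPk]; rfl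
  have hkPv : ∀ v, k (P v) = v := fun v => by rw [← mulA, hkP]; rfl
  set η := T.η with hηdef
  set X : K →L[ℂ] K := ∑ i, ∑ j, ((l i : ℂ) * (l j : ℂ) * ⟪θ j (T.σ u η), θ i η⟫_ℂ) •
    ((adjoint (θ i)).comp (θ j)) with hX
  have hXB : T.InB X := InB.sum T _ fun i _ => InB.sum T _ fun j _ => InB.smul T _ (hB i j)
  have hXin : ∀ y z, ⟪y, X z⟫_ℂ = ∑ i, ∑ j, ⟪θ j (T.σ u η), θ i η⟫_ℂ *
      ⟪(l i : ℂ) • θ i y, (l j : ℂ) • θ j z⟫_ℂ := by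
    intro y z
    rw [hX, sum_apply, inner_sum]
    refine Finset.sum_congr rfl fun i _ => ?_
    rw [sum_apply, inner_sum]
    refine Finset.sum_congr rfl fun j _ => ?_
    rw [smul_apply, inner_smul_right, comp_apply, adjoint_inner_right, inner_smul_left,
      inner_smul_right, Complex.conj_ofReal]
    ring
  set Z : K →L[ℂ] K := k * X * k * T.σ u with hZ
  have hZB : T.InB Z := InB.mul T (InB.mul T (InB.mul T hkB hXB) hkB) (T.InB_σ u)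
  have hZv : ∀ v, Z v = k (X (k (T.σ u v))) := fun v => rfl
  have hnorm : ∀ y : K, ∑ i, ‖(l i : ℂ) • θ i (k y)‖ ^ 2 = ‖y‖ ^ 2 := by
    intro y
    have h1 := inner_gram θ l (k y) (k y)
    rw [← hg, ← hPP, mulA, ← sa hPsa, hPkv] at h1
    have h2 : ((‖y‖ ^ 2 : ℝ) : ℂ) = ((∑ i, ‖(l i : ℂ) • θ i (k y)‖ ^ 2 : ℝ) : ℂ) := by
      rw [inner_self_eq_norm_sq_to_K] at h1
      have h3 : ∀ i, (((l i) ^ 2 : ℝ) : ℂ) * ⟪θ i (k y), θ i (k y)⟫_ℂ =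
          ((‖(l i : ℂ) • θ i (k y)‖ ^ 2 : ℝ) : ℂ) := by
        intro i
        rw [inner_self_eq_norm_sq_to_K, norm_smul, mul_pow, Complex.norm_real, Real.norm_eq_abs,
          sq_abs]
        push_cast; rfl
      simp_rw [h3] at h1
      push_cast at h1 ⊢
      exact h1
    exact_mod_cast h2.symm
  have hZc : ∀ y z, ‖⟪y, Z z⟫_ℂ‖ ≤ ‖y‖ * ‖z‖ := by
    intro y z
    rw [hZv, ← sa hksa, hXin]
    refine (contraction_coeff he hf _ _).trans (le_of_eq ?_)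
    rw [hnorm, hnorm, T.norm_σ_of_unitary hu, Real.sqrt_sq (norm_nonneg _),
      Real.sqrt_sq (norm_nonneg _)]
  have key := T.key_ineq hη hP₁ hP₁B hP hPsa hZB hZc hu
  have huu : ∀ v, T.σ u (T.σ (star u) v) = v := by
    intro v
    rw [← mulA, ← map_mul, Unitary.mul_star_self_of_mem hu, map_one]; rfl
  have h1 : P (Z (T.σ (star u) (P (T.σ u η)))) = X (T.σ u η) := by
    rw [hZv, huu, hkPv, hPkv]
  rw [← hηdef, h1] at key
  have hPη : ‖P η‖ ^ 2 = ∑ j, (l j) ^ 2 := by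
    have h2 := inner_gram θ l η η
    rw [← hg, ← hPP, mulA, ← sa hPsa, inner_self_eq_norm_sq_to_K] at h2
    have h3 : ∀ i, ⟪θ i η, θ i η⟫_ℂ = 1 := by
      intro i
      have h4 := he.1 i
      rw [inner_self_eq_norm_sq_to_K]
      simp only at h4
      rw [h4]; simp
    simp_rw [h3, mul_one] at h2
    have h5 : ((‖P η‖ ^ 2 : ℝ) : ℂ) = ((∑ j, (l j) ^ 2 : ℝ) : ℂ) := by
      push_cast at h2 ⊢
      exact h2
    exact_mod_cast h5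
  have hXu : (⟪η, X (T.σ u η)⟫_ℂ).re =
      ∑ i, ∑ j, l i * l j * ‖⟪θ i η, θ j (T.σ u η)⟫_ℂ‖ ^ 2 := by
    rw [hXin]
    have : ∑ i, ∑ j, ⟪θ j (T.σ u η), θ i η⟫_ℂ *
        ⟪(l i : ℂ) • θ i η, (l j : ℂ) • θ j (T.σ u η)⟫_ℂ =
        ((∑ i, ∑ j, l i * l j * ‖⟪θ i η, θ j (T.σ u η)⟫_ℂ‖ ^ 2 : ℝ) : ℂ) := by
      push_cast
      refine Finset.sum_congr rfl fun i _ => Finset.sum_congr rfl fun j _ => ?_
      rw [inner_smul_left, inner_smul_right, Complex.conj_ofReal, ← Complex.ofReal_pow,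
        ← Complex.normSq_eq_norm_sq, ← Complex.mul_conj, inner_conj_symm]
      ring
    rw [this, Complex.ofReal_re]
  have hZη : ⟪η, Z η⟫_ℂ = ∑ i, ∑ j, ⟪θ j (T.σ u η), θ i η⟫_ℂ *
      ⟪(l i : ℂ) • θ i (k η), (l j : ℂ) • θ j (k (T.σ u η))⟫_ℂ := by
    rw [hZv, ← sa hksa, hXin]
  rw [hPη, hXu] at key
  rw [← hZη]
  linarith

end cross

end Tr

end Pool.Agent.MP_86f3ed
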