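import Mathlib

open scoped Topology
open Filter

namespace Pool.Agent.MP_86f3ed

universe u v

/-- A Banach bimodule structure over the C*-algebra `A` (not necessarily unital) on the Banach
space `X`: `l a x` is the left action `a · x` and `r a x` is the right action `x · a`. Both
actions are bounded bilinear. -/
structure Bimod (A : Type u) [NonUnitalCStarAlgebra A] (X : Type v) [NormedAddCommGroup X]
    [NormedSpace ℂ X] where
  l : A →L[ℂ] X →L[ℂ] X
  r : A →L[ℂ] X →L[ℂ] X
  l_mul : ∀ a b x, l (a * b) x = l a (l b x)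
  r_mul : ∀ a b x, r (a * b) x = r b (r a x)
  l_r : ∀ a b x, l a (r b x) = r b (l a x)

section

variable {A : Type u} [NonUnitalCStarAlgebra A] {X : Type v} [NormedAddCommGroup X]
  [NormedSpace ℂ X]

/-- The dual Banach bimodule: `(a · f)(x) = f (x · a)` and `(f · a)(x) = f (a · x)`. -/
noncomputable def Bimod.dual (B : Bimod A X) : Bimod A (StrongDual ℂ X) where
  l := ((ContinuousLinearMap.compL ℂ X X ℂ).flip).comp B.r
  r := ((ContinuousLinearMap.compL ℂ X X ℂ).flip).comp B.l
  l_mul a b f := by ext x; simp [B.r_mul]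
  r_mul a b f := by ext x; simp [B.l_mul]
  l_r a b f := by ext x; simp [B.l_r]

@[simp] theorem Bimod.dual_l_apply (B : Bimod A X) (a : A) (f : StrongDual ℂ X) (x : X) :
    B.dual.l a f x = f (B.r a x) := rfl

@[simp] theorem Bimod.dual_r_apply (B : Bimod A X) (a : A) (f : StrongDual ℂ X) (x : X) :
    B.dual.r a f x = f (B.l a x) := rfl

/-- `D (ab) = a · D b + D a · b`. -/
def IsDeriv (B : Bimod A X) (D : A →L[ℂ] X) : Prop :=
  ∀ a b, D (a * b) = B.l a (D b) + B.r b (D a)

/-- `D` is approximately inner: there is a net `(ξ_i)` in `X` with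
`a · ξ_i - ξ_i · a → D a` in norm for every `a`. -/
def ApproxInner (B : Bimod A X) (D : A →L[ℂ] X) : Prop :=
  ∃ (I : Type (max u v)) (_ : Preorder I) (_ : IsDirectedOrder I) (_ : Nonempty I) (ξ : I → X),
    ∀ a, Tendsto (fun i => B.l a (ξ i) - B.r a (ξ i)) atTop (𝓝 (D a))

end

/-- Approximate amenability in the sense of Ghahramani and Loy: every bounded derivation into
the dual of a Banach bimodule is approximately inner. -/
def ApproxAmenable (A : Type u) [NonUnitalCStarAlgebra A] : Prop :=
  ∀ (X : Type v) [NormedAddCommGroup X] [NormedSpace ℂ X] [CompleteSpace X] (B : Bimod A X)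
    (D : A →L[ℂ] StrongDual ℂ X), IsDeriv B.dual D → ApproxInner B.dual D

end Pool.Agent.MP_86f3ed
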