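import Pool.Agent.H.MP_86f3ed_an.Trc.Core

open scoped InnerProductSpace Topology
open Filter ContinuousLinearMap

namespace Pool.Agent.MP_86f3ed

/-- A representation of `C` on `H` inside a star algebra of operators, and a vector which is
central for `C` and induces the same state as the trace vector of `T`. -/
structure Central {C : Type*} [CStarAlgebra C] {K : Type*} [NormedAddCommGroup K]
    [InnerProductSpace ℂ K] [CompleteSpace K] (T : Tr C K) (H : Type*) [NormedAddCommGroup H]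
    [InnerProductSpace ℂ H] [CompleteSpace H] where
  π : C →⋆ₐ[ℂ] (H →L[ℂ] H)
  ξ : H
  A : StarSubalgebra ℂ (H →L[ℂ] H)
  mem : ∀ c, π c ∈ A
  cent : ∀ c, ∀ x ∈ A, ⟪ξ, π c (x ξ)⟫_ℂ = ⟪ξ, x (π c ξ)⟫_ℂ
  vec : ∀ c, ⟪T.η, T.σ c T.η⟫_ℂ = ⟪ξ, π c ξ⟫_ℂ

namespace Central

variable {C : Type*} [CStarAlgebra C] {K : Type*} [NormedAddCommGroup K]
    [InnerProductSpace ℂ K] [CompleteSpace K] {T : Tr C K} {H : Type*} [NormedAddCommGroup H]
    [InnerProductSpace ℂ H] [CompleteSpace H] (D : Central T H)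

theorem star_eq (x : H →L[ℂ] H) : star x = adjoint x := rfl

theorem π_star (c : C) : D.π (star c) = adjoint (D.π c) := by rw [map_star]; rfl

/-- The dense map on the `H` side. -/
noncomputable def f : C →ₗ[ℂ] H :=
  { toFun := fun c => D.π c D.ξ
    map_add' := by intro c d; simp
    map_smul' := by intro c d; simp }

theorem inner_f (c d : C) : ⟪D.f c, D.f d⟫_ℂ = ⟪T.e c, T.e d⟫_ℂ := by
  rw [T.inner_e, D.vec, map_mul, π_star]
  show ⟪D.π c D.ξ, D.π d D.ξ⟫_ℂ = ⟪D.ξ, adjoint (D.π c) (D.π d D.ξ)⟫_ℂ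
  rw [adjoint_inner_right]

theorem norm_f (c : C) : ‖D.f c‖ = ‖T.e c‖ := by
  have h := D.inner_f c c
  rw [inner_self_eq_norm_sq_to_K, inner_self_eq_norm_sq_to_K] at h
  have h2 : ‖D.f c‖ ^ 2 = ‖T.e c‖ ^ 2 := by exact_mod_cast h
  exact (sq_eq_sq₀ (norm_nonneg _) (norm_nonneg _)).mp h2

/-- The isometry `K → H`. -/
noncomputable def V : K →L[ℂ] H := D.f.extendOfNorm T.e

theorem V_e (c : C) : D.V (T.e c) = D.π c D.ξ := by
  have := LinearMap.extendOfNorm_eq (f := D.f) (e := T.e) T.e_dense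
    ⟨1, fun x => by rw [one_mul, D.norm_f]⟩ c
  exact this

theorem V_η : D.V T.η = D.ξ := by
  rw [← T.e_one, V_e, map_one]; rfl

theorem V_σ (c : C) (v : K) : D.V (T.σ c v) = D.π c (D.V v) := by
  have h : D.V.comp (T.σ c) = (D.π c).comp D.V := T.ext_e fun d => by
    rw [comp_apply, comp_apply, T.σ_e, V_e, V_e, map_mul]; rfl
  exact congrArg (fun z : K →L[ℂ] H => z v) h

theorem norm_V (v : K) : ‖D.V v‖ = ‖v‖ := by
  refine T.e_dense.induction (P := fun v => ‖D.V v‖ = ‖v‖) ?_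
    (isClosed_eq (by fun_prop) (by fun_prop)) v
  rintro _ ⟨c, rfl⟩
  rw [V_e]
  exact D.norm_f c

/-- Centrality for products. -/
theorem cent' (c : C) (x y : H →L[ℂ] H) (hx : x ∈ D.A) (hy : y ∈ D.A) :
    ⟪D.ξ, D.π c (x (y D.ξ))⟫_ℂ = ⟪D.ξ, x (y (D.π c D.ξ))⟫_ℂ :=
  D.cent c (x * y) (mul_mem hx hy)

theorem mem_adjoint {x : H →L[ℂ] H} (hx : x ∈ D.A) : adjoint x ∈ D.A := star_mem hx

/-- The Gram matrix is invariant under right multiplications. -/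
theorem gram_inv {x y : H →L[ℂ] H} (hx : x ∈ D.A) (hy : y ∈ D.A) (a b d : C) :
    ⟪x (D.π (a * d) D.ξ), y (D.π b D.ξ)⟫_ℂ = ⟪x (D.π a D.ξ), y (D.π (b * star d) D.ξ)⟫_ℂ := by
  have h1 : ⟪x (D.π (a * d) D.ξ), y (D.π b D.ξ)⟫_ℂ =
      ⟪D.ξ, D.π (star d) ((D.π (star a) * (adjoint x * (y * D.π b))) D.ξ)⟫_ℂ := by
    rw [map_mul]
    show ⟪x (D.π a (D.π d D.ξ)), y (D.π b D.ξ)⟫_ℂ =
      ⟪D.ξ, D.π (star d) (D.π (star a) (adjoint x (y (D.π b D.ξ))))⟫_ℂ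
    rw [π_star, π_star, adjoint_inner_right, adjoint_inner_right, adjoint_inner_right]
  have hmem : D.π (star a) * (adjoint x * (y * D.π b)) ∈ D.A :=
    mul_mem (D.mem _) (mul_mem (D.mem_adjoint hx) (mul_mem hy (D.mem _)))
  rw [h1, D.cent _ _ hmem]
  show ⟪D.ξ, D.π (star a) (adjoint x (y (D.π b (D.π (star d) D.ξ))))⟫_ℂ = _
  rw [π_star, adjoint_inner_right, adjoint_inner_right, map_mul]
  rfl

theorem inB {x y : H →L[ℂ] H} (hx : x ∈ D.A) (hy : y ∈ D.A) :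
    T.InB ((adjoint (x.comp D.V)).comp (y.comp D.V)) := by
  intro d
  refine T.ext_e fun c => ?_
  refine T.e_dense.eq_of_inner_right (𝕜 := ℂ) ?_
  intro b
  have h1 : ⟪T.e b, (((adjoint (x.comp D.V)).comp (y.comp D.V)) * T.R d) (T.e c)⟫_ℂ =
      ⟪x (D.π b D.ξ), y (D.π (c * d) D.ξ)⟫_ℂ := by
    rw [mulA, comp_apply, adjoint_inner_right, T.R_e]
    simp only [comp_apply, V_e]
  have h2 : ⟪T.e b, (T.R d * ((adjoint (x.comp D.V)).comp (y.comp D.V))) (T.e c)⟫_ℂ =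
      ⟪x (D.π (b * star d) D.ξ), y (D.π c D.ξ)⟫_ℂ := by
    rw [mulA, ← adjoint_inner_left, T.R_adj, comp_apply, adjoint_inner_right, T.R_e]
    simp only [comp_apply, V_e]
  rw [h1, h2, D.gram_inv hx hy, star_star]

theorem inj {x : H →L[ℂ] H} (hx : x ∈ D.A) (h0 : x D.ξ = 0) (v : K) : x (D.V v) = 0 := by
  have h : x.comp D.V = 0 := T.ext_e fun c => by
    rw [comp_apply, V_e, zero_apply]
    have h1 := D.gram_inv hx hx 1 c c
    rw [one_mul, map_one] at h1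
    have h2 : x ((1 : H →L[ℂ] H) D.ξ) = 0 := h0
    rw [h2, inner_zero_left] at h1
    exact inner_self_eq_zero.mp h1
  exact congrArg (fun z : K →L[ℂ] H => z v) h

theorem orthonormal_u {ι : Type*} (q : ι → H →L[ℂ] H) (hq : ∀ i, q i ∈ D.A)
    (ho : Orthonormal ℂ fun i => q i D.ξ) {u : C} (hu : u ∈ unitary C) :
    Orthonormal ℂ fun i => q i (D.π u D.ξ) := by
  classical
  rw [orthonormal_iff_ite] at ho ⊢
  intro i j
  rw [← ho i j]
  have h1 := D.gram_inv (hq i) (hq j) 1 u u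
  rw [one_mul, Unitary.mul_star_self_of_mem hu, map_one] at h1
  exact h1

theorem diagonalize {n : ℕ} (x y : Fin n → H →L[ℂ] H) (hx : ∀ k, x k ∈ D.A)
    (hy : ∀ k, y k ∈ D.A) :
    ∃ (m : ℕ) (q : Fin m → H →L[ℂ] H) (t : Fin m → ℝ), (∀ j, q j ∈ D.A) ∧
      Orthonormal ℂ (fun j => q j D.ξ) ∧ ∀ (v : K) (S : H →L[ℂ] H),
      ∑ j, (t j : ℂ) * ⟪q j (D.V v), S (q j (D.V v))⟫_ℂ =
        (1/2) * ∑ k, (⟪adjoint (x k) (D.V v), S (y k (D.V v))⟫_ℂ +
          ⟪y k (D.V v), S (adjoint (x k) (D.V v))⟫_ℂ) := by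
  classical
  set p : Fin n → H := fun k => adjoint (x k) D.ξ with hp
  set r : Fin n → H := fun k => y k D.ξ with hr
  set T0 : H →L[ℂ] H := ∑ k, ((1/2 : ℝ) : ℂ) • (InnerProductSpace.rankOne ℂ (r k) (p k) +
    InnerProductSpace.rankOne ℂ (p k) (r k)) with hT0
  have hT0v : ∀ v, T0 v = ∑ k, ((1/2 : ℝ) : ℂ) • (⟪p k, v⟫_ℂ • r k + ⟪r k, v⟫_ℂ • p k) := by
    intro v
    rw [hT0, sum_apply]
    refine Finset.sum_congr rfl fun k _ => ?_
    rw [smul_apply, add_apply, InnerProductSpace.rankOne_apply, InnerProductSpace.rankOne_apply]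
  have hsym : ∀ v w, ⟪T0.toLinearMap v, w⟫_ℂ = ⟪v, T0.toLinearMap w⟫_ℂ := by
    intro v w
    show ⟪T0 v, w⟫_ℂ = ⟪v, T0 w⟫_ℂ
    rw [hT0v, hT0v, sum_inner, inner_sum]
    refine Finset.sum_congr rfl fun k _ => ?_
    simp only [inner_smul_left, inner_smul_right, inner_add_left, inner_add_right,
      Complex.conj_ofReal, inner_conj_symm]
    ring
  set W : Submodule ℂ H := Submodule.span ℂ (Set.range p ∪ Set.range r) with hWdef
  have hfd : FiniteDimensional ℂ W :=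
    FiniteDimensional.span_of_finite ℂ ((Set.finite_range p).union (Set.finite_range r))
  have hpW : ∀ j, p j ∈ W := fun j => Submodule.subset_span (Or.inl ⟨j, rfl⟩)
  have hrW : ∀ j, r j ∈ W := fun j => Submodule.subset_span (Or.inr ⟨j, rfl⟩)
  have hT0W : ∀ v, T0.toLinearMap v ∈ W := by
    intro v
    show T0 v ∈ W
    rw [hT0v]
    exact W.sum_mem fun k _ => W.smul_mem _ (W.add_mem (W.smul_mem _ (hrW k))
      (W.smul_mem _ (hpW k)))
  obtain ⟨m, g, t, hg, hgW, hexp, heig, _⟩ := exists_spectral T0.toLinearMap hsym W hT0W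
  -- lift the eigenvectors
  have hWle : W ≤ (D.A.toSubalgebra.toSubmodule).map
      (ContinuousLinearMap.apply ℂ H D.ξ : (H →L[ℂ] H) →L[ℂ] H).toLinearMap := by
    rw [hWdef, Submodule.span_le]
    rintro z (⟨k, rfl⟩ | ⟨k, rfl⟩)
    · exact ⟨adjoint (x k), D.mem_adjoint (hx k), rfl⟩
    · exact ⟨y k, hy k, rfl⟩
  have hlift : ∀ j, ∃ q ∈ D.A, q D.ξ = g j := by
    intro j
    obtain ⟨q, hq, hqe⟩ := hWle (hgW j)
    exact ⟨q, hq, hqe⟩
  choose q hqA hqg using hlift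
  have hexpq : ∀ (z : H →L[ℂ] H), z ∈ D.A → z D.ξ ∈ W → ∀ v : K,
      z (D.V v) = ∑ i, ⟪g i, z D.ξ⟫_ℂ • q i (D.V v) := by
    intro z hz hzW v
    have h1 : (z - ∑ i, ⟪g i, z D.ξ⟫_ℂ • q i) ∈ D.A :=
      sub_mem hz (sum_mem fun i _ => D.A.smul_mem (hqA i) _)
    have h2 : (z - ∑ i, ⟪g i, z D.ξ⟫_ℂ • q i) D.ξ = 0 := by
      rw [sub_apply, sum_apply]
      simp only [smul_apply, hqg]
      rw [← hexp _ hzW, sub_self]
    have h3 := D.inj h1 h2 v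
    rw [sub_apply, sum_apply] at h3
    simp only [smul_apply] at h3
    exact sub_eq_zero.mp h3
  refine ⟨m, q, t, hqA, ?_, ?_⟩
  · simpa only [hqg] using hg
  · intro v S
    set θ : Fin m → H := fun i => q i (D.V v) with hθ
    have hxe : ∀ k, adjoint (x k) (D.V v) = ∑ i, ⟪g i, p k⟫_ℂ • θ i := fun k =>
      hexpq _ (D.mem_adjoint (hx k)) (hpW k) v
    have hye : ∀ k, y k (D.V v) = ∑ i, ⟪g i, r k⟫_ℂ • θ i := fun k =>
      hexpq _ (hy k) (hrW k) v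
    simp_rw [hxe, hye]
    have h1 : ∀ k, ⟪∑ i, ⟪g i, p k⟫_ℂ • θ i, S (∑ i, ⟪g i, r k⟫_ℂ • θ i)⟫_ℂ +
        ⟪∑ i, ⟪g i, r k⟫_ℂ • θ i, S (∑ i, ⟪g i, p k⟫_ℂ • θ i)⟫_ℂ =
        ∑ i, ∑ j, (⟪p k, g i⟫_ℂ * ⟪g j, r k⟫_ℂ + ⟪r k, g i⟫_ℂ * ⟪g j, p k⟫_ℂ) *
          ⟪θ i, S (θ j)⟫_ℂ := by
      intro k
      rw [map_sum, map_sum, sum_inner, sum_inner, ← Finset.sum_add_distrib]
      refine Finset.sum_congr rfl fun i _ => ?_
      rw [inner_sum, inner_sum, ← Finset.sum_add_distrib]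
      refine Finset.sum_congr rfl fun j _ => ?_
      rw [map_smul, map_smul, inner_smul_left, inner_smul_right, inner_smul_left,
        inner_smul_right, inner_conj_symm, inner_conj_symm]
      ring
    simp_rw [h1]
    rw [Finset.sum_comm, Finset.mul_sum]
    refine Finset.sum_congr rfl fun i _ => ?_
    rw [Finset.sum_comm, Finset.mul_sum]
    have h2 : ∀ j, (1/2 : ℂ) * ∑ k, (⟪p k, g i⟫_ℂ * ⟪g j, r k⟫_ℂ + ⟪r k, g i⟫_ℂ * ⟪g j, p k⟫_ℂ) *
        ⟪θ i, S (θ j)⟫_ℂ = (t i : ℂ) * ⟪g j, g i⟫_ℂ * ⟪θ i, S (θ j)⟫_ℂ := by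
      intro j
      rw [← Finset.sum_mul, ← mul_assoc]
      congr 1
      have h3 : ⟪g j, T0 (g i)⟫_ℂ = (t i : ℂ) * ⟪g j, g i⟫_ℂ := by
        have h4 : T0 (g i) = (t i : ℂ) • g i := heig i
        rw [h4, inner_smul_right]
      rw [← h3, hT0v, inner_sum, Finset.mul_sum]
      refine Finset.sum_congr rfl fun k _ => ?_
      rw [inner_smul_right, inner_add_right, inner_smul_right, inner_smul_right]
      push_cast
      ring
    simp_rw [h2]
    rw [Finset.sum_eq_single i]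
    · rw [inner_self_eq_norm_sq_to_K, hg.1 i]; simp [hθ]
    · intro j _ hj
      rw [hg.2 hj]; simp
    · simp

end Central

end Pool.Agent.MP_86f3ed
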