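import Pool.Agent.H.MP_86f3ed_an.Trc.Diag

open scoped InnerProductSpace Topology
open Filter ContinuousLinearMap

namespace Pool.Agent.MP_86f3ed

namespace Central

variable {C : Type*} [CStarAlgebra C] {K : Type*} [NormedAddCommGroup K]
    [InnerProductSpace ℂ K] [CompleteSpace K] {T : Tr C K} {H : Type*} [NormedAddCommGroup H]
    [InnerProductSpace ℂ H] [CompleteSpace H] (D : Central T H)

theorem norm_ξ (hη : ‖T.η‖ = 1) : ‖D.ξ‖ = 1 := by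
  rw [← D.V_η, D.norm_V, hη]

theorem norm_πξ (hη : ‖T.η‖ = 1) {u : C} (hu : u ∈ unitary C) : ‖D.π u D.ξ‖ = 1 := by
  rw [← D.V_e, D.norm_V, T.e_apply, T.norm_σ_of_unitary hu, hη]

/-- The near-invariance of the diagonalized form. -/
theorem near_inv (hη : ‖T.η‖ = 1) {n m : ℕ} (x y : Fin n → H →L[ℂ] H)
    (q : Fin m → H →L[ℂ] H) (t : Fin m → ℝ)
    (hdiag : ∀ (v : K) (S : H →L[ℂ] H),
      ∑ j, (t j : ℂ) * ⟪q j (D.V v), S (q j (D.V v))⟫_ℂ =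
        (1/2) * ∑ k, (⟪adjoint (x k) (D.V v), S (y k (D.V v))⟫_ℂ +
          ⟪y k (D.V v), S (adjoint (x k) (D.V v))⟫_ℂ))
    {ε : ℝ} (hε : 0 ≤ ε) {u : C} (hu : u ∈ unitary C)
    (hcen : ∀ S, ‖D.π u * (∑ k, x k * S * y k) - (∑ k, x k * S * y k) * D.π u‖ ≤ ε * ‖S‖)
    (S : H →L[ℂ] H) (hS : ‖S‖ ≤ 1) :
    ‖∑ j, (t j : ℂ) * (⟪q j D.ξ, S (q j D.ξ)⟫_ℂ - ⟪q j (D.π u D.ξ), S (q j (D.π u D.ξ))⟫_ℂ)‖
      ≤ ε := by
  set w : (H →L[ℂ] H) → (H →L[ℂ] H) := fun S => ∑ k, x k * S * y k with hw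
  -- the two evaluations
  have hev : ∀ v : K, ∑ j, (t j : ℂ) * ⟪q j (D.V v), S (q j (D.V v))⟫_ℂ =
      (1/2) * (⟪D.V v, w S (D.V v)⟫_ℂ + ⟪w (adjoint S) (D.V v), D.V v⟫_ℂ) := by
    intro v
    rw [hdiag]
    congr 1
    rw [Finset.sum_add_distrib, hw]
    simp only
    rw [sum_apply, sum_apply, inner_sum, sum_inner]
    congr 1
    · refine Finset.sum_congr rfl fun k _ => ?_
      rw [adjoint_inner_left]; rfl
    · refine Finset.sum_congr rfl fun k _ => ?_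
      show ⟪y k (D.V v), S (adjoint (x k) (D.V v))⟫_ℂ =
        ⟪x k (adjoint S (y k (D.V v))), D.V v⟫_ℂ
      rw [← adjoint_inner_right (x k) (adjoint S (y k (D.V v))) (D.V v),
        adjoint_inner_left S]
  have hξ1 := D.norm_ξ hη
  have hu1 := D.norm_πξ hη hu
  set ζ := D.π u D.ξ with hζ
  -- commutator estimates
  have huπ : ∀ a b : H, ⟪D.π u a, D.π u b⟫_ℂ = ⟪a, b⟫_ℂ := by
    intro a b
    rw [← adjoint_inner_right, ← π_star]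
    have : D.π (star u) (D.π u b) = b := by
      have h : (D.π (star u) * D.π u) b = b := by
        rw [← map_mul, Unitary.star_mul_self_of_mem hu, map_one]; rfl
      exact h
    rw [this]
  have hc1 : ‖⟪D.ξ, w S D.ξ⟫_ℂ - ⟪ζ, w S ζ⟫_ℂ‖ ≤ ε := by
    have h1 : ⟪D.ξ, w S D.ξ⟫_ℂ - ⟪ζ, w S ζ⟫_ℂ = ⟪ζ, (D.π u * w S - w S * D.π u) D.ξ⟫_ℂ := by
      rw [sub_apply, inner_sub_right]
      congr 1
      show _ = ⟪D.π u D.ξ, D.π u (w S D.ξ)⟫_ℂ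
      rw [huπ]
    rw [h1]
    refine (norm_inner_le_norm _ _).trans ?_
    rw [hu1, one_mul]
    refine (le_opNorm _ _).trans ?_
    rw [hξ1, mul_one]
    refine (hcen S).trans ?_
    calc ε * ‖S‖ ≤ ε * 1 := mul_le_mul_of_nonneg_left hS hε
      _ = ε := mul_one _
  have hS' : ‖adjoint S‖ ≤ 1 := by
    rw [LinearIsometryEquiv.norm_map]; exact hS
  have hc2 : ‖⟪w (adjoint S) D.ξ, D.ξ⟫_ℂ - ⟪w (adjoint S) ζ, ζ⟫_ℂ‖ ≤ ε := by
    have h1 : ⟪w (adjoint S) D.ξ, D.ξ⟫_ℂ - ⟪w (adjoint S) ζ, ζ⟫_ℂ =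
        ⟪(D.π u * w (adjoint S) - w (adjoint S) * D.π u) D.ξ, ζ⟫_ℂ := by
      rw [sub_apply, inner_sub_left]
      congr 1
      show _ = ⟪D.π u (w (adjoint S) D.ξ), D.π u D.ξ⟫_ℂ
      rw [huπ]
    rw [h1]
    refine (norm_inner_le_norm _ _).trans ?_
    rw [hu1, mul_one]
    refine (le_opNorm _ _).trans ?_
    rw [hξ1, mul_one]
    refine (hcen (adjoint S)).trans ?_
    calc ε * ‖adjoint S‖ ≤ ε * 1 := mul_le_mul_of_nonneg_left hS' hε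
      _ = ε := mul_one _
  have e1 := hev T.η
  have e2 := hev (T.σ u T.η)
  rw [D.V_η] at e1
  rw [D.V_σ, D.V_η] at e2
  have h3 : ∑ j, (t j : ℂ) * (⟪q j D.ξ, S (q j D.ξ)⟫_ℂ -
      ⟪q j (D.π u D.ξ), S (q j (D.π u D.ξ))⟫_ℂ) =
      (1/2) * ((⟪D.ξ, w S D.ξ⟫_ℂ - ⟪ζ, w S ζ⟫_ℂ) +
        (⟪w (adjoint S) D.ξ, D.ξ⟫_ℂ - ⟪w (adjoint S) ζ, ζ⟫_ℂ)) := by
    simp_rw [mul_sub]
    rw [Finset.sum_sub_distrib, e1, e2]
    ring
  rw [h3, norm_mul]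
  have h4 : ‖(1/2 : ℂ)‖ = 1/2 := by simp
  rw [h4]
  have h5 := (norm_add_le (⟪D.ξ, w S D.ξ⟫_ℂ - ⟪ζ, w S ζ⟫_ℂ)
    (⟪w (adjoint S) D.ξ, D.ξ⟫_ℂ - ⟪w (adjoint S) ζ, ζ⟫_ℂ))
  linarith

theorem exists_theta (hη : ‖T.η‖ = 1) {n : ℕ} (x y : Fin n → H →L[ℂ] H)
    (hx : ∀ k, x k ∈ D.A) (hy : ∀ k, y k ∈ D.A) (hw1 : ‖∑ k, x k * y k - 1‖ ≤ 1/2)
    (F : Finset C) (hF : ∀ u ∈ F, u ∈ unitary C) {ε : ℝ} (hε : 0 ≤ ε)
    (hcen : ∀ u ∈ F, ∀ S, ‖D.π u * (∑ k, x k * S * y k) -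
      (∑ k, x k * S * y k) * D.π u‖ ≤ ε * ‖S‖) :
    ∃ (m : ℕ) (θ : Fin m → K →L[ℂ] H),
      (∀ i j, T.InB ((adjoint (θ i)).comp (θ j))) ∧ (∀ v, ∑ i, ‖θ i v‖ ^ 2 = ‖v‖ ^ 2) ∧
      ∀ u ∈ F, ∃ e f : Fin m → H, Orthonormal ℂ e ∧ Orthonormal ℂ f ∧
        1 - (∑ i, ∑ j, ⟪f j, e i⟫_ℂ * ⟪θ i T.η, θ j (T.σ u T.η)⟫_ℂ).re ≤ 4 * ε := by
  classical
  obtain ⟨m, q, t, hqA, ho, hdiag⟩ := D.diagonalize x y hx hy
  set l : Fin m → ℝ := fun j => √|t j| with hl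
  have hl0 : ∀ j, 0 ≤ l j := fun j => Real.sqrt_nonneg _
  have hl2 : ∀ j, (l j) ^ 2 = |t j| := fun j => Real.sq_sqrt (abs_nonneg _)
  set lam : Fin m → ℝ := fun j => (SignType.sign (t j) : ℝ) * l j with hlam
  have hlamabs : ∀ j, |lam j| = l j := by
    intro j
    simp only [hlam]
    rw [abs_mul, abs_of_nonneg (hl0 j)]
    rcases lt_trichotomy (t j) 0 with h | h | h
    · simp [sign_neg h]
    · simp [h, hl]
    · simp [sign_pos h]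
  have hlamt : ∀ j, lam j * |lam j| = t j := by
    intro j
    rw [hlamabs]
    simp only [hlam]
    rw [mul_assoc, ← sq, hl2]
    exact sign_mul_abs (t j)
  set θ0 : Fin m → K →L[ℂ] H := fun j => (q j).comp D.V with hθ0
  have hθ0η : ∀ j, θ0 j T.η = q j D.ξ := fun j => by rw [hθ0]; simp only [comp_apply, D.V_η]
  have hθ0u : ∀ j (u : C), θ0 j (T.σ u T.η) = q j (D.π u D.ξ) := fun j u => by
    rw [hθ0]; simp only [comp_apply, D.V_σ, D.V_η]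
  have hB0 : ∀ i j, T.InB ((adjoint (θ0 i)).comp (θ0 j)) := fun i j => D.inB (hqA i) (hqA j)
  set g : K →L[ℂ] K := ∑ i, (((l i) ^ 2 : ℝ) : ℂ) • ((adjoint (θ0 i)).comp (θ0 i)) with hg
  have hgsa : IsSelfAdjoint g := by
    rw [isSelfAdjoint_iff_isSymmetric]
    intro v w
    show ⟪g v, w⟫_ℂ = ⟪v, g w⟫_ℂ
    rw [← inner_conj_symm, hg, Tr.inner_gram, Tr.inner_gram, map_sum]
    refine Finset.sum_congr rfl fun i _ => ?_
    rw [map_mul, inner_conj_symm, Complex.conj_ofReal]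
  have hlow : ∀ v, (1/4) * ‖v‖ ^ 2 ≤ RCLike.re ⟪v, g v⟫_ℂ := by
    intro v
    rw [hg, Tr.inner_gram]
    have h1 : ∑ i, (((l i) ^ 2 : ℝ) : ℂ) * ⟪θ0 i v, θ0 i v⟫_ℂ =
        ((∑ i, |t i| * ‖θ0 i v‖ ^ 2 : ℝ) : ℂ) := by
      push_cast
      refine Finset.sum_congr rfl fun i _ => ?_
      rw [inner_self_eq_norm_sq_to_K, ← Complex.ofReal_pow, hl2]
      rfl
    rw [h1]
    show _ ≤ (((∑ i, |t i| * ‖θ0 i v‖ ^ 2 : ℝ) : ℂ)).re
    rw [Complex.ofReal_re]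
    have h2 := hdiag v 1
    have h3 : ∑ j, (t j : ℂ) * ⟪q j (D.V v), (1 : H →L[ℂ] H) (q j (D.V v))⟫_ℂ =
        ((∑ i, t i * ‖θ0 i v‖ ^ 2 : ℝ) : ℂ) := by
      push_cast
      refine Finset.sum_congr rfl fun i _ => ?_
      show (t i : ℂ) * ⟪θ0 i v, θ0 i v⟫_ℂ = _
      rw [inner_self_eq_norm_sq_to_K]
      rfl
    have h5 : (1/2 : ℂ) * ∑ k, (⟪adjoint (x k) (D.V v), (1 : H →L[ℂ] H) (y k (D.V v))⟫_ℂ +
          ⟪y k (D.V v), (1 : H →L[ℂ] H) (adjoint (x k) (D.V v))⟫_ℂ) =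
        (((⟪D.V v, (∑ k, x k * y k) (D.V v)⟫_ℂ).re : ℝ) : ℂ) := by
      have h6 : ∑ k, (⟪adjoint (x k) (D.V v), (1 : H →L[ℂ] H) (y k (D.V v))⟫_ℂ +
          ⟪y k (D.V v), (1 : H →L[ℂ] H) (adjoint (x k) (D.V v))⟫_ℂ) =
          ⟪D.V v, (∑ k, x k * y k) (D.V v)⟫_ℂ +
            (starRingEnd ℂ) ⟪D.V v, (∑ k, x k * y k) (D.V v)⟫_ℂ := by
        rw [Finset.sum_add_distrib, sum_apply, inner_sum, map_sum]
        congr 1
        · refine Finset.sum_congr rfl fun k _ => ?_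
          rw [adjoint_inner_left]; rfl
        · refine Finset.sum_congr rfl fun k _ => ?_
          rw [inner_conj_symm]
          show ⟪y k (D.V v), adjoint (x k) (D.V v)⟫_ℂ = ⟪x k (y k (D.V v)), D.V v⟫_ℂ
          rw [adjoint_inner_right]
      rw [h6, Complex.add_conj]
      push_cast
      ring
    rw [h3, h5] at h2
    have h7 : ∑ i, t i * ‖θ0 i v‖ ^ 2 = (⟪D.V v, (∑ k, x k * y k) (D.V v)⟫_ℂ).re := by
      exact_mod_cast h2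
    have h8 : ∑ i, t i * ‖θ0 i v‖ ^ 2 ≤ ∑ i, |t i| * ‖θ0 i v‖ ^ 2 :=
      Finset.sum_le_sum fun i _ => mul_le_mul_of_nonneg_right (le_abs_self _) (by positivity)
    have h9 : (1/2) * ‖v‖ ^ 2 ≤ (⟪D.V v, (∑ k, x k * y k) (D.V v)⟫_ℂ).re := by
      have h10 : ⟪D.V v, (∑ k, x k * y k) (D.V v)⟫_ℂ = ⟪D.V v, D.V v⟫_ℂ +
          ⟪D.V v, (∑ k, x k * y k - 1) (D.V v)⟫_ℂ := by
        rw [sub_apply, inner_sub_right]
        show _ = ⟪D.V v, D.V v⟫_ℂ + (_ - ⟪D.V v, D.V v⟫_ℂ)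
        ring
      have h11 : ‖⟪D.V v, (∑ k, x k * y k - 1) (D.V v)⟫_ℂ‖ ≤ (1/2) * ‖v‖ ^ 2 := by
        refine (norm_inner_le_norm _ _).trans ?_
        have h12 : ‖(∑ k, x k * y k - 1) (D.V v)‖ ≤ (1/2) * ‖D.V v‖ :=
          (le_opNorm _ _).trans (mul_le_mul_of_nonneg_right hw1 (norm_nonneg _))
        rw [D.norm_V] at h12 ⊢
        nlinarith [norm_nonneg v]
      have h13 : (⟪D.V v, D.V v⟫_ℂ).re = ‖v‖ ^ 2 := by
        rw [inner_self_eq_norm_sq_to_K, D.norm_V]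
        norm_cast
      have h14 := (abs_le.mp (Complex.abs_re_le_norm
        ⟪D.V v, (∑ k, x k * y k - 1) (D.V v)⟫_ℂ)).1
      rw [h10, Complex.add_re, h13]
      linarith
    nlinarith [sq_nonneg ‖v‖]
  obtain ⟨P, P₁, k, hPsa, hP₁, hksa, hcomm, hPP, hkP, hPk, hP⟩ := exists_polar g hgsa hlow
  have hgB : T.InB g := Tr.InB.sum T _ fun i _ => Tr.InB.smul T _ (hB0 i i)
  have hkB : T.InB k := fun d => (hcomm _ (hgB d)).2.2
  have sa : ∀ {x : K →L[ℂ] K}, IsSelfAdjoint x → ∀ v w, ⟪x v, w⟫_ℂ = ⟪v, x w⟫_ℂ := by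
    intro x hx v w
    exact (isSelfAdjoint_iff_isSymmetric.mp hx) v w
  have hPkv : ∀ v, P (k v) = v := fun v => by rw [← mulA, hPk]; rfl
  refine ⟨m, fun j => (l j : ℂ) • (θ0 j).comp k, ?_, ?_, ?_⟩
  · intro i j
    have h1 : (adjoint ((l i : ℂ) • (θ0 i).comp k)).comp ((l j : ℂ) • (θ0 j).comp k) =
        ((l i : ℂ) * (l j : ℂ)) • (k * ((adjoint (θ0 i)).comp (θ0 j)) * k) := by
      refine ContinuousLinearMap.ext fun v => ?_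
      refine ext_inner_left ℂ fun w => ?_
      rw [comp_apply, adjoint_inner_right, smul_apply, smul_apply, smul_apply, comp_apply,
        comp_apply, inner_smul_left, inner_smul_right, inner_smul_right, Complex.conj_ofReal]
      show _ = (l i : ℂ) * (l j : ℂ) * ⟪w, k ((adjoint (θ0 i)) (θ0 j (k v)))⟫_ℂ
      rw [← sa hksa, adjoint_inner_right]
      show (l i : ℂ) * ((l j : ℂ) * ⟪θ0 i (k w), θ0 j (k v)⟫_ℂ) =
        (l i : ℂ) * (l j : ℂ) * ⟪θ0 i (k w), θ0 j (k v)⟫_ℂ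
      ring
    rw [h1]
    exact Tr.InB.smul T _ (Tr.InB.mul T (Tr.InB.mul T hkB (hB0 i j)) hkB)
  · intro v
    have h1 := Tr.inner_gram θ0 l (k v) (k v)
    rw [← hg, ← hPP, mulA, ← sa hPsa, hPkv, inner_self_eq_norm_sq_to_K] at h1
    have h3 : ∀ i, (((l i) ^ 2 : ℝ) : ℂ) * ⟪θ0 i (k v), θ0 i (k v)⟫_ℂ =
        ((‖((l i : ℂ) • (θ0 i).comp k) v‖ ^ 2 : ℝ) : ℂ) := by
      intro i
      rw [inner_self_eq_norm_sq_to_K, smul_apply, comp_apply, norm_smul, mul_pow,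
        Complex.norm_real, Real.norm_eq_abs, sq_abs]
      push_cast; rfl
    simp_rw [h3] at h1
    have h4 : ((∑ i, ‖((l i : ℂ) • (θ0 i).comp k) v‖ ^ 2 : ℝ) : ℂ) = ((‖v‖ ^ 2 : ℝ) : ℂ) := by
      push_cast at h1 ⊢
      exact h1.symm
    exact_mod_cast h4
  · intro u huF
    have hu := hF u huF
    have he : Orthonormal ℂ fun i => θ0 i T.η := by simpa only [hθ0η] using ho
    have hf : Orthonormal ℂ fun i => θ0 i (T.σ u T.η) := by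
      simp only [hθ0u]
      exact D.orthonormal_u q hqA ho hu
    refine ⟨fun i => θ0 i T.η, fun i => θ0 i (T.σ u T.η), he, hf, ?_⟩
    have hM := mazur he hf lam ε (by
      intro S hS
      have hS1 : ‖S‖ ≤ 1 := ContinuousLinearMap.opNorm_le_bound _ zero_le_one
        (fun v => by rw [one_mul]; exact hS v)
      have h := D.near_inv hη x y q t hdiag hε hu (hcen u huF) S hS1
      simp only [hθ0η, hθ0u, hlamt]
      exact h)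
    simp_rw [hlamabs] at hM
    have hlamsq : ∀ j, (lam j) ^ 2 = (l j) ^ 2 := fun j => by rw [← hlamabs, sq_abs]
    simp_rw [hlamsq] at hM
    have h := T.cross_ge hη θ0 l hB0 hPsa hP₁ hksa hcomm hPP hkP hPk hP hu he hf hM
    exact h

end Central

end Pool.Agent.MP_86f3ed
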