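import Pool.Agent.H.MP_86f3ed_an.Trc.Root
import Pool.Agent.H.MP_86f3ed_an.Trc.Theta

open scoped InnerProductSpace Topology
open Filter ContinuousLinearMap

namespace Pool.Agent.MP_86f3ed

set_option linter.unusedSectionVars false

namespace Tr

variable {C : Type*} [CStarAlgebra C] {K : Type*} [NormedAddCommGroup K]
    [InnerProductSpace ℂ K] [CompleteSpace K] (T : Tr C K)

/-- Operators commuting with the commutant of the right multiplications. -/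
def InB' (x : K →L[ℂ] K) : Prop := ∀ b, T.InB b → x * b = b * x

theorem InB'_R (d : C) : T.InB' (T.R d) := fun _ hb => (hb d).symm

/-- The averaging map given by a family of operators. -/
noncomputable def Ep {κ : Type*} [Fintype κ] (r : κ → K →L[ℂ] K) :
    (K →L[ℂ] K) →ₗ[ℂ] (K →L[ℂ] K) where
  toFun S := ∑ i, adjoint (r i) * S * r i
  map_add' S S' := by
    rw [← Finset.sum_add_distrib]
    exact Finset.sum_congr rfl fun i _ => by rw [mul_add, add_mul]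
  map_smul' z S := by
    rw [Finset.smul_sum]
    exact Finset.sum_congr rfl fun i _ => by
      rw [mul_smul_comm, smul_mul_assoc]; rfl

theorem Ep_apply {κ : Type*} [Fintype κ] (r : κ → K →L[ℂ] K) (S : K →L[ℂ] K) :
    Ep r S = ∑ i, adjoint (r i) * S * r i := rfl

theorem inner_Ep {κ : Type*} [Fintype κ] (r : κ → K →L[ℂ] K) (S : K →L[ℂ] K) (x y : K) :
    ⟪x, Ep r S y⟫_ℂ = ∑ i, ⟪r i x, S (r i y)⟫_ℂ := by
  rw [Ep_apply, sum_apply, inner_sum]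
  refine Finset.sum_congr rfl fun i _ => ?_
  rw [mulA, mulA, adjoint_inner_right]

theorem sum_norm_inner_S_le {κ : Type*} [Fintype κ] (y z : κ → K) (S : K →L[ℂ] K) :
    ‖∑ l, ⟪y l, S (z l)⟫_ℂ‖ ≤ ‖S‖ * (√(∑ l, ‖y l‖ ^ 2) * √(∑ l, ‖z l‖ ^ 2)) := by
  refine (norm_sum_le _ _).trans ?_
  have h1 : ∀ l, ‖⟪y l, S (z l)⟫_ℂ‖ ≤ ‖S‖ * (‖y l‖ * ‖z l‖) := by
    intro l
    refine (norm_inner_le_norm _ _).trans ?_
    calc ‖y l‖ * ‖S (z l)‖ ≤ ‖y l‖ * (‖S‖ * ‖z l‖) :=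
          mul_le_mul_of_nonneg_left (le_opNorm _ _) (norm_nonneg _)
      _ = ‖S‖ * (‖y l‖ * ‖z l‖) := by ring
  refine (Finset.sum_le_sum fun l _ => h1 l).trans ?_
  rw [← Finset.mul_sum]
  exact mul_le_mul_of_nonneg_left (Real.sum_mul_le_sqrt_mul_sqrt _ _ _) (norm_nonneg _)

theorem sum_inner_of_norm {H : Type*} [NormedAddCommGroup H]
    [InnerProductSpace ℂ H] {m : ℕ} (θ : Fin m → K →L[ℂ] H)
    (hθ : ∀ v, ∑ i, ‖θ i v‖ ^ 2 = ‖v‖ ^ 2) (x y : K) : ∑ i, ⟪θ i x, θ i y⟫_ℂ = ⟪x, y⟫_ℂ := by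
  have h1 : ∀ i, ⟪θ i x, θ i y⟫_ℂ = (((‖θ i (x + y)‖ ^ 2 - ‖θ i (x - y)‖ ^ 2 : ℝ) : ℂ) +
      ((‖θ i (x - Complex.I • y)‖ ^ 2 - ‖θ i (x + Complex.I • y)‖ ^ 2 : ℝ) : ℂ) *
        Complex.I) / 4 := by
    intro i
    rw [inner_eq_sum_norm_sq_div_four (𝕜 := ℂ)]
    simp only [map_add, map_sub, map_smul]
    push_cast
    rfl
  have h2 : ⟪x, y⟫_ℂ = (((‖x + y‖ ^ 2 - ‖x - y‖ ^ 2 : ℝ) : ℂ) +
      ((‖x - Complex.I • y‖ ^ 2 - ‖x + Complex.I • y‖ ^ 2 : ℝ) : ℂ) * Complex.I) / 4 := by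
    rw [inner_eq_sum_norm_sq_div_four (𝕜 := ℂ)]
    push_cast
    rfl
  rw [h2, Finset.sum_congr rfl fun i _ => h1 i, ← Finset.sum_div, Finset.sum_add_distrib,
    ← Finset.sum_mul, ← Complex.ofReal_sum, ← Complex.ofReal_sum, Finset.sum_sub_distrib,
    Finset.sum_sub_distrib, hθ, hθ, hθ, hθ]

theorem norm_Ep_le {κ : Type*} [Fintype κ] (r : κ → K →L[ℂ] K)
    (hr : ∀ v, ∑ i, ‖r i v‖ ^ 2 = ‖v‖ ^ 2) (S : K →L[ℂ] K) : ‖Ep r S‖ ≤ ‖S‖ := by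
  refine opNorm_le_bound _ (norm_nonneg _) fun y => ?_
  have h : ∀ x, ‖⟪x, Ep r S y⟫_ℂ‖ ≤ ‖S‖ * (‖x‖ * ‖y‖) := by
    intro x
    rw [inner_Ep]
    refine (sum_norm_inner_S_le _ _ S).trans (le_of_eq ?_)
    rw [hr, hr, Real.sqrt_sq (norm_nonneg _), Real.sqrt_sq (norm_nonneg _)]
  have h1 := h (Ep r S y)
  rw [inner_self_eq_norm_sq_to_K] at h1
  have h2 : ‖Ep r S y‖ ^ 2 ≤ ‖S‖ * (‖Ep r S y‖ * ‖y‖) := by simpa using h1
  rcases (norm_nonneg (Ep r S y)).eq_or_lt with h0 | h0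
  · rw [← h0]; positivity
  · nlinarith

theorem Ep_bimod {κ : Type*} [Fintype κ] (r : κ → K →L[ℂ] K) (hr : ∀ i, T.InB (r i))
    {x y : K →L[ℂ] K} (hx : T.InB' x) (hy : T.InB' y) (S : K →L[ℂ] K) :
    Ep r (x * S * y) = x * Ep r S * y := by
  rw [Ep_apply, Ep_apply, Finset.mul_sum, Finset.sum_mul]
  refine Finset.sum_congr rfl fun i _ => ?_
  calc adjoint (r i) * (x * S * y) * r i = (adjoint (r i) * x) * S * (y * r i) := by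
        simp only [mul_assoc]
    _ = (x * adjoint (r i)) * S * (r i * y) := by
        rw [hx _ (InB.adj T (hr i)), hy _ (hr i)]
    _ = x * (adjoint (r i) * S * r i) * y := by simp only [mul_assoc]

theorem Ep_fix {κ : Type*} [Fintype κ] (r : κ → K →L[ℂ] K) (hr : ∀ i, T.InB (r i))
    (hsum : ∀ x y, ∑ i, ⟪r i x, r i y⟫_ℂ = ⟪x, y⟫_ℂ)
    {S : K →L[ℂ] K} (hS : T.InB' S) : Ep r S = S := by
  refine ContinuousLinearMap.ext fun y => ?_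
  refine ext_inner_left ℂ fun x => ?_
  rw [inner_Ep, ← hsum x (S y)]
  refine Finset.sum_congr rfl fun i _ => ?_
  rw [← mulA, hS _ (hr i), mulA]

theorem inv_of_coeff {κ : Type*} [Fintype κ] {S : K →L[ℂ] K} (α β : κ → K)
    (hα : ∑ l, ‖α l‖ ^ 2 = 1) (hβ : ∑ l, ‖β l‖ ^ 2 = 1) {ε : ℝ} (_ : 0 ≤ ε)
    (h : 1 - (∑ l, ⟪α l, β l⟫_ℂ).re ≤ 4 * ε) :
    ‖∑ l, ⟪β l, S (β l)⟫_ℂ - ∑ l, ⟪α l, S (α l)⟫_ℂ‖ ≤ 2 * √(8 * ε) * ‖S‖ := by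
  have h1 : ∑ l, ‖β l - α l‖ ^ 2 ≤ 8 * ε := by
    have h2 : ∀ l, ‖β l - α l‖ ^ 2 = ‖β l‖ ^ 2 + ‖α l‖ ^ 2 - 2 * (⟪α l, β l⟫_ℂ).re := by
      intro l
      rw [@norm_sub_sq ℂ]
      have : RCLike.re ⟪β l, α l⟫_ℂ = (⟪α l, β l⟫_ℂ).re := inner_re_symm _ _
      rw [this]; ring
    rw [Finset.sum_congr rfl fun l _ => h2 l, Finset.sum_sub_distrib, Finset.sum_add_distrib,
      ← Finset.mul_sum, hα, hβ, ← Complex.re_sum]
    linarith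
  have h3 : ∑ l, ⟪β l, S (β l)⟫_ℂ - ∑ l, ⟪α l, S (α l)⟫_ℂ =
      ∑ l, ⟪β l - α l, S (β l)⟫_ℂ + ∑ l, ⟪α l, S (β l - α l)⟫_ℂ := by
    rw [← Finset.sum_sub_distrib, ← Finset.sum_add_distrib]
    refine Finset.sum_congr rfl fun l _ => ?_
    rw [inner_sub_left, map_sub, inner_sub_right]; ring
  rw [h3]
  refine (norm_add_le _ _).trans ?_
  have h4 := sum_norm_inner_S_le (fun l => β l - α l) β S
  have h5 := sum_norm_inner_S_le α (fun l => β l - α l) S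
  rw [hβ, Real.sqrt_one, mul_one] at h4
  rw [hα, Real.sqrt_one, one_mul] at h5
  have h6 : √(∑ l, ‖β l - α l‖ ^ 2) ≤ √(8 * ε) := Real.sqrt_le_sqrt h1
  have h7 := mul_le_mul_of_nonneg_left h6 (norm_nonneg S)
  linarith

theorem Ep_inv (hη : ‖T.η‖ = 1) {H : Type*} [NormedAddCommGroup H]
    [InnerProductSpace ℂ H] [CompleteSpace H] {m : ℕ} (θ : Fin m → K →L[ℂ] H)
    (hθ : ∀ v, ∑ i, ‖θ i v‖ ^ 2 = ‖v‖ ^ 2)
    (r : Fin m → Fin m → K →L[ℂ] K)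
    (hr : ∀ j l x y, ∑ i, ⟪r i j x, r i l y⟫_ℂ = ⟪θ j x, θ l y⟫_ℂ)
    {u : C} (hu : u ∈ unitary C) {e f : Fin m → H} (he : Orthonormal ℂ e) (hf : Orthonormal ℂ f)
    {ε : ℝ} (hε : 0 ≤ ε)
    (h : 1 - (∑ i, ∑ j, ⟪f j, e i⟫_ℂ * ⟪θ i T.η, θ j (T.σ u T.η)⟫_ℂ).re ≤ 4 * ε)
    (S : K →L[ℂ] K) :
    ‖⟪T.σ u T.η, Ep (fun p : Fin m × Fin m => r p.1 p.2) S (T.σ u T.η)⟫_ℂ -
      ⟪T.η, Ep (fun p : Fin m × Fin m => r p.1 p.2) S T.η⟫_ℂ‖ ≤ 2 * √(8 * ε) * ‖S‖ := by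
  obtain ⟨N, a, b, ha, hb, hab⟩ := exists_coeff e f
  have hnr : ∀ v, ∑ i, ∑ j, ‖r i j v‖ ^ 2 = ‖v‖ ^ 2 := by
    intro v
    rw [Finset.sum_comm, ← hθ v]
    refine Finset.sum_congr rfl fun j _ => ?_
    have h1 := hr j j v v
    simp_rw [inner_self_eq_norm_sq_to_K] at h1
    exact_mod_cast h1
  set α : Fin m × Fin N → K := fun p => ∑ j, a p.2 j • r p.1 j T.η with hα
  set β : Fin m × Fin N → K := fun p => ∑ j, b p.2 j • r p.1 j (T.σ u T.η) with hβ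
  have hαn : ∑ l, ‖α l‖ ^ 2 = 1 := by
    rw [Fintype.sum_prod_type]
    simp only [hα]
    rw [Finset.sum_congr rfl fun i _ => sum_norm_coeff_self he a ha fun j => r i j T.η, hnr, hη]
    norm_num
  have hβn : ∑ l, ‖β l‖ ^ 2 = 1 := by
    rw [Fintype.sum_prod_type]
    simp only [hβ]
    rw [Finset.sum_congr rfl fun i _ => sum_norm_coeff_self hf b hb fun j => r i j (T.σ u T.η),
      hnr, T.norm_σ_of_unitary hu, hη]
    norm_num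
  have hαβ : ∑ l, ⟪α l, β l⟫_ℂ =
      ∑ i, ∑ j, ⟪f j, e i⟫_ℂ * ⟪θ i T.η, θ j (T.σ u T.η)⟫_ℂ := by
    rw [Fintype.sum_prod_type]
    simp only [hα, hβ]
    simp_rw [sum_inner_coeff, hab]
    rw [Finset.sum_comm]
    refine Finset.sum_congr rfl fun j _ => ?_
    rw [Finset.sum_comm]
    refine Finset.sum_congr rfl fun l _ => ?_
    rw [← Finset.mul_sum, hr]
  have hαS : ∑ l, ⟪α l, S (α l)⟫_ℂ =
      ⟪T.η, Ep (fun p : Fin m × Fin m => r p.1 p.2) S T.η⟫_ℂ := by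
    rw [inner_Ep, Fintype.sum_prod_type, Fintype.sum_prod_type]
    refine Finset.sum_congr rfl fun i _ => ?_
    simp only [hα, map_sum, map_smul]
    exact sum_inner_coeff_self he a ha (fun j => r i j T.η) fun j => S (r i j T.η)
  have hβS : ∑ l, ⟪β l, S (β l)⟫_ℂ =
      ⟪T.σ u T.η, Ep (fun p : Fin m × Fin m => r p.1 p.2) S (T.σ u T.η)⟫_ℂ := by
    rw [inner_Ep, Fintype.sum_prod_type, Fintype.sum_prod_type]
    refine Finset.sum_congr rfl fun i _ => ?_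
    simp only [hβ, map_sum, map_smul]
    exact sum_inner_coeff_self hf b hb (fun j => r i j (T.σ u T.η))
      fun j => S (r i j (T.σ u T.η))
  rw [← hαS, ← hβS]
  exact inv_of_coeff α β hαn hβn hε (by rw [hαβ]; exact h)

theorem exists_E_of_family {κ : Type*} [Fintype κ] (ρ : κ → K →L[ℂ] K)
    (hρ : ∀ i, T.InB (ρ i)) (hsum : ∀ x y, ∑ i, ⟪ρ i x, ρ i y⟫_ℂ = ⟪x, y⟫_ℂ)
    {F : Finset C} {ε : ℝ}
    (hinv : ∀ u ∈ F, ∀ S, ‖⟪T.σ u T.η, Ep ρ S (T.σ u T.η)⟫_ℂ - ⟪T.η, Ep ρ S T.η⟫_ℂ‖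
        ≤ ε * ‖S‖) :
    ∃ E : (K →L[ℂ] K) →ₗ[ℂ] (K →L[ℂ] K), (∀ S, ‖E S‖ ≤ ‖S‖) ∧
      (∀ x y, T.InB' x → T.InB' y → ∀ S, E (x * S * y) = x * E S * y) ∧
      (∀ S, T.InB' S → E S = S) ∧
      ∀ u ∈ F, ∀ S, ‖⟪T.η, E (adjoint (T.R u) * S * T.R u) T.η⟫_ℂ - ⟪T.η, E S T.η⟫_ℂ‖
        ≤ ε * ‖S‖ := by
  have hnorm : ∀ v : K, ∑ i, ‖ρ i v‖ ^ 2 = ‖v‖ ^ 2 := by
    intro v
    have h1 := hsum v v
    simp_rw [inner_self_eq_norm_sq_to_K] at h1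
    exact_mod_cast h1
  refine ⟨Ep ρ, norm_Ep_le _ hnorm, ?_, ?_, ?_⟩
  · intro x y hx hy S
    exact T.Ep_bimod ρ hρ hx hy S
  · intro S hS
    exact T.Ep_fix ρ hρ hsum hS
  · intro u huF S
    have h2 : adjoint (T.R u) = T.R (star u) := T.R_adj u
    have hR : T.InB' (adjoint (T.R u)) := by rw [h2]; exact T.InB'_R _
    have h3 : ⟪T.η, Ep ρ (adjoint (T.R u) * S * T.R u) T.η⟫_ℂ =
        ⟪T.σ u T.η, Ep ρ S (T.σ u T.η)⟫_ℂ := by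
      rw [T.Ep_bimod ρ hρ hR (T.InB'_R u)]
      rw [mulA, mulA, adjoint_inner_right, T.R_η]
    rw [h3]
    exact hinv u huF S

end Tr

namespace Central

variable {C : Type*} [CStarAlgebra C] {K : Type*} [NormedAddCommGroup K]
    [InnerProductSpace ℂ K] [CompleteSpace K] {T : Tr C K} {H : Type*} [NormedAddCommGroup H]
    [InnerProductSpace ℂ H] [CompleteSpace H] (D : Central T H)

/-- Existence of near central elementary operators. -/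
def NearCentral : Prop := ∀ (F : Finset C) (ε : ℝ), 0 < ε → (∀ u ∈ F, u ∈ unitary C) →
  ∃ (n : ℕ) (x y : Fin n → H →L[ℂ] H), (∀ k, x k ∈ D.A) ∧ (∀ k, y k ∈ D.A) ∧
    ‖∑ k, x k * y k - 1‖ ≤ 1/2 ∧
    ∀ u ∈ F, ∀ S, ‖D.π u * (∑ k, x k * S * y k) - (∑ k, x k * S * y k) * D.π u‖ ≤ ε * ‖S‖

theorem exists_E (hη : ‖T.η‖ = 1) (hN : D.NearCentral) (F : Finset C)
    (hF : ∀ u ∈ F, u ∈ unitary C) {ε : ℝ} (hε : 0 < ε) :
    ∃ E : (K →L[ℂ] K) →ₗ[ℂ] (K →L[ℂ] K), (∀ S, ‖E S‖ ≤ ‖S‖) ∧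
      (∀ x y, T.InB' x → T.InB' y → ∀ S, E (x * S * y) = x * E S * y) ∧
      (∀ S, T.InB' S → E S = S) ∧
      ∀ u ∈ F, ∀ S, ‖⟪T.η, E (adjoint (T.R u) * S * T.R u) T.η⟫_ℂ - ⟪T.η, E S T.η⟫_ℂ‖
        ≤ ε * ‖S‖ := by
  obtain ⟨n, x, y, hx, hy, hw1, hcen⟩ := hN F (ε ^ 2 / 32) (by positivity) hF
  obtain ⟨m, θ, hB, hθ, hfin⟩ := D.exists_theta hη x y hx hy hw1 F hF
    (ε := ε ^ 2 / 32) (by positivity) hcen
  obtain ⟨r, hrB, hr⟩ := T.exists_root θ hB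
  have hsum : ∀ x y : K, ∑ p : Fin m × Fin m, ⟪r p.1 p.2 x, r p.1 p.2 y⟫_ℂ = ⟪x, y⟫_ℂ := by
    intro x y
    rw [Fintype.sum_prod_type, Finset.sum_comm]
    simp_rw [hr]
    exact Tr.sum_inner_of_norm θ hθ x y
  have hρB : ∀ p : Fin m × Fin m, T.InB ((fun p : Fin m × Fin m => r p.1 p.2) p) :=
    fun p => hrB p.1 p.2
  have hinv : ∀ u ∈ F, ∀ S, ‖⟪T.σ u T.η, Tr.Ep (fun p : Fin m × Fin m => r p.1 p.2) S
      (T.σ u T.η)⟫_ℂ - ⟪T.η, Tr.Ep (fun p : Fin m × Fin m => r p.1 p.2) S T.η⟫_ℂ‖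
        ≤ ε * ‖S‖ := by
    intro u huF S
    obtain ⟨e, f, he, hf, h⟩ := hfin u huF
    have h1 := T.Ep_inv hη θ hθ r hr (hF u huF) he hf (by positivity) h S
    refine h1.trans (le_of_eq ?_)
    have h4 : √(8 * (ε ^ 2 / 32)) = ε / 2 := by
      rw [show 8 * (ε ^ 2 / 32) = (ε / 2) ^ 2 by ring, Real.sqrt_sq (by positivity)]
    rw [h4]; ring
  exact T.exists_E_of_family (fun p : Fin m × Fin m => r p.1 p.2) hρB hsum hinv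

end Central

end Pool.Agent.MP_86f3ed
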