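import Pool.Agent.H.MP_86f3ed_an.Trc.Exp
import Pool.Agent.H.MP_86f3ed_an.Trc.Limit

open scoped InnerProductSpace Topology
open Filter ContinuousLinearMap

namespace Pool.Agent.MP_86f3ed

namespace Central

variable {C : Type*} [CStarAlgebra C] {K : Type*} [NormedAddCommGroup K]
    [InnerProductSpace ℂ K] [CompleteSpace K] {T : Tr C K} {H : Type*} [NormedAddCommGroup H]
    [InnerProductSpace ℂ H] [CompleteSpace H] (D : Central T H)

theorem exists_lim (hη : ‖T.η‖ = 1) (hN : D.NearCentral) :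
    ∃ E : (K →L[ℂ] K) →ₗ[ℂ] (K →L[ℂ] K), (∀ S, ‖E S‖ ≤ ‖S‖) ∧
      (∀ x y, T.InB' x → T.InB' y → ∀ S, E (x * S * y) = x * E S * y) ∧
      (∀ S, T.InB' S → E S = S) ∧
      ∀ u ∈ unitary C, ∀ S, ⟪T.η, E (adjoint (T.R u) * S * T.R u) T.η⟫_ℂ =
        ⟪T.η, E S T.η⟫_ℂ := by
  classical
  have hex : ∀ i : Finset (unitary C) × ℕ, ∃ E : (K →L[ℂ] K) →ₗ[ℂ] (K →L[ℂ] K),
      (∀ S, ‖E S‖ ≤ ‖S‖) ∧
      (∀ x y, T.InB' x → T.InB' y → ∀ S, E (x * S * y) = x * E S * y) ∧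
      (∀ S, T.InB' S → E S = S) ∧
      ∀ u : unitary C, u ∈ i.1 → ∀ S, ‖⟪T.η, E (adjoint (T.R u) * S * T.R u) T.η⟫_ℂ -
        ⟪T.η, E S T.η⟫_ℂ‖ ≤ (1 / ((i.2 : ℝ) + 1)) * ‖S‖ := by
    intro i
    obtain ⟨E, h1, h2, h3, h4⟩ := D.exists_E hη hN
      (Finset.image (Subtype.val : unitary C → C) i.1)
      (by
        intro u hu
        obtain ⟨v, _, rfl⟩ := Finset.mem_image.mp hu
        exact v.2) (ε := 1 / ((i.2 : ℝ) + 1)) (by positivity)
    exact ⟨E, h1, h2, h3, fun u hu S => h4 (u : C) (Finset.mem_image.mpr ⟨u, hu, rfl⟩) S⟩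
  choose E hE1 hE2 hE3 hE4 using hex
  let 𝒰 : Ultrafilter (Finset (unitary C) × ℕ) := Ultrafilter.of atTop
  have h𝒰 : (𝒰 : Filter (Finset (unitary C) × ℕ)) ≤ atTop := Ultrafilter.of_le atTop
  obtain ⟨E', hE'n, hE'⟩ := exists_limit 𝒰 E hE1
  refine ⟨E', hE'n, ?_, ?_, ?_⟩
  · intro x y hx hy S
    refine ContinuousLinearMap.ext fun b => ?_
    refine ext_inner_left ℂ fun a => ?_
    have h1 := hE' (x * S * y) a b
    have h2 := hE' S (adjoint x a) (y b)
    have h3 : ∀ i, ⟪a, E i (x * S * y) b⟫_ℂ = ⟪adjoint x a, E i S (y b)⟫_ℂ := by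
      intro i
      rw [hE2 i x y hx hy, mulA, mulA, adjoint_inner_left]
    simp_rw [h3] at h1
    rw [tendsto_nhds_unique h1 h2, mulA, mulA, adjoint_inner_left]
  · intro S hS
    refine ContinuousLinearMap.ext fun b => ?_
    refine ext_inner_left ℂ fun a => ?_
    have h1 := hE' S a b
    simp_rw [fun i => hE3 i S hS] at h1
    exact tendsto_nhds_unique h1 tendsto_const_nhds
  · intro u hu S
    have h1 := (hE' (adjoint (T.R u) * S * T.R u) T.η T.η).sub (hE' S T.η T.η)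
    have h2 : Tendsto (fun i : Finset (unitary C) × ℕ => (1 / ((i.2 : ℝ) + 1)) * ‖S‖)
        (𝒰 : Filter (Finset (unitary C) × ℕ)) (𝓝 0) := by
      have h3 : Tendsto (fun i : Finset (unitary C) × ℕ => i.2) atTop atTop := by
        rw [← prod_atTop_atTop_eq]; exact tendsto_snd
      have h4 : Tendsto (fun n : ℕ => (1 / ((n : ℝ) + 1)) * ‖S‖) atTop (𝓝 (0 * ‖S‖)) :=
        tendsto_one_div_add_atTop_nhds_zero_nat.mul_const _
      rw [zero_mul] at h4
      exact (h4.comp h3).mono_left h𝒰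
    have h5 : ∀ᶠ i in (𝒰 : Filter (Finset (unitary C) × ℕ)),
        ‖⟪T.η, E i (adjoint (T.R u) * S * T.R u) T.η⟫_ℂ - ⟪T.η, E i S T.η⟫_ℂ‖ ≤
          (1 / ((i.2 : ℝ) + 1)) * ‖S‖ := by
      refine h𝒰 ?_
      filter_upwards [Filter.eventually_ge_atTop (({⟨u, hu⟩}, 0) :
        Finset (unitary C) × ℕ)] with i hi
      exact hE4 i ⟨u, hu⟩ (hi.1 (Finset.mem_singleton_self _)) S
    have h6 := tendsto_nhds_unique h1 (squeeze_zero_norm' h5 h2)
    exact sub_eq_zero.mp h6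

theorem exists_proj (hη : ‖T.η‖ = 1) (hN : D.NearCentral) :
    ∃ E : (K →L[ℂ] K) →ₗ[ℂ] (K →L[ℂ] K), (∀ S, ‖E S‖ ≤ ‖S‖) ∧
      (∀ S c, E S * T.σ c = T.σ c * E S) ∧
      (∀ S, (∀ c, S * T.σ c = T.σ c * S) → E S = S) := by
  obtain ⟨E, hE1, hE2, hE3, hE4⟩ := D.exists_lim hη hN
  have hR : ∀ (c : C) (S : K →L[ℂ] K), ⟪T.η, E (S * T.R c) T.η⟫_ℂ =
      ⟪T.η, E (T.R c * S) T.η⟫_ℂ := by
    intro c S
    have hc : c ∈ Submodule.span ℂ (unitary C : Set C) := by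
      rw [CStarAlgebra.span_unitary]; trivial
    induction hc using Submodule.span_induction with
    | mem u hu =>
      have hu' : u ∈ unitary C := hu
      have h := hE4 u hu' (T.R u * S)
      have h2 : adjoint (T.R u) * (T.R u * S) * T.R u = S * T.R u := by
        rw [T.R_adj, ← mul_assoc, T.R_mul, Unitary.mul_star_self_of_mem hu', T.R_one, one_mul]
      rw [h2] at h
      exact h
    | zero =>
      have : T.R (0 : C) = 0 := by
        have := T.R_smul 0 (0 : C)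
        rwa [zero_smul, zero_smul] at this
      rw [this, mul_zero, zero_mul]
    | add x y _ _ hx hy =>
      rw [T.R_add, mul_add, add_mul, map_add, map_add, add_apply, add_apply, inner_add_right,
        inner_add_right, hx, hy]
    | smul z x _ hx =>
      rw [T.R_smul, mul_smul_comm, smul_mul_assoc, map_smul, map_smul, smul_apply, smul_apply,
        inner_smul_right, inner_smul_right, hx]
  refine ⟨E, hE1, ?_, ?_⟩
  · intro S c
    refine T.ext_e fun b => ?_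
    refine T.e_dense.eq_of_inner_right (𝕜 := ℂ) ?_
    intro a
    have hbim : ∀ (p q : C), ⟪T.e p, E S (T.e q)⟫_ℂ =
        ⟪T.η, E (T.R (star p) * S * T.R q) T.η⟫_ℂ := by
      intro p q
      rw [hE2 _ _ (T.InB'_R _) (T.InB'_R _), mulA, mulA, ← T.R_adj, adjoint_inner_right,
        T.R_η, T.R_η, T.e_apply, T.e_apply]
    have h1 : ⟪T.e a, (E S * T.σ c) (T.e b)⟫_ℂ = ⟪T.e a, E S (T.e (c * b))⟫_ℂ := by
      rw [mulA, T.σ_e]
    have h2 : ⟪T.e a, (T.σ c * E S) (T.e b)⟫_ℂ = ⟪T.e (star c * a), E S (T.e b)⟫_ℂ := by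
      rw [mulA, ← T.σ_e, T.σ_star, adjoint_inner_left]
    rw [h1, h2, hbim, hbim, ← T.R_mul b c, star_mul, star_star, ← T.R_mul c (star a),
      ← mul_assoc, hR, mul_assoc, mul_assoc, mul_assoc]
  · intro S hS
    exact hE3 S fun b hb => (T.comm_of_commutant hb hS).symm

end Central

end Pool.Agent.MP_86f3ed
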