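import Pool.Agent.H.MP_86f3ed_an.Trc.Jay
import Pool.Agent.H.MP_86f3ed_an.Trc.Proj
import Pool.Agent.H.MP_86f3ed_an.Trc.Approx

open scoped InnerProductSpace Topology
open Filter ContinuousLinearMap

namespace Pool.Agent.MP_86f3ed

universe u v w w'

theorem exists_unit (C : Type*) [NonUnitalCStarAlgebra C] : ∃ l : Filter C, l.NeBot ∧
    (∀ c : C, Tendsto (fun e => c * e) l (𝓝 c)) ∧ (∀ c : C, Tendsto (fun e => e * c) l (𝓝 c)) ∧
    (∀ᶠ e in l, star e = e) ∧ ∀ᶠ e in l, ‖e‖ ≤ 1 := by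
  let _ : PartialOrder C := CStarAlgebra.spectralOrder C
  let _ : StarOrderedRing C := CStarAlgebra.spectralOrderedRing C
  have h := CStarAlgebra.increasingApproximateUnit C
  exact ⟨CStarAlgebra.approximateUnit C, h.neBot, h.tendsto_mul_left, h.tendsto_mul_right,
    h.eventually_star_eq, h.eventually_norm⟩

theorem starLift_apply' {A : Type*} [NonUnitalCStarAlgebra A] {H : Type*} [NormedAddCommGroup H]
    [InnerProductSpace ℂ H] [CompleteSpace H] (π : A →⋆ₙₐ[ℂ] (H →L[ℂ] H)) (x : Unitization ℂ A)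
    (v : H) : Unitization.starLift π x v = x.fst • v + π x.snd v := rfl

section

variable {A : Type u} [NonUnitalCStarAlgebra A] {H : Type v} [NormedAddCommGroup H]
  [InnerProductSpace ℂ H] [CompleteSpace H] (π : A →⋆ₙₐ[ℂ] (H →L[ℂ] H)) (ξ : H)
  {C : Type w} [NonUnitalCStarAlgebra C] (j : C →⋆ₙₐ[ℂ] A)
  {K : Type w'} [NormedAddCommGroup K] [InnerProductSpace ℂ K] [CompleteSpace K]
  (σ : C →⋆ₙₐ[ℂ] (K →L[ℂ] K)) (η : K)

theorem nstar (a : A) : π (star a) = adjoint (π a) := by rw [map_star]; rfl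

theorem exists_isometry (hcyc : DenseRange fun c => σ c η)
    (hvec : ∀ c, ⟪η, σ c η⟫_ℂ = ⟪ξ, π (j c) ξ⟫_ℂ) :
    ∃ V : K →L[ℂ] H, (∀ c, V (σ c η) = π (j c) ξ) ∧ (∀ v w, ⟪V v, V w⟫_ℂ = ⟪v, w⟫_ℂ) ∧
      ∀ c v, V (σ c v) = π (j c) (V v) := by
  let f : C →ₗ[ℂ] H :=
    { toFun := fun c => π (j c) ξ
      map_add' := by intro c d; simp
      map_smul' := by intro c d; simp }
  let e : C →ₗ[ℂ] K :=
    { toFun := fun c => σ c η
      map_add' := by intro c d; simp
      map_smul' := by intro c d; simp }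
  have hin : ∀ c d, ⟪f c, f d⟫_ℂ = ⟪e c, e d⟫_ℂ := by
    intro c d
    show ⟪π (j c) ξ, π (j d) ξ⟫_ℂ = ⟪σ c η, σ d η⟫_ℂ
    have h1 : π (star (j c)) * π (j d) = π (j (star c * d)) := by
      rw [map_mul, map_mul, map_star j]
    have h2 : σ (star c) * σ d = σ (star c * d) := by rw [map_mul]
    rw [← adjoint_inner_right, ← nstar, ← adjoint_inner_right, ← nstar, ← mulA, ← mulA,
      h1, h2, hvec]
  have hnorm : ∀ c, ‖f c‖ = ‖e c‖ := by
    intro c
    have h := hin c c
    rw [inner_self_eq_norm_sq_to_K, inner_self_eq_norm_sq_to_K] at h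
    have h2 : ‖f c‖ ^ 2 = ‖e c‖ ^ 2 := by exact_mod_cast h
    exact (sq_eq_sq₀ (norm_nonneg _) (norm_nonneg _)).mp h2
  have hd : DenseRange e := hcyc
  have hV : ∀ c, f.extendOfNorm e (e c) = f c := fun c =>
    LinearMap.extendOfNorm_eq hd ⟨1, fun x => by rw [one_mul, hnorm]⟩ c
  refine ⟨f.extendOfNorm e, hV, ?_, ?_⟩
  · intro v w
    refine hd.induction (P := fun v => ⟪f.extendOfNorm e v, f.extendOfNorm e w⟫_ℂ = ⟪v, w⟫_ℂ) ?_
      (isClosed_eq (by fun_prop) (by fun_prop)) v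
    rintro _ ⟨c, rfl⟩
    refine hd.induction
      (P := fun w => ⟪f.extendOfNorm e (e c), f.extendOfNorm e w⟫_ℂ = ⟪e c, w⟫_ℂ) ?_
      (isClosed_eq (by fun_prop) (by fun_prop)) w
    rintro _ ⟨d, rfl⟩
    rw [hV, hV, hin]
  · intro c v
    refine hd.induction (P := fun v => f.extendOfNorm e (σ c v) =
      π (j c) (f.extendOfNorm e v)) ?_ (isClosed_eq (by fun_prop) (by fun_prop)) v
    rintro _ ⟨d, rfl⟩
    have h1 : σ c (e d) = e (c * d) := by
      show σ c (σ d η) = σ (c * d) η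
      rw [map_mul]; rfl
    rw [h1, hV, hV]
    show π (j (c * d)) ξ = π (j c) (π (j d) ξ)
    rw [map_mul, map_mul]; rfl

theorem tendsto_unit (hcyc : DenseRange fun c => σ c η) {l : Filter C} [l.NeBot]
    (h2 : ∀ c : C, Tendsto (fun e => e * c) l (𝓝 c)) (h4 : ∀ᶠ e in l, ‖e‖ ≤ 1) :
    Tendsto (fun e => σ e η) l (𝓝 η) := by
  rw [Metric.tendsto_nhds]
  intro ε hε
  obtain ⟨_, ⟨c, rfl⟩, hc⟩ := Metric.mem_closure_iff.mp (hcyc η) (ε / 4) (by positivity)
  have hcont : Continuous fun c : C => σ c η := by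
    have h1 : LipschitzWith (‖η‖₊) fun c : C => σ c η := by
      refine LipschitzWith.of_dist_le_mul fun c d => ?_
      rw [dist_eq_norm, dist_eq_norm, ← sub_apply, ← map_sub]
      refine (le_opNorm _ _).trans ?_
      rw [mul_comm]
      exact mul_le_mul_of_nonneg_left (NonUnitalStarAlgHom.norm_apply_le σ _) (norm_nonneg _)
    exact h1.continuous
  have h5 : Tendsto (fun e => σ (e * c) η) l (𝓝 (σ c η)) := (hcont.tendsto c).comp (h2 c)
  filter_upwards [h4, (Metric.tendsto_nhds.mp h5) (ε / 4) (by positivity)] with e he1 he2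
  have h6 : ‖σ e (η - σ c η)‖ ≤ ‖η - σ c η‖ := by
    refine (le_opNorm _ _).trans ?_
    have h7 : ‖σ e‖ ≤ 1 := (NonUnitalStarAlgHom.norm_apply_le σ e).trans he1
    calc ‖σ e‖ * ‖η - σ c η‖ ≤ 1 * ‖η - σ c η‖ :=
          mul_le_mul_of_nonneg_right h7 (norm_nonneg _)
      _ = _ := one_mul _
  have h8 : σ e η - η = σ e (η - σ c η) + (σ (e * c) η - σ c η) + (σ c η - η) := by
    rw [map_sub, map_mul, mulA]; abel
  rw [dist_eq_norm] at he2 hc ⊢
  rw [h8]
  have h9 : ‖σ c η - η‖ = ‖η - σ c η‖ := norm_sub_rev _ _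
  have hc' : ‖η - σ c η‖ < ε / 4 := hc
  have := norm_add_le (σ e (η - σ c η) + (σ (e * c) η - σ c η)) (σ c η - η)
  have := norm_add_le (σ e (η - σ c η)) (σ (e * c) η - σ c η)
  linarith

include π ξ j in
theorem central_transfer (hcyc : DenseRange fun c => σ c η)
    (hcent : ∀ c a, ⟪ξ, π (j c) (π a ξ)⟫_ℂ = ⟪ξ, π a (π (j c) ξ)⟫_ℂ)
    {V : K →L[ℂ] H} (hV : ∀ c, V (σ c η) = π (j c) ξ)
    (hVσ : ∀ c v, V (σ c v) = π (j c) (V v)) (c : C) (a : A) :
    ⟪V η, π (j c) (π a (V η))⟫_ℂ = ⟪V η, π a (π (j c) (V η))⟫_ℂ := by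
  obtain ⟨l, hl, h1, h2, h3, h4⟩ := exists_unit C
  have ht : Tendsto (fun e => π (j e) ξ) l (𝓝 (V η)) := by
    have h := (V.continuous.tendsto η).comp (tendsto_unit σ η hcyc h2 h4)
    exact h.congr fun e => hV e
  have hcj : ∀ w : H, Continuous fun c : C => π (j c) w := by
    intro w
    have h1 : LipschitzWith (‖w‖₊) fun c : C => π (j c) w := by
      refine LipschitzWith.of_dist_le_mul fun c d => ?_
      rw [dist_eq_norm, dist_eq_norm, ← sub_apply, ← map_sub, ← map_sub]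
      refine (le_opNorm _ _).trans ?_
      rw [mul_comm]
      exact mul_le_mul_of_nonneg_left ((NonUnitalStarAlgHom.norm_apply_le π _).trans
        (NonUnitalStarAlgHom.norm_apply_le j _)) (norm_nonneg _)
    exact h1.continuous
  have hVc : π (j c) (V η) = π (j c) ξ := by rw [← hVσ, hV]
  have hVc' : π (j (star c)) (V η) = π (j (star c)) ξ := by rw [← hVσ, hV]
  have hA : ⟪V η, π a (π (j c) ξ)⟫_ℂ = ⟪ξ, π a (π (j c) ξ)⟫_ℂ := by
    have t1 : Tendsto (fun e => ⟪π (j e) ξ, π a (π (j c) ξ)⟫_ℂ) l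
        (𝓝 ⟪V η, π a (π (j c) ξ)⟫_ℂ) := ht.inner tendsto_const_nhds
    have t2 : Tendsto (fun e => ⟪ξ, π a (π (j (c * e)) ξ)⟫_ℂ) l
        (𝓝 ⟪ξ, π a (π (j c) ξ)⟫_ℂ) := by
      have h5 := ((π a).continuous.tendsto _).comp (((hcj ξ).tendsto c).comp (h1 c))
      exact tendsto_const_nhds.inner h5
    refine tendsto_nhds_unique (t1.congr' ?_) t2
    filter_upwards [h3] with e he
    have h6 := hcent e (a * j c)
    have h7 : ⟪π (j e) ξ, π a (π (j c) ξ)⟫_ℂ = ⟪ξ, π (j e) (π (a * j c) ξ)⟫_ℂ := by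
      conv_lhs => rw [← he]
      rw [map_star, nstar, adjoint_inner_left, map_mul]; rfl
    rw [h7, h6, map_mul, mulA, ← mulA (π (j c)), ← map_mul, ← map_mul]
  have hB : ⟪V η, π (j c) (π a (V η))⟫_ℂ = ⟪ξ, π (j c) (π a ξ)⟫_ℂ := by
    have h5 : ⟪V η, π (j c) (π a (V η))⟫_ℂ = ⟪ξ, π (j c) (π a (V η))⟫_ℂ := by
      have h6 : ∀ z w : H, ⟪z, π (j c) w⟫_ℂ = ⟪π (j (star c)) z, w⟫_ℂ := by
        intro z w
        rw [map_star, nstar, adjoint_inner_left]
      rw [h6, h6, hVc']
    rw [h5]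
    have t1 : Tendsto (fun e => ⟪ξ, π (j c) (π a (π (j e) ξ))⟫_ℂ) l
        (𝓝 ⟪ξ, π (j c) (π a (V η))⟫_ℂ) := by
      have h6 := ((π (j c)).continuous.tendsto _).comp (((π a).continuous.tendsto _).comp ht)
      exact tendsto_const_nhds.inner h6
    have t2 : Tendsto (fun e => ⟪ξ, π (j (e * c)) (π a ξ)⟫_ℂ) l
        (𝓝 ⟪ξ, π (j c) (π a ξ)⟫_ℂ) := by
      have h6 := ((hcj (π a ξ)).tendsto c).comp (h2 c)
      exact tendsto_const_nhds.inner h6
    refine tendsto_nhds_unique (t1.congr fun e => ?_) t2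
    have h6 := hcent e (j c * a)
    rw [map_mul, mulA, mulA] at h6
    rw [← h6, ← mulA (π (j e)), ← map_mul, ← map_mul]
  rw [hB, hVc, hA, hcent]

end

/-- The unit vector version for arbitrary algebras. -/
theorem injective_of_norm_one {A : Type u} [NonUnitalCStarAlgebra A]
    (hA : ApproxAmenable.{u, v} A)
    {H : Type v} [NormedAddCommGroup H] [InnerProductSpace ℂ H] [CompleteSpace H]
    (π : A →⋆ₙₐ[ℂ] (H →L[ℂ] H)) (ξ : H)
    {C : Type w} [NonUnitalCStarAlgebra C] (j : C →⋆ₙₐ[ℂ] A)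
    (hcent : ∀ c a, ⟪ξ, π (j c) (π a ξ)⟫_ℂ = ⟪ξ, π a (π (j c) ξ)⟫_ℂ)
    {K : Type w'} [NormedAddCommGroup K] [InnerProductSpace ℂ K] [CompleteSpace K]
    (σ : C →⋆ₙₐ[ℂ] (K →L[ℂ] K)) (η : K) (hη : ‖η‖ = 1) (hcyc : DenseRange fun c => σ c η)
    (hvec : ∀ c, ⟪η, σ c η⟫_ℂ = ⟪ξ, π (j c) ξ⟫_ℂ) :
    IsInjective (Set.range σ).centralizer.centralizer := by
  classical
  obtain ⟨V, hV, hVin, hVσ⟩ := exists_isometry π ξ j σ η hcyc hvec
  have hcent' := central_transfer π ξ j σ η hcyc hcent hV hVσ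
  let T : Tr (Unitization ℂ C) K :=
    { σ := Unitization.starLift σ
      η := η
      cyc := by
        have h : Set.range (fun c => σ c η) ⊆
            Set.range (fun c : Unitization ℂ C => Unitization.starLift σ c η) := by
          rintro _ ⟨c, rfl⟩
          refine ⟨(c : Unitization ℂ C), ?_⟩
          show Unitization.starLift σ (c : Unitization ℂ C) η = σ c η
          rw [starLift_apply', Unitization.fst_inr, Unitization.snd_inr, zero_smul, zero_add]
        exact Dense.mono h hcyc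
      tr := by
        intro c d
        have h1 : ⟪η, σ c.snd (σ d.snd η)⟫_ℂ = ⟪η, σ d.snd (σ c.snd η)⟫_ℂ := by
          have h2 := hvec (c.snd * d.snd)
          have h3 := hvec (d.snd * c.snd)
          rw [map_mul, map_mul, map_mul, mulA, mulA] at h2 h3
          rw [h2, h3, hcent]
        rw [map_mul, map_mul, mulA, mulA]
        simp only [starLift_apply', map_add, map_smul, inner_add_right, inner_smul_right,
          smul_add, h1]
        ring }
  have hTσ : ∀ (c : Unitization ℂ C) (v : K), T.σ c v = c.fst • v + σ c.snd v := fun c v => rfl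
  have hπ' : ∀ (c : Unitization ℂ C) (v : H), Unitization.starLift (π.comp j) c v =
      c.fst • v + π (j c.snd) v := fun c v => rfl
  let D : Central T H :=
    { π := Unitization.starLift (π.comp j)
      ξ := V η
      A := (Unitization.starLift π).range
      mem := by
        intro c
        refine ⟨⟨c.fst, j c.snd⟩, ?_⟩
        refine ContinuousLinearMap.ext fun v => ?_
        rfl
      cent := by
        rintro c _ ⟨a, rfl⟩
        show ⟪V η, Unitization.starLift (π.comp j) c (Unitization.starLift π a (V η))⟫_ℂ =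
          ⟪V η, Unitization.starLift π a (Unitization.starLift (π.comp j) c (V η))⟫_ℂ
        simp only [hπ', starLift_apply', map_add, map_smul, inner_add_right, inner_smul_right,
          smul_add, hcent']
      vec := by
        intro c
        have h1 : ⟪V η, V η⟫_ℂ = ⟪η, η⟫_ℂ := hVin η η
        have h2 : ⟪V η, π (j c.snd) (V η)⟫_ℂ = ⟪η, σ c.snd η⟫_ℂ := by
          rw [← hVσ, hVin]
        show ⟪η, T.σ c η⟫_ℂ = ⟪V η, Unitization.starLift (π.comp j) c (V η)⟫_ℂ
        rw [hTσ, hπ', inner_add_right, inner_add_right, inner_smul_right, inner_smul_right, h1,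
          h2] }
  have hN : D.NearCentral := by
    intro F ε hε _
    obtain ⟨n, x, y, hx, hy, h1, h2⟩ := exists_near_central hA π
      (F.image fun c : Unitization ℂ C => j c.snd) (min ε (1/2)) (by positivity)
    refine ⟨n, x, y, hx, hy, h1.trans (min_le_right _ _), ?_⟩
    intro c hc S
    have h3 := h2 (j c.snd) (Finset.mem_image.mpr ⟨c, hc, rfl⟩) S
    have h4 : D.π c = c.fst • (1 : H →L[ℂ] H) + π (j c.snd) := by
      refine ContinuousLinearMap.ext fun v => ?_
      rfl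
    have h5 : D.π c * (∑ k, x k * S * y k) - (∑ k, x k * S * y k) * D.π c =
        π (j c.snd) * (∑ k, x k * S * y k) - (∑ k, x k * S * y k) * π (j c.snd) := by
      rw [h4, add_mul, mul_add, smul_mul_assoc, mul_smul_comm, one_mul, mul_one]
      abel
    rw [h5]
    exact h3.trans (mul_le_mul_of_nonneg_right (min_le_left _ _) (norm_nonneg _))
  have hI := T.injective_of_proj (D.exists_proj hη hN)
  have hset : (Set.range T.σ).centralizer = (Set.range σ).centralizer := by
    ext z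
    rw [Set.mem_centralizer_iff, Set.mem_centralizer_iff]
    constructor
    · rintro h _ ⟨c, rfl⟩
      have h1 := h (T.σ (c : Unitization ℂ C)) ⟨_, rfl⟩
      have h2 : T.σ (c : Unitization ℂ C) = σ c := by
        refine ContinuousLinearMap.ext fun v => ?_
        rw [hTσ, Unitization.fst_inr, Unitization.snd_inr, zero_smul, zero_add]
      rwa [h2] at h1
    · rintro h _ ⟨c, rfl⟩
      have h1 := h (σ c.snd) ⟨_, rfl⟩
      have h2 : T.σ c = c.fst • (1 : K →L[ℂ] K) + σ c.snd := by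
        refine ContinuousLinearMap.ext fun v => ?_
        rfl
      rw [h2, add_mul, mul_add, smul_mul_assoc, mul_smul_comm, one_mul, mul_one, h1]
  rwa [hset] at hI

/-- The general statement. -/
theorem injective_of_central {A : Type u} [NonUnitalCStarAlgebra A]
    (hA : ApproxAmenable.{u, v} A)
    {H : Type v} [NormedAddCommGroup H] [InnerProductSpace ℂ H] [CompleteSpace H]
    (π : A →⋆ₙₐ[ℂ] (H →L[ℂ] H)) (ξ : H)
    {C : Type w} [NonUnitalCStarAlgebra C] (j : C →⋆ₙₐ[ℂ] A)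
    (hcent : ∀ c a, ⟪ξ, π (j c) (π a ξ)⟫_ℂ = ⟪ξ, π a (π (j c) ξ)⟫_ℂ)
    {K : Type w'} [NormedAddCommGroup K] [InnerProductSpace ℂ K] [CompleteSpace K]
    (σ : C →⋆ₙₐ[ℂ] (K →L[ℂ] K)) (η : K) (hcyc : DenseRange fun c => σ c η)
    (hvec : ∀ c, ⟪η, σ c η⟫_ℂ = ⟪ξ, π (j c) ξ⟫_ℂ) :
    IsInjective (Set.range σ).centralizer.centralizer := by
  rcases eq_or_ne η 0 with h0 | h0
  · have hK : ∀ v : K, v = 0 := by
      intro v
      have h1 : v ∈ closure (Set.range fun c => σ c η) := hcyc v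
      have h2 : (Set.range fun c => σ c η) ⊆ {0} := by
        rintro _ ⟨c, rfl⟩
        rw [Set.mem_singleton_iff, h0]
        exact map_zero (σ c)
      have h3 := closure_mono h2 h1
      rwa [closure_singleton, Set.mem_singleton_iff] at h3
    have hS : ∀ S S' : K →L[ℂ] K, S = S' := fun S S' =>
      ContinuousLinearMap.ext fun v => by rw [hK v, map_zero, map_zero]
    refine ⟨0, fun S => by simp, fun S => ?_, fun S _ => hS _ _⟩
    rw [Set.mem_centralizer_iff]
    intro m _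
    exact hS _ _
  · set r : ℂ := ((‖η‖⁻¹ : ℝ) : ℂ) with hr
    have hn : ‖η‖ ≠ 0 := norm_ne_zero_iff.mpr h0
    have hr0 : r ≠ 0 := by
      rw [hr, Complex.ofReal_ne_zero]
      exact inv_ne_zero hn
    refine injective_of_norm_one hA π (r • ξ) j ?_ σ (r • η) ?_ ?_ ?_
    · intro c a
      simp only [map_smul, inner_smul_left, inner_smul_right, hcent]
    · rw [norm_smul, hr, Complex.norm_real, Real.norm_eq_abs, abs_of_nonneg (by positivity),
        inv_mul_cancel₀ hn]
    · have h1 : (fun c => σ c (r • η)) = (fun v : K => r • v) ∘ fun c => σ c η := by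
        funext c
        simp only [Function.comp, map_smul]
      rw [h1]
      refine DenseRange.comp ?_ hcyc (continuous_const_smul r)
      have h2 : Function.Surjective fun v : K => r • v := fun v =>
        ⟨r⁻¹ • v, by simp only [smul_smul, mul_inv_cancel₀ hr0, one_smul]⟩
      exact h2.denseRange
    · intro c
      simp only [map_smul, inner_smul_left, inner_smul_right, hvec]

end Pool.Agent.MP_86f3ed
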