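import Pool.Agent.H.MP_86f3ed_an.Trc.Trace
import Pool.Agent.H.MP_86f3ed_an.Trc.Public

open scoped InnerProductSpace Topology
open Filter ContinuousLinearMap

namespace Pool.Agent.MP_86f3ed

namespace Tr

variable {C : Type*} [CStarAlgebra C] {K : Type*} [NormedAddCommGroup K]
    [InnerProductSpace ℂ K] [CompleteSpace K] (T : Tr C K)

/-- The conjugate linear map `c ↦ σ (c*) η`. -/
noncomputable def eJ : C →ₗ⋆[ℂ] K :=
  { toFun := fun c => T.e (star c)
    map_add' := by intro c d; simp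
    map_smul' := by intro c d; simp }

/-- The modular conjugation. -/
noncomputable def J : K →L⋆[ℂ] K := T.eJ.extendOfNorm T.e

theorem J_e (c : C) : T.J (T.e c) = T.e (star c) := by
  have := LinearMap.extendOfNorm_eq (f := T.eJ) (e := T.e)
    T.e_dense ⟨1, fun x => by
      rw [one_mul]
      exact (T.norm_e_star x).le⟩ c
  exact this

theorem J_J (v : K) : T.J (T.J v) = v := by
  refine T.e_dense.induction (P := fun v => T.J (T.J v) = v) ?_
    (isClosed_eq (by fun_prop) (by fun_prop)) v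
  rintro _ ⟨c, rfl⟩
  rw [J_e, J_e, star_star]

theorem norm_J (v : K) : ‖T.J v‖ = ‖v‖ := by
  refine T.e_dense.induction (P := fun v => ‖T.J v‖ = ‖v‖) ?_
    (isClosed_eq (by fun_prop) (by fun_prop)) v
  rintro _ ⟨c, rfl⟩
  rw [J_e, T.norm_e_star]

/-- `S ↦ J S J`. -/
noncomputable def jj (S : K →L[ℂ] K) : K →L[ℂ] K := T.J.comp (S.comp T.J)

theorem jj_apply (S : K →L[ℂ] K) (v : K) : T.jj S v = T.J (S (T.J v)) := rfl

theorem jj_mul (S S' : K →L[ℂ] K) : T.jj (S * S') = T.jj S * T.jj S' :=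
  ContinuousLinearMap.ext fun v => by
    rw [jj_apply, mulA, mulA, jj_apply, jj_apply, J_J]

theorem jj_jj (S : K →L[ℂ] K) : T.jj (T.jj S) = S :=
  ContinuousLinearMap.ext fun v => by rw [jj_apply, jj_apply, J_J, J_J]

theorem jj_add (S S' : K →L[ℂ] K) : T.jj (S + S') = T.jj S + T.jj S' :=
  ContinuousLinearMap.ext fun v => by
    rw [jj_apply, add_apply, add_apply, jj_apply, jj_apply, map_add]

theorem jj_smul (z : ℂ) (S : K →L[ℂ] K) : T.jj (z • S) = (starRingEnd ℂ) z • T.jj S :=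
  ContinuousLinearMap.ext fun v => by
    rw [jj_apply, smul_apply, smul_apply, jj_apply, map_smulₛₗ]

theorem norm_jj_le (S : K →L[ℂ] K) : ‖T.jj S‖ ≤ ‖S‖ := by
  refine opNorm_le_bound _ (norm_nonneg _) fun v => ?_
  rw [jj_apply, norm_J]
  refine (le_opNorm _ _).trans ?_
  rw [norm_J]

theorem jj_σ (c : C) : T.jj (T.σ c) = T.R (star c) := T.ext_e fun d => by
  rw [jj_apply, J_e, σ_e, J_e, R_e, star_mul, star_star]

theorem jj_R (c : C) : T.jj (T.R c) = T.σ (star c) := by
  have h := T.jj_σ (star c)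
  rw [star_star] at h
  rw [← h, jj_jj]

/-- From a projection onto the commutant we obtain a projection onto the bicommutant. -/
theorem injective_of_proj (h : ∃ E : (K →L[ℂ] K) →ₗ[ℂ] (K →L[ℂ] K), (∀ S, ‖E S‖ ≤ ‖S‖) ∧
      (∀ S c, E S * T.σ c = T.σ c * E S) ∧
      (∀ S, (∀ c, S * T.σ c = T.σ c * S) → E S = S)) :
    IsInjective (Set.range T.σ).centralizer.centralizer := by
  obtain ⟨E, hE1, hE2, hE3⟩ := h
  let E₀ : (K →L[ℂ] K) →ₗ[ℂ] (K →L[ℂ] K) :=
    { toFun := fun S => T.jj (E (T.jj S))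
      map_add' := by intro S S'; rw [jj_add, map_add, jj_add]
      map_smul' := by
        intro z S
        rw [jj_smul, map_smul, jj_smul, RingHomCompTriple.comp_apply] }
  have hE₀ : ∀ S, ‖E₀ S‖ ≤ ‖S‖ := fun S =>
    (T.norm_jj_le _).trans ((hE1 _).trans (T.norm_jj_le _))
  refine ⟨E₀, hE₀, ?_, ?_⟩
  · intro S
    show T.jj (E (T.jj S)) ∈ _
    rw [Set.mem_centralizer_iff]
    intro z hz
    rw [Set.mem_centralizer_iff] at hz
    have hz' : T.InB (T.jj z) := by
      intro d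
      have h1 : T.R d = T.jj (T.σ (star d)) := by rw [jj_σ, star_star]
      rw [h1, ← jj_mul, ← jj_mul, hz _ ⟨_, rfl⟩]
    have h2 := T.comm_of_commutant hz' (hE2 (T.jj S))
    have h3 := congrArg T.jj h2
    rw [jj_mul, jj_mul, jj_jj] at h3
    exact h3
  · intro S hS
    show T.jj (E (T.jj S)) = S
    rw [Set.mem_centralizer_iff] at hS
    have h1 : ∀ c, T.jj S * T.σ c = T.σ c * T.jj S := by
      intro c
      have h2 : T.R (star c) ∈ (Set.range T.σ).centralizer := by
        rw [Set.mem_centralizer_iff]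
        rintro _ ⟨d, rfl⟩
        exact T.commute_σ_R d (star c)
      have h3 := congrArg T.jj (hS _ h2)
      rw [jj_mul, jj_mul, jj_R, star_star] at h3
      exact h3.symm
    rw [hE3 _ h1, jj_jj]

end Tr

end Pool.Agent.MP_86f3ed
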